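import Mathlib

set_option autoImplicit false

/-! From the blocks `[2 ^ k, 2 ^ (k + 1))` to initial segments. -/

namespace Pool.Agent.K4H18.CH

open Finset

lemma ev_nat (k : ℕ) (C a : ℝ) (ha : 0 < a) : ∃ N0 : ℕ, ∀ N : ℕ, N0 ≤ N → C * Real.log N ^ k ≤ (N : ℝ) ^ a := by
  have h := (isLittleO_log_rpow_rpow_atTop (k : ℝ) ha).bound (show 0 < 1 / (|C| + 1) by positivity)
  have h2 := (tendsto_natCast_atTop_atTop (R := ℝ)).eventually h
  obtain ⟨x0, hx0⟩ := Filter.eventually_atTop.1 h2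
  refine ⟨max x0 1, fun x hx => ?_⟩
  have h3 := hx0 x (le_trans (le_max_left _ _) hx)
  have hx1 : (1 : ℝ) ≤ x := by exact_mod_cast (le_trans (le_max_right _ _) hx)
  have hl : 0 ≤ Real.log x := Real.log_nonneg hx1
  rw [Real.norm_of_nonneg (by positivity), Real.norm_of_nonneg (by positivity), Real.rpow_natCast] at h3
  rw [div_mul_eq_mul_div, one_mul, le_div_iff₀ (by positivity)] at h3
  have h4 : C * Real.log x ^ k ≤ |C| * Real.log x ^ k := mul_le_mul_of_nonneg_right (le_abs_self C) (by positivity)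
  nlinarith [pow_nonneg hl k]

lemma ev_lg (C : ℝ) : ∃ n₀ : ℕ, ∀ n : ℕ, n₀ ≤ n → C ≤ Real.log n := by
  have h := (Real.tendsto_log_atTop.comp tendsto_natCast_atTop_atTop).eventually_ge_atTop C
  obtain ⟨n₀, h0⟩ := Filter.eventually_atTop.1 h
  exact ⟨n₀, fun n hn => h0 n hn⟩

open Classical in
theorem blocks (P : ℕ → Prop) (U : ℕ) (h : ∃ k0 : ℕ, ∀ k : ℕ, k0 ≤ k →
    (((Ico (2 ^ k) (2 ^ (k + 1))).filter (fun N => ¬ P N)).card : ℝ) ≤ 2 ^ k / (k : ℝ) ^ (U + 1)) :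
    ∃ M0 : ℕ, ∀ M : ℕ, M0 ≤ M → (((Icc 1 M).filter (fun N => ¬ P N)).card : ℝ) ≤ M / Real.log M ^ U := by
  obtain ⟨k0, h⟩ := h
  obtain ⟨n1, h1⟩ := ev_nat U 2 (1 / 2) (by norm_num)
  obtain ⟨n2, h2⟩ := ev_lg (4 * 4 ^ (U + 1) + 4 * k0 + 8)
  refine ⟨max (max n1 n2) 2, fun M hM => ?_⟩
  have a1 := h1 M (by omega)
  have a2 := h2 M (by omega)
  have hM2 : 2 ≤ M := by omega
  have hM0 : (0 : ℝ) < M := by exact_mod_cast (by omega : 0 < M)
  set L := Real.log M with hL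
  have h4U : (1 : ℝ) ≤ 4 ^ (U + 1) := one_le_pow₀ (by norm_num)
  have hk0 : (0 : ℝ) ≤ k0 := Nat.cast_nonneg _
  have hL0 : 0 < L := by nlinarith
  set K := Nat.log 2 M with hK
  have hK1 : 2 ^ K ≤ M := Nat.pow_log_le_self 2 (by omega)
  have hK2 : M < 2 ^ (K + 1) := Nat.lt_pow_succ_log_self (by norm_num) M
  set J := K / 2 with hJ
  -- `J` is large
  have hLK : L ≤ K + 1 := by
    have h5 : (M : ℝ) ≤ 2 ^ (K + 1) := by exact_mod_cast hK2.le
    have h6 := Real.log_le_log hM0 h5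
    rw [Real.log_pow] at h6
    push_cast at h6
    have := Real.log_two_lt_d9
    have hK0 : (0 : ℝ) ≤ K := Nat.cast_nonneg _
    nlinarith
  have hJL : L / 4 ≤ J := by
    have h5 : K ≤ 2 * J + 1 := by omega
    have h6 : (K : ℝ) ≤ 2 * J + 1 := by exact_mod_cast h5
    linarith
  have hJk0 : k0 ≤ J := by
    have : (k0 : ℝ) ≤ J := by nlinarith
    exact_mod_cast this
  have hJ0 : (0 : ℝ) < J := by linarith
  -- the cover
  have hcov : (Icc 1 M).filter (fun N => ¬ P N) ⊆ range (2 ^ J) ∪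
      (Icc J K).biUnion (fun k => (Ico (2 ^ k) (2 ^ (k + 1))).filter (fun N => ¬ P N)) := by
    intro N hN
    rw [mem_filter, mem_Icc] at hN
    rw [mem_union, mem_range, mem_biUnion]
    rcases Nat.lt_or_ge N (2 ^ J) with h5 | h5
    · exact Or.inl h5
    · right
      refine ⟨Nat.log 2 N, mem_Icc.2 ⟨?_, ?_⟩, mem_filter.2 ⟨mem_Ico.2 ⟨?_, ?_⟩, hN.2⟩⟩
      · exact Nat.le_log_of_pow_le (by norm_num) h5
      · exact Nat.log_mono_right hN.1.2
      · exact Nat.pow_log_le_self 2 (by omega)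
      · exact Nat.lt_pow_succ_log_self (by norm_num) N
  have hcard : (((Icc 1 M).filter (fun N => ¬ P N)).card : ℝ) ≤ 2 ^ J + ∑ k ∈ Icc J K, (2 : ℝ) ^ k / (J : ℝ) ^ (U + 1) := by
    have h5 := (card_le_card hcov).trans (card_union_le _ _)
    rw [card_range] at h5
    have h6 : (((Icc 1 M).filter (fun N => ¬ P N)).card : ℝ) ≤ 2 ^ J +
        ∑ k ∈ Icc J K, (((Ico (2 ^ k) (2 ^ (k + 1))).filter (fun N => ¬ P N)).card : ℝ) := by
      exact_mod_cast h5.trans (Nat.add_le_add_left card_biUnion_le _)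
    refine h6.trans (add_le_add le_rfl (sum_le_sum fun k hk => ?_))
    rw [mem_Icc] at hk
    refine (h k (hJk0.trans hk.1)).trans ?_
    apply div_le_div_of_nonneg_left (by positivity) (by positivity)
    exact pow_le_pow_left₀ hJ0.le (by exact_mod_cast hk.1) _
  refine hcard.trans ?_
  have hgeo : ∑ k ∈ Icc J K, (2 : ℝ) ^ k ≤ 2 * M := by
    have h5 : ∑ k ∈ Icc J K, (2 : ℝ) ^ k ≤ ∑ k ∈ range (K + 1), (2 : ℝ) ^ k := by
      apply sum_le_sum_of_subset_of_nonneg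
      · intro k hk
        rw [mem_Icc] at hk
        rw [mem_range]
        omega
      · intro k _ _
        positivity
    rw [geom_sum_eq (by norm_num)] at h5
    have h6 : (2 : ℝ) ^ K ≤ M := by exact_mod_cast hK1
    have h7 : (2 : ℝ) ^ (K + 1) = 2 * 2 ^ K := by rw [pow_succ]; ring
    rw [h7] at h5
    linarith
  have hfirst : (2 : ℝ) ^ J ≤ M / L ^ U / 2 := by
    have h5 : ((2 : ℝ) ^ J) ^ 2 ≤ M := by
      rw [← pow_mul]
      calc (2 : ℝ) ^ (J * 2) ≤ 2 ^ K := pow_le_pow_right₀ (by norm_num) (by omega)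
        _ ≤ M := by exact_mod_cast hK1
    have h6 : (2 : ℝ) ^ J ≤ (M : ℝ) ^ (1 / 2 : ℝ) := by
      rw [← Real.sqrt_eq_rpow]
      exact Real.le_sqrt_of_sq_le h5
    have h7 : (M : ℝ) ^ (1 / 2 : ℝ) * (M : ℝ) ^ (1 / 2 : ℝ) = M := by
      rw [← Real.rpow_add hM0]; norm_num
    rw [div_div, le_div_iff₀ (by positivity)]
    calc (2 : ℝ) ^ J * (L ^ U * 2) ≤ (M : ℝ) ^ (1 / 2 : ℝ) * (M : ℝ) ^ (1 / 2 : ℝ) :=
          mul_le_mul h6 (by linarith) (by positivity) (by positivity)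
      _ = M := h7
  have hsecond : ∑ k ∈ Icc J K, (2 : ℝ) ^ k / (J : ℝ) ^ (U + 1) ≤ M / L ^ U / 2 := by
    rw [← sum_div]
    have h5 : (L / 4) ^ (U + 1) ≤ (J : ℝ) ^ (U + 1) := pow_le_pow_left₀ (by positivity) hJL _
    calc (∑ k ∈ Icc J K, (2 : ℝ) ^ k) / (J : ℝ) ^ (U + 1) ≤ 2 * M / (L / 4) ^ (U + 1) :=
          div_le_div₀ (by positivity) hgeo (by positivity) h5
      _ = (4 * 4 ^ (U + 1) / L) * (M / L ^ U / 2) := by
          rw [div_pow, pow_succ L U]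
          field_simp
          norm_num
      _ ≤ 1 * (M / L ^ U / 2) := by
          apply mul_le_mul_of_nonneg_right _ (by positivity)
          rw [div_le_one hL0]
          linarith
      _ = _ := one_mul _
  linarith

end Pool.Agent.K4H18.CH
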