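import Pool.Agent.K4H18.CH.H9

set_option autoImplicit false

/-! The arguments for almost all `N`: final form. -/

namespace Pool.Agent.K4H18.CH

open Finset Polynomial Filter
open Pool.Agent.Y843.HS (Pr VV Pr_mem Pr_prime VV_split)
open Pool.Agent.Y840.CT (Rough)
open Pool.Agent.H373R2.T7.SHN (X1)

/-- the primes `p` with `N - G(p)` prime, `p + h` with at most two prime factors, and the `F_i(p)` with at
most `t` prime factors, none of them small -/
def Args (t : ℕ) {g : ℕ} (F : Fin g → ℤ[X]) (G : ℤ[X]) (N : ℕ) (h : ℤ) : Set ℕ :=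
  {p : ℕ | p.Prime ∧ ((N : ℤ) - G.eval (p : ℤ)).toNat.Prime ∧ Rough 2 ((X1 G N : ℝ) ^ (1 / 9 : ℝ)) (p + h) ∧
    ∀ i, Rough t ((X1 G N : ℝ) ^ (1 / (t : ℝ))) ((F i).eval (p : ℤ))}

lemma list_pow_le (l : List ℕ) (y : ℕ) (h : ∀ q ∈ l, y ≤ q) : y ^ l.length ≤ l.prod := by
  induction l with
  | nil => simp
  | cons a l ih =>
    rw [List.length_cons, List.prod_cons, pow_succ, mul_comm]
    exact Nat.mul_le_mul (h a List.mem_cons_self) (ih fun q hq => h q (List.mem_cons_of_mem _ hq))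

lemma rough_of {g : ℕ} (F : Fin g → ℤ[X]) (D t : ℕ) (ht : 1 ≤ t) (hD : ∑ i, (F i).natDegree ≤ D) :
    ∃ x0 : ℕ, ∀ x : ℕ, x0 ≤ x → ∀ X : ℕ, X ≤ x → ∀ (h : ℤ) (n : ℕ), n ≤ x → Arg t x F h n → ∀ i,
      Rough (t * (D + 1)) ((X : ℝ) ^ (1 / ((t * (D + 1) : ℕ) : ℝ))) ((F i).eval (n : ℤ)) := by
  classical
  choose C hC using fun i => eval_bound (F i)
  refine ⟨max (∑ i, C i) (2 ^ t), fun x hx X hX h n hn ha i => ?_⟩
  have hx2 : 2 ^ t ≤ x := (le_max_right _ _).trans hx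
  have hx1 : 1 ≤ x := Nat.one_le_two_pow.trans hx2
  have hxr1 : (1 : ℝ) ≤ x := by exact_mod_cast hx1
  have ht0 : (0 : ℝ) < t := by exact_mod_cast ht
  have hCx : C i ≤ x := (single_le_sum (f := C) (fun j _ => Nat.zero_le _) (mem_univ i)).trans ((le_max_left _ _).trans hx)
  have h2t : (2 : ℝ) ≤ (x : ℝ) ^ (1 / (t : ℝ)) := by
    have h1 : ((2 : ℝ) ^ t) ≤ x := by exact_mod_cast hx2
    have h2 := Real.rpow_le_rpow (by positivity) h1 (show 0 ≤ 1 / (t : ℝ) by positivity)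
    rwa [← Real.rpow_natCast, ← Real.rpow_mul (by norm_num), mul_one_div_cancel ht0.ne', Real.rpow_one] at h2
  obtain ⟨-, -, hfree⟩ := ha
  have hfi : ∀ q : ℕ, q.Prime → (q : ℤ) ∣ (F i).eval (n : ℤ) → (x : ℝ) ^ (1 / (t : ℝ)) < q := by
    intro q hq hd
    by_contra hcon
    push Not at hcon
    exact hfree q hq hcon (hd.trans (dvd_prod_of_mem (fun i => (F i).eval (n : ℤ)) (mem_univ i)))
  have hne : (F i).eval (n : ℤ) ≠ 0 := by
    intro h0
    have := hfi 2 Nat.prime_two (by rw [h0]; exact dvd_zero _)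
    push_cast at this
    linarith
  have hexp : (X : ℝ) ^ (1 / ((t * (D + 1) : ℕ) : ℝ)) ≤ (x : ℝ) ^ (1 / (t : ℝ)) := by
    calc (X : ℝ) ^ (1 / ((t * (D + 1) : ℕ) : ℝ)) ≤ (x : ℝ) ^ (1 / ((t * (D + 1) : ℕ) : ℝ)) := by
          apply Real.rpow_le_rpow (by positivity) (by exact_mod_cast hX) (by positivity)
      _ ≤ (x : ℝ) ^ (1 / (t : ℝ)) := by
          apply Real.rpow_le_rpow_of_exponent_le hxr1
          apply one_div_le_one_div_of_le ht0
          have : t ≤ t * (D + 1) := Nat.le_mul_of_pos_right _ (by omega)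
          exact_mod_cast this
  refine ⟨hne, ?_, ?_⟩
  · -- the number of prime factors
    set m := ((F i).eval (n : ℤ)).natAbs with hm
    have hm0 : m ≠ 0 := Int.natAbs_ne_zero.2 hne
    set y := ⌊(x : ℝ) ^ (1 / (t : ℝ))⌋₊ + 1 with hy
    have hy1 : (x : ℝ) ^ (1 / (t : ℝ)) < y := by
      rw [hy]
      push_cast
      exact Nat.lt_floor_add_one _
    have hyq : ∀ q ∈ m.primeFactorsList, y ≤ q := by
      intro q hq
      have hqp := Nat.prime_of_mem_primeFactorsList hq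
      have hqd := Nat.dvd_of_mem_primeFactorsList hq
      have h1 := hfi q hqp (Int.natCast_dvd.2 hqd)
      rw [hy]
      have : ⌊(x : ℝ) ^ (1 / (t : ℝ))⌋₊ < q := (Nat.floor_lt (by positivity)).2 h1
      omega
    have h1 := list_pow_le _ y hyq
    rw [Nat.prod_primeFactorsList hm0] at h1
    have h2 : m ≤ x ^ (D + 1) := by
      have h3 := hC i x hx1 n hn
      have h4 : (m : ℤ) ≤ (x : ℤ) ^ (D + 1) := by
        rw [hm, Int.natCast_natAbs]
        refine h3.trans ?_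
        have h5 : (C i : ℤ) ≤ x := by exact_mod_cast hCx
        calc (C i : ℤ) * (x : ℤ) ^ (F i).natDegree ≤ (x : ℤ) * (x : ℤ) ^ (F i).natDegree := by gcongr
          _ = (x : ℤ) ^ ((F i).natDegree + 1) := by rw [pow_succ']
          _ ≤ (x : ℤ) ^ (D + 1) := by
              apply pow_le_pow_right₀ (by exact_mod_cast hx1)
              have := (single_le_sum (f := fun j => (F j).natDegree) (fun j _ => Nat.zero_le _) (mem_univ i)).trans hD
              omega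
      exact_mod_cast h4
    have h3 : x ≤ y ^ t := by
      have h4 : (x : ℝ) ≤ (y : ℝ) ^ t := by
        have h5 := pow_le_pow_left₀ (by positivity) hy1.le t
        rwa [← Real.rpow_natCast ((x : ℝ) ^ (1 / (t : ℝ))), ← Real.rpow_mul (by positivity),
          one_div_mul_cancel ht0.ne', Real.rpow_one] at h5
      exact_mod_cast h4
    by_contra hcon
    push Not at hcon
    have hy2 : 2 ≤ y := by
      have : (2 : ℝ) < y := lt_of_le_of_lt h2t hy1
      exact_mod_cast this.le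
    have h4 : y ^ (t * (D + 1)) < y ^ m.primeFactorsList.length := Nat.pow_lt_pow_right hy2 hcon
    have h5 : x ^ (D + 1) ≤ y ^ (t * (D + 1)) := by
      rw [pow_mul]
      exact Nat.pow_le_pow_left h3 _
    omega
  · intro q hq hd
    exact lt_of_le_of_lt hexp (hfi q hq hd)

lemma rough_two {x X : ℕ} (hX : X ≤ x) {h : ℤ} {n : ℕ} (H : Rough 2 ((x : ℝ) ^ (1 / 9 : ℝ)) (-h - n)) :
    Rough 2 ((X : ℝ) ^ (1 / 9 : ℝ)) (n + h) := by
  obtain ⟨h1, h2, h3⟩ := H
  have e : (n : ℤ) + h = -(-h - n) := by ring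
  refine ⟨?_, ?_, ?_⟩
  · rw [e]
    exact neg_ne_zero.2 h1
  · rw [e, Int.natAbs_neg]
    exact h2
  · intro q hq hd
    rw [e, dvd_neg] at hd
    refine lt_of_le_of_lt ?_ (h3 q hq hd)
    exact Real.rpow_le_rpow (by positivity) (by exact_mod_cast hX) (by norm_num)

open Classical in
theorem almost (D : ℕ) : ∃ t : ℕ, 1 ≤ t ∧ ∃ c : ℝ, 0 < c ∧ ∀ (g : ℕ) (F : Fin g → ℤ[X]) (G : ℤ[X]),
    1 ≤ G.natDegree → 0 < G.leadingCoeff → (∑ i, (F i).natDegree) + G.natDegree ≤ D →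
    ∀ A U : ℕ, ∃ M0 : ℕ, ∀ M : ℕ, M0 ≤ M →
    (((Icc 1 M).filter (fun N : ℕ => ¬ (∀ h : ℤ, h ≠ 0 → (|h| : ℝ) ≤ Real.log N ^ A → NoFix F G N h →
      c * (X1 G N : ℝ) * VV (ZF F G N h) 0 (X1 G N) ≤ ((Args t F G N h).ncard : ℝ)))).card : ℝ)
      ≤ M / Real.log M ^ U := by
  obtain ⟨t, ht, c, hc, hcombo⟩ := combo D
  refine ⟨t * (D + 1), Nat.mul_pos ht (by omega), c, hc, ?_⟩
  intro g F G hG hGl hD A U
  obtain ⟨B, κ, k1, hB, hκ, hκ1, hblock⟩ := block_x G hG hGl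
  obtain ⟨x1, h1⟩ := hcombo g F G hG hGl hD (A + 1) B (U + 2) κ hB hκ
  obtain ⟨x2, h2⟩ := rough_of F D t ht (by omega)
  apply blocks
  set d := G.natDegree with hd
  refine ⟨max (max k1 (2 * d * (x1 + x2 + 2))) (max (2 * (2 * d) ^ (U + 2)) ((2 * d) ^ (A + 1) + 3)), fun k hk => ?_⟩
  obtain ⟨x, b1, b2, b3, b4, b5, b6⟩ := hblock k (by omega)
  have hd0 : 0 < d := hG
  have hdr : (1 : ℝ) ≤ d := by exact_mod_cast hG
  have hk0 : (3 : ℝ) ≤ k := by exact_mod_cast (by omega : 3 ≤ k)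
  set L := Real.log x with hL
  have hkL : (k : ℝ) / (2 * d) ≤ L := by
    rw [div_le_iff₀ (by positivity)]
    linarith
  have hL0 : 0 < L := lt_of_lt_of_le (by positivity) hkL
  have hx1 : (1 : ℝ) < x := by
    by_contra hcon
    push Not at hcon
    have := Real.log_nonpos (Nat.cast_nonneg x) hcon
    linarith
  have hxL : L ≤ x := (Real.log_le_sub_one_of_pos (by linarith)).trans (by linarith)
  have hxx : x1 + x2 + 2 ≤ x := by
    have e1 : 2 * d * (x1 + x2 + 2) ≤ k := by omega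
    have e2 : ((2 * d * (x1 + x2 + 2) : ℕ) : ℝ) ≤ k := by exact_mod_cast e1
    push_cast at e2
    have e3 : ((x1 : ℝ) + x2 + 2) ≤ (k : ℝ) / (2 * d) := by
      rw [le_div_iff₀ (by positivity)]
      linarith
    have e4 : ((x1 + x2 + 2 : ℕ) : ℝ) ≤ x := by
      push_cast
      linarith
    exact_mod_cast e4
  have g1 := h1 x (by omega) (2 ^ (k + 1)) b1 b2 b3
  have hlogN : ∀ N : ℕ, N ∈ Ico (2 ^ k) (2 ^ (k + 1)) → Real.log N ^ A ≤ L ^ (A + 1) := by
    intro N hN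
    rw [mem_Ico] at hN
    have hN0 : (0 : ℝ) < N := by
      have : 0 < N := lt_of_lt_of_le (by positivity) hN.1
      exact_mod_cast this
    have e1 : Real.log N ≤ 2 * d * L := by
      have e2 : (N : ℝ) ≤ 2 ^ (k + 1) := by exact_mod_cast hN.2.le
      have e3 := Real.log_le_log hN0 e2
      rw [Real.log_pow] at e3
      push_cast at e3
      have := Real.log_two_lt_d9
      have e4 : ((k : ℝ) + 1) * Real.log 2 ≤ k := by nlinarith
      linarith
    have e5 : 0 ≤ Real.log N := Real.log_natCast_nonneg N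
    have e6 : (2 * (d : ℝ)) ^ A ≤ L := by
      have e7 : (((2 * d) ^ (A + 1) : ℕ) : ℝ) ≤ k := by exact_mod_cast (by omega : (2 * d) ^ (A + 1) ≤ k)
      push_cast at e7
      rw [pow_succ] at e7
      refine le_trans ?_ hkL
      rw [le_div_iff₀ (by positivity)]
      exact e7
    calc Real.log N ^ A ≤ (2 * d * L) ^ A := pow_le_pow_left₀ e5 e1 _
      _ = (2 * d) ^ A * L ^ A := by rw [mul_pow]
      _ ≤ L * L ^ A := by gcongr
      _ = _ := by rw [pow_succ']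
  have hsub : (Ico (2 ^ k) (2 ^ (k + 1))).filter (fun N : ℕ => ¬ (∀ h : ℤ, h ≠ 0 → (|h| : ℝ) ≤ Real.log N ^ A → NoFix F G N h →
      c * (X1 G N : ℝ) * VV (ZF F G N h) 0 (X1 G N) ≤ ((Args (t * (D + 1)) F G N h).ncard : ℝ))) ⊆
      (Icc 1 (2 ^ (k + 1))).filter (fun N => ¬ (κ * x ≤ (X1 G N : ℝ) → ∀ h : ℤ, h ≠ 0 → (|h| : ℝ) ≤ Real.log x ^ (A + 1) →
      NoFix F G N h → X1 G N ≤ x ∧ c * (X1 G N : ℝ) * VV (ZF F G N h) 0 (X1 G N) ≤
      (((Icc 1 x).filter (fun n => Arg t x F h n ∧ ((N : ℤ) - G.eval (n : ℤ)).toNat.Prime)).card : ℝ))) := by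
    intro N hN
    rw [mem_filter] at hN ⊢
    obtain ⟨hNk, hcon⟩ := hN
    have hNk' := mem_Ico.1 hNk
    have hN1 : 1 ≤ N := le_trans (Nat.one_le_two_pow) hNk'.1
    refine ⟨mem_Icc.2 ⟨hN1, hNk'.2.le⟩, fun hgood => hcon ?_⟩
    intro h hh0 hhA hfix
    obtain ⟨hXx, hlow⟩ := hgood (b4 N hNk'.1) h hh0 (hhA.trans (hlogN N hNk)) hfix
    refine hlow.trans ?_
    have hfin : (Args (t * (D + 1)) F G N h).Finite := by
      apply Set.Finite.subset (Finset.finite_toSet (Icc 1 x))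
      rintro p ⟨hp, hq, -, -⟩
      rw [mem_coe, mem_Icc]
      refine ⟨hp.one_lt.le, ?_⟩
      by_contra hc
      push Not at hc
      have b7 := b3 p hc
      have b8 : (N : ℤ) ≤ ((2 ^ (k + 1) : ℕ) : ℤ) := by exact_mod_cast hNk'.2.le
      rw [Int.toNat_of_nonpos (by omega)] at hq
      exact Nat.not_prime_zero hq
    have hset : (((Icc 1 x).filter (fun n => Arg t x F h n ∧ ((N : ℤ) - G.eval (n : ℤ)).toNat.Prime) : Finset ℕ) : Set ℕ) ⊆
        Args (t * (D + 1)) F G N h := by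
      intro n hn
      rw [mem_coe, mem_filter, mem_Icc] at hn
      obtain ⟨⟨-, hnx⟩, ha, hpr⟩ := hn
      exact ⟨ha.1, hpr, rough_two hXx ha.2.1, h2 x (by omega) (X1 G N) hXx h n hnx ha⟩
    have := Set.ncard_le_ncard hset hfin
    rw [Set.ncard_coe_finset] at this
    exact_mod_cast this
  refine (Nat.cast_le.2 (card_le_card hsub)).trans (g1.trans ?_)
  -- the numbers
  push_cast
  have e1 : (2 * (2 * (d : ℝ)) ^ (U + 2)) ≤ k := by
    have : ((2 * (2 * d) ^ (U + 2) : ℕ) : ℝ) ≤ k := by exact_mod_cast (by omega : 2 * (2 * d) ^ (U + 2) ≤ k)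
    push_cast at this
    exact this
  have hkpos : (0 : ℝ) < k := by linarith
  calc (2 : ℝ) ^ (k + 1) / L ^ (U + 2) ≤ (2 : ℝ) ^ (k + 1) / ((k : ℝ) / (2 * d)) ^ (U + 2) := by gcongr
    _ = (2 * (2 * (d : ℝ)) ^ (U + 2)) * (2 ^ k / (k : ℝ) ^ (U + 1)) / k := by
        rw [div_pow, pow_succ (k : ℝ) (U + 1), pow_succ (2 : ℝ) k]
        field_simp
    _ ≤ k * (2 ^ k / (k : ℝ) ^ (U + 1)) / k := by gcongr
    _ = _ := by field_simp

end Pool.Agent.K4H18.CH
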