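import Pool.Agent.K4H18.CH.H10

set_option autoImplicit false

/-! The case `h = 0`: primes `p` with `N - G(p)` prime and `F_i(p)` without small prime factors. -/

namespace Pool.Agent.K4H18.CH

open Finset Polynomial Filter
open Pool.Agent.Y843.HS (Pr VV Pr_mem Pr_prime VV_split)
open Pool.Agent.Y843.HG (V1 V1_bounds)
open Pool.Agent.Y840.CT (rho VF prod_one_sub_ge)
open Pool.Agent.H373R2.T7 (Vz Vz_pos Vz_le_one pz mem_pz markov)
open Pool.Agent.H373R2.T7.SHN (X1 XCount)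
open Pool.Agent.H373R2.T7.PArg (eF)

variable {g : ℕ}

lemma eF_prod (F : Fin g → ℤ[X]) (n : ℤ) : ∏ i, (eF F i).eval n = n * ∏ i, (F i).eval n := by
  rw [Fin.prod_univ_succ]
  unfold eF
  simp

lemma dvd_sq {q : ℕ} (hq : q.Prime) (r A : ℤ) : (q : ℤ) ∣ r * (r + 0) * A ↔ (q : ℤ) ∣ r * A := by
  have hqp : Prime (q : ℤ) := Nat.prime_iff_prime_int.1 hq
  rw [add_zero, hqp.dvd_mul, hqp.dvd_mul, hqp.dvd_mul]
  tauto

lemma noFix_zero (F : Fin g → ℤ[X]) (G : ℤ[X]) (N : ℕ) (h : NoFix F G N 0) :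
    Pool.Agent.H373R2.T7.TB.NoFixed (eF F) G N := by
  intro q hq
  obtain ⟨n, hn⟩ := h q hq
  refine ⟨n, fun hd => hn ?_⟩
  rw [eF_prod] at hd
  have hqp : Prime (q : ℤ) := Nat.prime_iff_prime_int.1 hq
  rcases hqp.dvd_or_dvd hd with h1 | h1
  · exact dvd_mul_of_dvd_left ((dvd_sq hq n _).2 h1) _
  · exact dvd_mul_of_dvd_right h1 _

lemma Zz_zero_small (F : Fin g → ℤ[X]) (G : ℤ[X]) (N z q : ℕ) (hq : q.Prime) (hqz : q ≤ z) :
    (Zz F G N 0 z q).card = Pool.Agent.H373R2.T7.TB.omegaN (eF F) G N q := by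
  rw [Zz_small F G N 0 hq hqz]
  unfold ZF Pool.Agent.H373R2.T7.TB.omegaN
  congr 1
  apply filter_congr
  intro r _
  have hqp : Prime (q : ℤ) := Nat.prime_iff_prime_int.1 hq
  rw [eF_prod, hqp.dvd_mul (a := (r : ℤ) * (r + 0) * ∏ i, (F i).eval (r : ℤ)), dvd_sq hq,
    hqp.dvd_mul (a := (r : ℤ) * ∏ i, (F i).eval (r : ℤ))]

lemma Zz_zero_large (F : Fin g → ℤ[X]) (G : ℤ[X]) (N z q : ℕ) (hq : q.Prime) (hqz : z < q) :
    (Zz F G N 0 z q).card = Pool.Agent.H373R2.T7.TB.omegaF (eF F) q := by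
  rw [Zz_large F G N 0 hqz]
  unfold aa Pool.Agent.H373R2.T7.TB.omegaF
  congr 1
  apply filter_congr
  intro r _
  rw [eF_prod, dvd_sq hq]

/-- `n` is a prime and `F(n)` is free of the primes `≤ x ^ (1/t)` -/
def Arg0 (t x : ℕ) (F : Fin g → ℤ[X]) (n : ℕ) : Prop :=
  n.Prime ∧ ∀ q : ℕ, q.Prime → (q : ℝ) ≤ (x : ℝ) ^ (1 / (t : ℝ)) → ¬ (q : ℤ) ∣ ∏ i, (F i).eval (n : ℤ)

open Classical in
theorem core0 (D : ℕ) : ∃ t : ℕ, 1 ≤ t ∧ ∃ c : ℝ, 0 < c ∧ ∀ (g : ℕ) (F : Fin g → ℤ[X]) (G : ℤ[X]),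
    (∀ i, 1 ≤ (F i).natDegree) → (∀ i, 0 < (F i).leadingCoeff) →
    1 ≤ G.natDegree → 0 < G.leadingCoeff → (∑ i, (F i).natDegree) + G.natDegree ≤ D →
    ∀ (B U : ℕ) (κ : ℝ), 1 ≤ B → 0 < κ → ∃ B0 : ℕ, ∀ E : ℕ, ∃ x0 : ℕ, ∀ x : ℕ, x0 ≤ x →
    ∀ M : ℕ, M ≤ B * x ^ G.natDegree → x ^ G.natDegree ≤ B * M → (∀ n : ℕ, x < n → (M : ℤ) ≤ G.eval (n : ℤ)) →
    ∀ z : ℕ, Real.log x ^ B0 ≤ z → (z : ℝ) ≤ Real.log x ^ E →
    (((Icc 1 M).filter (fun N => ¬ (κ * x ≤ (X1 G N : ℝ) → NoFix F G N 0 →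
      c * ((X1 G N : ℝ) / Real.log x) * (Vz z)⁻¹ * VF (Cl F G N 0 z) x ≤
      (((Icc 1 x).filter (fun n => Arg0 t x F n ∧ ((N : ℤ) - G.eval (n : ℤ)).toNat.Prime)).card : ℝ)))).card : ℝ)
      ≤ M / Real.log x ^ U := by
  obtain ⟨K, hK1, hpb⟩ := Pool.Agent.H373R2.T7.PB.pb_main D (1 / 2) (by norm_num)
  obtain ⟨cV, CV, hcV, hCV, hV⟩ := V1_bounds
  have hKr : (1 : ℝ) ≤ K := by exact_mod_cast hK1
  refine ⟨K, hK1, 1 / (4 * K * CV * (D + 1)), by positivity, ?_⟩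
  intro g F G hF hFl hG hGl hD B U κ hB hκ
  obtain ⟨B0, hB0⟩ := hpb g F hF hFl G hG hGl hD B U κ hB hκ
  refine ⟨B0, fun E => ?_⟩
  obtain ⟨x1, h1⟩ := hB0 E
  obtain ⟨x3, h3⟩ := ev_rpow E (1 / (K : ℝ)) (by positivity)
  obtain ⟨x5, h5⟩ := ev_lg (2 * K + 3)
  obtain ⟨CG, hCG⟩ := eval_bound G
  refine ⟨max (max x1 x3) (max (max x5 (CG + B + 2)) (4 ^ K)), ?_⟩
  intro x hx M hM1 hM2 hMn z hz1 hz2
  have a3 := h3 x (by omega)
  have a5 := h5 x (by omega)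
  have a6 : CG + B + 2 ≤ x := by omega
  have a7 : 4 ^ K ≤ x := by omega
  set L := Real.log x with hL
  have hL0 : 0 < L := by linarith
  have hx0 : (0 : ℝ) < x := by exact_mod_cast (by omega : 0 < x)
  set y := ⌊(x : ℝ) ^ (1 / (K : ℝ))⌋₊ with hy
  have hyle : (y : ℝ) ≤ (x : ℝ) ^ (1 / (K : ℝ)) := Nat.floor_le (by positivity)
  have hzy : z ≤ y := Nat.le_floor (hz2.trans a3)
  have hyK : y ^ K ≤ x := by
    have e1 : (y : ℝ) ^ K ≤ x := by
      calc (y : ℝ) ^ K ≤ ((x : ℝ) ^ (1 / (K : ℝ))) ^ K := pow_le_pow_left₀ (by positivity) hyle K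
        _ = x := by
            rw [← Real.rpow_natCast, ← Real.rpow_mul hx0.le, one_div_mul_cancel (by positivity), Real.rpow_one]
    exact_mod_cast e1
  have h4K : (4 : ℝ) ≤ (x : ℝ) ^ (1 / (K : ℝ)) := by
    have e1 : ((4 : ℝ) ^ K) ≤ x := by exact_mod_cast a7
    have e2 := Real.rpow_le_rpow (by positivity) e1 (show 0 ≤ 1 / (K : ℝ) by positivity)
    rwa [← Real.rpow_natCast, ← Real.rpow_mul (by norm_num), mul_one_div_cancel (by positivity), Real.rpow_one] at e2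
  have hyge : (x : ℝ) ^ (1 / (2 * K : ℝ)) ≤ y := by
    have e1 : (x : ℝ) ^ (1 / (K : ℝ)) = (x : ℝ) ^ (1 / (2 * K : ℝ)) * (x : ℝ) ^ (1 / (2 * K : ℝ)) := by
      rw [← Real.rpow_add hx0]
      congr 1
      field_simp
      norm_num
    have e2 := Nat.lt_floor_add_one ((x : ℝ) ^ (1 / (K : ℝ)))
    rw [← hy] at e2
    have e3 : 0 < (x : ℝ) ^ (1 / (2 * K : ℝ)) := by positivity
    have e4 : 2 ≤ (x : ℝ) ^ (1 / (2 * K : ℝ)) := by
      by_contra hcon
      push Not at hcon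
      nlinarith
    nlinarith
  have hy2 : 2 ≤ y := by
    have : (2 : ℝ) ≤ y := by
      have e2 := Nat.lt_floor_add_one ((x : ℝ) ^ (1 / (K : ℝ)))
      rw [← hy] at e2
      linarith
    exact_mod_cast this
  have hlogy : L / (2 * K) ≤ Real.log y := by
    have e1 := Real.log_le_log (by positivity) hyge
    rw [Real.log_rpow hx0] at e1
    refine le_trans (le_of_eq ?_) e1
    rw [← hL]
    field_simp
  have hyx : y ≤ x := by
    calc y ≤ y ^ K := Nat.le_self_pow (by omega) y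
      _ ≤ x := hyK
  have g1 := h1 x (by omega) M hM1 hM2 z y hz1 hz2 hzy hyK
  refine le_trans ?_ g1
  apply Nat.cast_le.2
  apply card_le_card
  intro N hN
  rw [mem_filter] at hN ⊢
  refine ⟨hN.1, fun hgood => hN.2 ?_⟩
  intro hX1 hfix
  have hNM := mem_Icc.1 hN.1
  have hnx : ∀ n : ℕ, 0 < (N : ℤ) - G.eval (n : ℤ) → n ≤ x := by
    intro n hn
    by_contra hc
    push Not at hc
    have b4 := hMn n hc
    have b5 : (N : ℤ) ≤ M := by exact_mod_cast hNM.2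
    omega
  have hXC : XCount G N x = X1 G N := by
    unfold XCount X1
    rw [← Set.ncard_coe_finset]
    congr 1
    ext n
    rw [mem_coe, mem_filter, mem_Icc, Set.mem_setOf_eq]
    constructor
    · rintro ⟨⟨e1, e2⟩, e3⟩
      exact ⟨e1, e3⟩
    · rintro ⟨e1, e3⟩
      exact ⟨⟨e1, hnx n e3⟩, e3⟩
  have hW := hgood (noFix_zero F G N hfix) (by rw [hXC]; exact hX1)
  have hWlow : (1 / 2) * Pool.Agent.H373R2.T7.PB.TP F G N z y x ≤ Pool.Agent.H373R2.T7.PB.WP F G N y x := by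
    have := (abs_le.1 hW).1
    linarith
  have hVz := Vz_pos z
  have hVy := Vz_pos y
  have hVVnn : ∀ a b, 0 ≤ VV (Zz F G N 0 z) a b := VV_nonneg' (Zz_card_le F G N 0 z)
  -- the main term
  have hTP : (X1 G N : ℝ) * (L / (2 * K * CV)) * (Vz z)⁻¹ * VF (Cl F G N 0 z) x ≤
      Pool.Agent.H373R2.T7.PB.TP F G N z y x := by
    unfold Pool.Agent.H373R2.T7.PB.TP
    rw [hXC]
    have e1 : (∏ p ∈ (Icc 1 z).filter Nat.Prime, (1 - (Pool.Agent.H373R2.T7.TB.omegaN (eF F) G N p : ℝ) / p) / (1 - 1 / (p : ℝ))) =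
        VV (Zz F G N 0 z) 0 z * (Vz z)⁻¹ := by
      rw [prod_div_distrib, div_eq_mul_inv]
      congr 1
      unfold VV
      have : (Icc 1 z).filter Nat.Prime = Pr 0 z := by
        ext q
        rw [Pr_mem, mem_filter, mem_Icc]
        constructor
        · rintro ⟨⟨a, b⟩, c⟩
          exact ⟨⟨c.pos, b⟩, c⟩
        · rintro ⟨⟨a, b⟩, c⟩
          exact ⟨⟨c.pos, b⟩, c⟩
      rw [this]
      apply prod_congr rfl
      intro q hq
      rw [Zz_zero_small F G N z q (Pr_prime hq) (Pr_mem.1 hq).1.2]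
    have e2 : ∏ p ∈ (Ioc z y).filter Nat.Prime, (1 - (Pool.Agent.H373R2.T7.TB.omegaF (eF F) p : ℝ) / p) =
        VV (Zz F G N 0 z) z y := by
      unfold VV
      apply prod_congr
      · ext q
        rw [Pr_mem, mem_filter, mem_Ioc]
      · intro q hq
        rw [Zz_zero_large F G N z q (Pr_prime hq) (Pr_mem.1 hq).1.1]
    have e3 : (∏ p ∈ (Icc 1 y).filter Nat.Prime, (1 - 1 / (p : ℝ))) = Vz y := rfl
    rw [e1, e2, e3]
    have e4 : VV (Zz F G N 0 z) 0 z * (Vz z)⁻¹ * VV (Zz F G N 0 z) z y = (Vz z)⁻¹ * VV (Zz F G N 0 z) 0 y := by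
      rw [← VV_split (Zz F G N 0 z) (Nat.zero_le z) hzy]
      ring
    have e5 : VF (Cl F G N 0 z) x ≤ VV (Zz F G N 0 z) 0 y := by
      rw [VF_Zz, ← VV_split (Zz F G N 0 z) (Nat.zero_le y) hyx]
      apply mul_le_of_le_one_right (hVVnn _ _)
      unfold VV
      apply prod_le_one
      · intro q hq
        have hq0 : (0 : ℝ) < q := by exact_mod_cast (Pr_prime hq).pos
        rw [sub_nonneg, div_le_one hq0]
        exact_mod_cast Zz_card_le F G N 0 z q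
      · intro q _
        have : (0 : ℝ) ≤ ((Zz F G N 0 z q).card : ℝ) / q := by positivity
        linarith
    have e6 : L / (2 * K * CV) ≤ (Vz y)⁻¹ := by
      have f1 := (hV y hy2).2
      rw [V1_Vz] at f1
      have f2 : 0 < Real.log y := lt_of_lt_of_le (by positivity) hlogy
      rw [le_inv_comm₀ (by positivity) hVy]
      refine f1.trans ?_
      rw [inv_div, div_le_div_iff₀ f2 hL0]
      have f3 : L ≤ Real.log y * (2 * K) := by
        rw [div_le_iff₀ (by positivity)] at hlogy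
        exact hlogy
      nlinarith
    have e7 : 0 ≤ VF (Cl F G N 0 z) x := by
      rw [VF_Zz]
      exact hVVnn _ _
    calc (X1 G N : ℝ) * (L / (2 * K * CV)) * (Vz z)⁻¹ * VF (Cl F G N 0 z) x
        ≤ (X1 G N : ℝ) * (Vz y)⁻¹ * (Vz z)⁻¹ * VV (Zz F G N 0 z) 0 y := by gcongr
      _ = _ := by
          rw [mul_assoc, ← e4]
          ring
  have hWup : Pool.Agent.H373R2.T7.PB.WP F G N y x ≤
      (((Icc 1 x).filter (fun n => Arg0 K x F n ∧ ((N : ℤ) - G.eval (n : ℤ)).toNat.Prime)).card : ℝ) * ((D + 1) * L ^ 2) := by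
    unfold Pool.Agent.H373R2.T7.PB.WP
    have hsub : (Icc 1 x).filter (fun p : ℕ => p.Prime ∧ ((N : ℤ) - G.eval (p : ℤ)).toNat.Prime ∧ Pool.Agent.H373R2.T7.TB.Rough F y p) ⊆
        (Icc 1 x).filter (fun n => Arg0 K x F n ∧ ((N : ℤ) - G.eval (n : ℤ)).toNat.Prime) := by
      intro n hn
      rw [mem_filter] at hn ⊢
      obtain ⟨e1, e2, e3, e4⟩ := hn
      refine ⟨e1, ⟨e2, fun q hq hqx hd => ?_⟩, e3⟩
      have hqp : Prime (q : ℤ) := Nat.prime_iff_prime_int.1 hq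
      obtain ⟨i, -, hi⟩ := (hqp.dvd_finset_prod_iff _).1 hd
      exact e4 q hq (Nat.le_floor hqx) i hi
    have hterm : ∀ n ∈ (Icc 1 x).filter (fun p : ℕ => p.Prime ∧ ((N : ℤ) - G.eval (p : ℤ)).toNat.Prime ∧ Pool.Agent.H373R2.T7.TB.Rough F y p),
        Real.log n * Real.log (((N : ℤ) - G.eval (n : ℤ) : ℤ) : ℝ) ≤ (D + 1) * L ^ 2 := by
      intro n hn
      rw [mem_filter, mem_Icc] at hn
      obtain ⟨⟨e1, e2⟩, -, e3, -⟩ := hn
      have hpos : 0 < (N : ℤ) - G.eval (n : ℤ) := by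
        by_contra hneg
        push Not at hneg
        rw [Int.toNat_of_nonpos hneg] at e3
        exact Nat.not_prime_zero e3
      have e4 : (N : ℤ) - G.eval (n : ℤ) ≤ (x : ℤ) ^ (D + 1) := by
        have f1 := (abs_le.1 (hCG x (by omega) n e2)).1
        have f2 : (N : ℤ) ≤ B * (x : ℤ) ^ G.natDegree := by exact_mod_cast hNM.2.trans hM1
        have f3 : ((CG : ℤ) + B) * (x : ℤ) ^ G.natDegree ≤ (x : ℤ) * (x : ℤ) ^ G.natDegree := by
          apply mul_le_mul_of_nonneg_right _ (by positivity)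
          have : CG + B ≤ x := by omega
          exact_mod_cast this
        have f4 : (x : ℤ) * (x : ℤ) ^ G.natDegree ≤ (x : ℤ) ^ (D + 1) := by
          rw [← pow_succ']
          apply pow_le_pow_right₀
          · exact_mod_cast (by omega : 1 ≤ x)
          · omega
        linarith
      have e5 : Real.log n ≤ L := Real.log_le_log (by exact_mod_cast e1) (by exact_mod_cast e2)
      have e6 : Real.log (((N : ℤ) - G.eval (n : ℤ) : ℤ) : ℝ) ≤ (D + 1) * L := by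
        have f1 : (0 : ℝ) < (((N : ℤ) - G.eval (n : ℤ) : ℤ) : ℝ) := by exact_mod_cast hpos
        have f2 : (((N : ℤ) - G.eval (n : ℤ) : ℤ) : ℝ) ≤ (x : ℝ) ^ (D + 1) := by exact_mod_cast e4
        have f3 := Real.log_le_log f1 f2
        rw [Real.log_pow] at f3
        push_cast at f3 ⊢
        exact f3
      have e7 : 0 ≤ Real.log n := Real.log_natCast_nonneg n
      have e8 : 0 ≤ Real.log (((N : ℤ) - G.eval (n : ℤ) : ℤ) : ℝ) := by
        apply Real.log_nonneg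
        have : (1 : ℤ) ≤ (N : ℤ) - G.eval (n : ℤ) := hpos
        exact_mod_cast this
      calc Real.log n * Real.log (((N : ℤ) - G.eval (n : ℤ) : ℤ) : ℝ) ≤ L * ((D + 1) * L) :=
            mul_le_mul e5 e6 e8 hL0.le
        _ = (D + 1) * L ^ 2 := by ring
    refine (sum_le_card_nsmul _ _ _ hterm).trans ?_
    rw [nsmul_eq_mul]
    apply mul_le_mul_of_nonneg_right _ (by positivity)
    exact_mod_cast card_le_card hsub
  have hfin := (mul_le_mul_of_nonneg_left hTP (show (0 : ℝ) ≤ 1 / 2 by norm_num)).trans (hWlow.trans hWup)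
  have hDL : (0 : ℝ) < (D + 1) * L ^ 2 := by positivity
  rw [← div_le_iff₀ hDL] at hfin
  refine le_trans (le_of_eq ?_) hfin
  field_simp
  norm_num
  ring

end Pool.Agent.K4H18.CH
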