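import Pool.Agent.K4H18.CH.H11

set_option autoImplicit false

/-! The case `h = 0` with the full sieve product. -/

namespace Pool.Agent.K4H18.CH

open Finset Polynomial Filter
open Pool.Agent.Y843.HS (Pr VV Pr_mem Pr_prime VV_split)
open Pool.Agent.Y840.CT (rho VF prod_one_sub_ge)
open Pool.Agent.H373R2.T7 (Vz Vz_pos pz mem_pz markov)
open Pool.Agent.H373R2.T7.SHN (X1)

open Classical in
theorem combo0 (D : ℕ) : ∃ t : ℕ, 1 ≤ t ∧ ∃ c : ℝ, 0 < c ∧ ∀ (g : ℕ) (F : Fin g → ℤ[X]) (G : ℤ[X]),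
    (∀ i, 1 ≤ (F i).natDegree) → (∀ i, 0 < (F i).leadingCoeff) → 1 ≤ G.natDegree → 0 < G.leadingCoeff → (∑ i, (F i).natDegree) + G.natDegree ≤ D →
    ∀ (B U : ℕ) (κ : ℝ), 1 ≤ B → 0 < κ → ∃ x0 : ℕ, ∀ x : ℕ, x0 ≤ x →
    ∀ M : ℕ, M ≤ B * x ^ G.natDegree → x ^ G.natDegree ≤ B * M → (∀ n : ℕ, x < n → (M : ℤ) ≤ G.eval (n : ℤ)) →
    (((Icc 1 M).filter (fun N => ¬ (κ * x ≤ (X1 G N : ℝ) →
      NoFix F G N 0 → X1 G N ≤ x ∧ c * (X1 G N : ℝ) * VV (ZF F G N 0) 0 (X1 G N) ≤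
      (((Icc 1 x).filter (fun n => Arg0 t x F n ∧ ((N : ℤ) - G.eval (n : ℤ)).toNat.Prime)).card : ℝ)))).card : ℝ)
      ≤ M / Real.log x ^ U := by
  obtain ⟨t, ht, c, hc, hcore⟩ := core0 D
  obtain ⟨C, hC, havg⟩ := avgood D
  refine ⟨t, ht, c / (4 * C), by positivity, ?_⟩
  intro g F G hF hFl hG hGl hD B U κ hB hκ
  obtain ⟨B0, hB0⟩ := hcore g F G hF hFl hG hGl hD B (U + 1) κ hB hκ
  set B1 := max B0 (U + 1 + 0 + 3) with hB1
  obtain ⟨x1, h1⟩ := hB0 (B1 + 1)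
  obtain ⟨x2, h2⟩ := havg g F G hG hGl hD 0 B (U + 1) (B1 + 1) hB
  obtain ⟨x3, h3⟩ := few_primes (κ / (2 * (D + 2))) (by positivity)
  obtain ⟨x4, h4⟩ := ev_nat 0 (κ⁻¹) (3 / 4) (by norm_num)
  obtain ⟨x5, h5⟩ := ev_nat 0 (κ⁻¹) (1 / 2) (by norm_num)
  obtain ⟨x6, h6⟩ := ev_lg 3
  refine ⟨max (max (max x1 x2) (max x3 x4)) (max x5 (max x6 2)), ?_⟩
  intro x hx M hM1 hM2 hMn
  have a3 := h3 x (by omega)
  have a4 := h4 x (by omega)
  have a5 := h5 x (by omega)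
  have a6 := h6 x (by omega)
  set L := Real.log x with hL
  have hL0 : 0 < L := by linarith
  have hL1 : 1 ≤ L := by linarith
  have hxpos : 0 < x := by omega
  have hx0 : (0 : ℝ) < x := by exact_mod_cast hxpos
  rw [pow_zero, mul_one] at a4 a5
  set z := ⌈L ^ B1⌉₊ with hz
  have hzlow : L ^ B1 ≤ z := Nat.le_ceil _
  have hzup : (z : ℝ) ≤ L ^ (B1 + 1) := by
    have e1 := Nat.ceil_lt_add_one (show 0 ≤ L ^ B1 by positivity)
    have e2 : 1 ≤ L ^ B1 := one_le_pow₀ hL1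
    rw [pow_succ]
    nlinarith
  have hz1 : L ^ B0 ≤ z := (pow_le_pow_right₀ hL1 (le_max_left _ _)).trans hzlow
  have hz2 : L ^ (U + 1 + 0 + 3) ≤ z := (pow_le_pow_right₀ hL1 (le_max_right _ _)).trans hzlow
  have a1 := h1 x (by omega) M hM1 hM2 hMn z hz1 hzup
  have a2 := h2 x (by omega) M hM1 hM2 z hz2 hzup
  have hsub : (Icc 1 M).filter (fun N => ¬ (κ * x ≤ (X1 G N : ℝ) →
      NoFix F G N 0 → X1 G N ≤ x ∧ c / (4 * C) * (X1 G N : ℝ) * VV (ZF F G N 0) 0 (X1 G N) ≤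
      (((Icc 1 x).filter (fun n => Arg0 t x F n ∧ ((N : ℤ) - G.eval (n : ℤ)).toNat.Prime)).card : ℝ))) ⊆
      (Icc 1 M).filter (fun N => ¬ (κ * x ≤ (X1 G N : ℝ) →
      NoFix F G N 0 → c * ((X1 G N : ℝ) / Real.log x) * (Vz z)⁻¹ * VF (Cl F G N 0 z) x ≤
      (((Icc 1 x).filter (fun n => Arg0 t x F n ∧ ((N : ℤ) - G.eval (n : ℤ)).toNat.Prime)).card : ℝ))) ∪
      (Icc 1 M).filter (fun N => ¬ (∀ h : ℤ, (|h| : ℝ) ≤ Real.log x ^ 0 → NoFix F G N h →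
      ∀ X : ℕ, X ≤ x → (x : ℝ) ^ (1 / 4 : ℝ) ≤ X → z ≤ X ∧
        VV (ZF F G N h) 0 X ≤ C * ((Real.log X)⁻¹ * (Vz z)⁻¹ * VF (Cl F G N h z) X))) := by
    intro N hN
    rw [mem_filter] at hN
    obtain ⟨hNM, hcon⟩ := hN
    rw [mem_union]
    by_contra hno
    rw [not_or] at hno
    obtain ⟨n1, n2⟩ := hno
    have g1 : κ * x ≤ (X1 G N : ℝ) →
      NoFix F G N 0 → c * ((X1 G N : ℝ) / Real.log x) * (Vz z)⁻¹ * VF (Cl F G N 0 z) x ≤
      (((Icc 1 x).filter (fun n => Arg0 t x F n ∧ ((N : ℤ) - G.eval (n : ℤ)).toNat.Prime)).card : ℝ) := by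
      by_contra hh
      exact n1 (mem_filter.2 ⟨hNM, hh⟩)
    have g2 : ∀ h : ℤ, (|h| : ℝ) ≤ Real.log x ^ 0 → NoFix F G N h →
      ∀ X : ℕ, X ≤ x → (x : ℝ) ^ (1 / 4 : ℝ) ≤ X → z ≤ X ∧
        VV (ZF F G N h) 0 X ≤ C * ((Real.log X)⁻¹ * (Vz z)⁻¹ * VF (Cl F G N h z) X) := by
      by_contra hh
      exact n2 (mem_filter.2 ⟨hNM, hh⟩)
    apply hcon
    intro hX1 hfix
    rw [mem_Icc] at hNM
    -- `X1 ≤ x`
    have hXx : X1 G N ≤ x := by
      have hsub : {n : ℕ | 1 ≤ n ∧ 0 < (N : ℤ) - G.eval (n : ℤ)} ⊆ ((Icc 1 x : Finset ℕ) : Set ℕ) := by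
        rintro n ⟨b1, b2⟩
        rw [mem_coe, mem_Icc]
        refine ⟨b1, ?_⟩
        by_contra hc
        push Not at hc
        have b4 := hMn n hc
        have b5 : (N : ℤ) ≤ M := by exact_mod_cast hNM.2
        omega
      have b1 := Set.ncard_le_ncard hsub (Finset.finite_toSet _)
      rw [Set.ncard_coe_finset, Nat.card_Icc] at b1
      unfold X1
      omega
    refine ⟨hXx, ?_⟩
    have hX0 : (0 : ℝ) < X1 G N := lt_of_lt_of_le (by positivity) hX1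
    -- `x ^ (1/4) ≤ X1`
    have hX4 : (x : ℝ) ^ (1 / 4 : ℝ) ≤ X1 G N := by
      refine le_trans ?_ hX1
      have e1 : (x : ℝ) = (x : ℝ) ^ (3 / 4 : ℝ) * (x : ℝ) ^ (1 / 4 : ℝ) := by
        rw [← Real.rpow_add hx0]; norm_num
      calc (x : ℝ) ^ (1 / 4 : ℝ) = κ * (κ⁻¹ * (x : ℝ) ^ (1 / 4 : ℝ)) := by field_simp
        _ ≤ κ * ((x : ℝ) ^ (3 / 4 : ℝ) * (x : ℝ) ^ (1 / 4 : ℝ)) := by gcongr
        _ = κ * x := by rw [← e1]
    have hlog : L / 2 ≤ Real.log (X1 G N) := by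
      have e1 : (x : ℝ) = (x : ℝ) ^ (1 / 2 : ℝ) * (x : ℝ) ^ (1 / 2 : ℝ) := by
        rw [← Real.rpow_add hx0]; norm_num
      have e2 : (x : ℝ) ^ (1 / 2 : ℝ) ≤ X1 G N := by
        refine le_trans ?_ hX1
        calc (x : ℝ) ^ (1 / 2 : ℝ) = κ * (κ⁻¹ * (x : ℝ) ^ (1 / 2 : ℝ)) := by field_simp
          _ ≤ κ * ((x : ℝ) ^ (1 / 2 : ℝ) * (x : ℝ) ^ (1 / 2 : ℝ)) := by gcongr
          _ = κ * x := by rw [← e1]
      have e3 := Real.log_le_log (by positivity) e2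
      rw [Real.log_rpow hx0] at e3
      linarith
    have r1 := g1 hX1 hfix
    obtain ⟨hzX, r2⟩ := g2 0 (by simp) hfix (X1 G N) hXx hX4
    -- the tail of the product
    have hVV : VF (Cl F G N 0 z) (X1 G N) ≤ 2 * VF (Cl F G N 0 z) x := by
      rw [VF_Zz, VF_Zz, ← VV_split (Zz F G N 0 z) (Nat.zero_le _) hXx]
      have e1 : 1 / 2 ≤ VV (Zz F G N 0 z) (X1 G N) x := by
        unfold VV
        refine le_trans ?_ (prod_one_sub_ge _ _ ?_)
        · have e2 : ∑ q ∈ Pr (X1 G N) x, ((Zz F G N 0 z q).card : ℝ) / q ≤ 1 / 2 := by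
            have e3 : ∀ q ∈ Pr (X1 G N) x, ((Zz F G N 0 z q).card : ℝ) / q ≤ (D + 2) / (κ * x) := by
              intro q hq
              have hqX := (Pr_mem.1 hq).1.1
              have hqXr : (X1 G N : ℝ) ≤ q := by exact_mod_cast hqX.le
              rw [Zz_large F G N 0 (by omega : z < q)]
              have e4 := aa_le F 0 hfix.ad (Pr_prime hq) D (by omega)
              have e5 : (aa F 0 q : ℝ) ≤ D + 2 := by exact_mod_cast e4
              have e6 : κ * x ≤ q := hX1.trans hqXr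
              gcongr
            refine (sum_le_card_nsmul _ _ _ e3).trans ?_
            rw [nsmul_eq_mul]
            have e4 := a3 (X1 G N)
            calc ((Pr (X1 G N) x).card : ℝ) * ((D + 2) / (κ * x)) ≤ (κ / (2 * (D + 2)) * x) * ((D + 2) / (κ * x)) := by
                  gcongr
              _ = 1 / 2 := by
                  have : (0 : ℝ) < D + 2 := by positivity
                  field_simp
          linarith
        · intro q hq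
          have hq0 : (0 : ℝ) < q := by exact_mod_cast (Pr_prime hq).pos
          refine ⟨by positivity, ?_⟩
          rw [div_le_one hq0]
          exact_mod_cast Zz_card_le F G N 0 z q
      have e2 := VV_nonneg' (Zz_card_le F G N 0 z) 0 (X1 G N)
      nlinarith
    refine le_trans ?_ r1
    have hVz := Vz_pos z
    have hVF0 : 0 ≤ VF (Cl F G N 0 z) (X1 G N) := by
      rw [VF_Zz]
      exact VV_nonneg' (Zz_card_le F G N 0 z) _ _
    have hlog0 : 0 < Real.log (X1 G N) := by linarith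
    calc c / (4 * C) * (X1 G N : ℝ) * VV (ZF F G N 0) 0 (X1 G N)
        ≤ c / (4 * C) * (X1 G N : ℝ) * (C * ((Real.log (X1 G N))⁻¹ * (Vz z)⁻¹ * VF (Cl F G N 0 z) (X1 G N))) := by
          gcongr
      _ ≤ c / (4 * C) * (X1 G N : ℝ) * (C * ((L / 2)⁻¹ * (Vz z)⁻¹ * VF (Cl F G N 0 z) (X1 G N))) := by
          gcongr
      _ ≤ c / (4 * C) * (X1 G N : ℝ) * (C * ((L / 2)⁻¹ * (Vz z)⁻¹ * (2 * VF (Cl F G N 0 z) x))) := by
          gcongr
      _ = c * ((X1 G N : ℝ) / L) * (Vz z)⁻¹ * VF (Cl F G N 0 z) x := by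
          field_simp
          norm_num
  have hcard : ((((Icc 1 M).filter (fun N => ¬ (κ * x ≤ (X1 G N : ℝ) →
      NoFix F G N 0 → X1 G N ≤ x ∧ c / (4 * C) * (X1 G N : ℝ) * VV (ZF F G N 0) 0 (X1 G N) ≤
      (((Icc 1 x).filter (fun n => Arg0 t x F n ∧ ((N : ℤ) - G.eval (n : ℤ)).toNat.Prime)).card : ℝ)))).card : ℕ) : ℝ) ≤
      M / L ^ (U + 1) + M / L ^ (U + 1) := by
    refine le_trans ?_ (add_le_add a1 a2)
    exact_mod_cast (card_le_card hsub).trans (card_union_le _ _)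
  refine hcard.trans ?_
  rw [pow_succ]
  have hMr : (0 : ℝ) ≤ M := Nat.cast_nonneg _
  have e1 : (M : ℝ) / (L ^ U * L) = M / L ^ U / L := by rw [div_div]
  rw [e1]
  have e2 : (M : ℝ) / L ^ U / L ≤ M / L ^ U / 2 := by
    apply div_le_div_of_nonneg_left (by positivity) (by norm_num)
    linarith
  linarith

end Pool.Agent.K4H18.CH
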