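import Pool.Agent.K4H18.CH.H12

set_option autoImplicit false

/-! The case `h = 0`, final form. -/

namespace Pool.Agent.K4H18.CH

open Finset Polynomial Filter
open Pool.Agent.Y843.HS (Pr VV Pr_mem Pr_prime VV_split)
open Pool.Agent.Y840.CT (Rough)
open Pool.Agent.H373R2.T7.SHN (X1)

/-- the primes `p` with `N - G(p)` prime and the `F_i(p)` with at most `t` prime factors, none of them small -/
def Args0 (t : ℕ) {g : ℕ} (F : Fin g → ℤ[X]) (G : ℤ[X]) (N : ℕ) : Set ℕ :=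
  {p : ℕ | p.Prime ∧ ((N : ℤ) - G.eval (p : ℤ)).toNat.Prime ∧
    ∀ i, Rough t ((X1 G N : ℝ) ^ (1 / (t : ℝ))) ((F i).eval (p : ℤ))}

lemma rough_of' {g : ℕ} (F : Fin g → ℤ[X]) (D t : ℕ) (ht : 1 ≤ t) (hD : ∑ i, (F i).natDegree ≤ D) :
    ∃ x0 : ℕ, ∀ x : ℕ, x0 ≤ x → ∀ X : ℕ, X ≤ x → ∀ n : ℕ, n ≤ x →
      (∀ q : ℕ, q.Prime → (q : ℝ) ≤ (x : ℝ) ^ (1 / (t : ℝ)) → ¬ (q : ℤ) ∣ ∏ i, (F i).eval (n : ℤ)) → ∀ i,
      Rough (t * (D + 1)) ((X : ℝ) ^ (1 / ((t * (D + 1) : ℕ) : ℝ))) ((F i).eval (n : ℤ)) := by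
  classical
  choose C hC using fun i => eval_bound (F i)
  refine ⟨max (∑ i, C i) (2 ^ t), fun x hx X hX n hn hfree i => ?_⟩
  have hx2 : 2 ^ t ≤ x := (le_max_right _ _).trans hx
  have hx1 : 1 ≤ x := Nat.one_le_two_pow.trans hx2
  have hxr1 : (1 : ℝ) ≤ x := by exact_mod_cast hx1
  have ht0 : (0 : ℝ) < t := by exact_mod_cast ht
  have hCx : C i ≤ x := (single_le_sum (f := C) (fun j _ => Nat.zero_le _) (mem_univ i)).trans ((le_max_left _ _).trans hx)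
  have h2t : (2 : ℝ) ≤ (x : ℝ) ^ (1 / (t : ℝ)) := by
    have h1 : ((2 : ℝ) ^ t) ≤ x := by exact_mod_cast hx2
    have h2 := Real.rpow_le_rpow (by positivity) h1 (show 0 ≤ 1 / (t : ℝ) by positivity)
    rwa [← Real.rpow_natCast, ← Real.rpow_mul (by norm_num), mul_one_div_cancel ht0.ne', Real.rpow_one] at h2
  have hfi : ∀ q : ℕ, q.Prime → (q : ℤ) ∣ (F i).eval (n : ℤ) → (x : ℝ) ^ (1 / (t : ℝ)) < q := by
    intro q hq hd
    by_contra hcon
    push Not at hcon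
    exact hfree q hq hcon (hd.trans (dvd_prod_of_mem (fun i => (F i).eval (n : ℤ)) (mem_univ i)))
  have hne : (F i).eval (n : ℤ) ≠ 0 := by
    intro h0
    have := hfi 2 Nat.prime_two (by rw [h0]; exact dvd_zero _)
    push_cast at this
    linarith
  have hexp : (X : ℝ) ^ (1 / ((t * (D + 1) : ℕ) : ℝ)) ≤ (x : ℝ) ^ (1 / (t : ℝ)) := by
    calc (X : ℝ) ^ (1 / ((t * (D + 1) : ℕ) : ℝ)) ≤ (x : ℝ) ^ (1 / ((t * (D + 1) : ℕ) : ℝ)) := by
          apply Real.rpow_le_rpow (by positivity) (by exact_mod_cast hX) (by positivity)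
      _ ≤ (x : ℝ) ^ (1 / (t : ℝ)) := by
          apply Real.rpow_le_rpow_of_exponent_le hxr1
          apply one_div_le_one_div_of_le ht0
          have : t ≤ t * (D + 1) := Nat.le_mul_of_pos_right _ (by omega)
          exact_mod_cast this
  refine ⟨hne, ?_, ?_⟩
  · -- the number of prime factors
    set m := ((F i).eval (n : ℤ)).natAbs with hm
    have hm0 : m ≠ 0 := Int.natAbs_ne_zero.2 hne
    set y := ⌊(x : ℝ) ^ (1 / (t : ℝ))⌋₊ + 1 with hy
    have hy1 : (x : ℝ) ^ (1 / (t : ℝ)) < y := by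
      rw [hy]
      push_cast
      exact Nat.lt_floor_add_one _
    have hyq : ∀ q ∈ m.primeFactorsList, y ≤ q := by
      intro q hq
      have hqp := Nat.prime_of_mem_primeFactorsList hq
      have hqd := Nat.dvd_of_mem_primeFactorsList hq
      have h1 := hfi q hqp (Int.natCast_dvd.2 hqd)
      rw [hy]
      have : ⌊(x : ℝ) ^ (1 / (t : ℝ))⌋₊ < q := (Nat.floor_lt (by positivity)).2 h1
      omega
    have h1 := list_pow_le _ y hyq
    rw [Nat.prod_primeFactorsList hm0] at h1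
    have h2 : m ≤ x ^ (D + 1) := by
      have h3 := hC i x hx1 n hn
      have h4 : (m : ℤ) ≤ (x : ℤ) ^ (D + 1) := by
        rw [hm, Int.natCast_natAbs]
        refine h3.trans ?_
        have h5 : (C i : ℤ) ≤ x := by exact_mod_cast hCx
        calc (C i : ℤ) * (x : ℤ) ^ (F i).natDegree ≤ (x : ℤ) * (x : ℤ) ^ (F i).natDegree := by gcongr
          _ = (x : ℤ) ^ ((F i).natDegree + 1) := by rw [pow_succ']
          _ ≤ (x : ℤ) ^ (D + 1) := by
              apply pow_le_pow_right₀ (by exact_mod_cast hx1)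
              have := (single_le_sum (f := fun j => (F j).natDegree) (fun j _ => Nat.zero_le _) (mem_univ i)).trans hD
              omega
      exact_mod_cast h4
    have h3 : x ≤ y ^ t := by
      have h4 : (x : ℝ) ≤ (y : ℝ) ^ t := by
        have h5 := pow_le_pow_left₀ (by positivity) hy1.le t
        rwa [← Real.rpow_natCast ((x : ℝ) ^ (1 / (t : ℝ))), ← Real.rpow_mul (by positivity),
          one_div_mul_cancel ht0.ne', Real.rpow_one] at h5
      exact_mod_cast h4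
    by_contra hcon
    push Not at hcon
    have hy2 : 2 ≤ y := by
      have : (2 : ℝ) < y := lt_of_le_of_lt h2t hy1
      exact_mod_cast this.le
    have h4 : y ^ (t * (D + 1)) < y ^ m.primeFactorsList.length := Nat.pow_lt_pow_right hy2 hcon
    have h5 : x ^ (D + 1) ≤ y ^ (t * (D + 1)) := by
      rw [pow_mul]
      exact Nat.pow_le_pow_left h3 _
    omega
  · intro q hq hd
    exact lt_of_le_of_lt hexp (hfi q hq hd)

open Classical in
theorem almost0 (D : ℕ) : ∃ t : ℕ, 1 ≤ t ∧ ∃ c : ℝ, 0 < c ∧ ∀ (g : ℕ) (F : Fin g → ℤ[X]) (G : ℤ[X]),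
    (∀ i, 1 ≤ (F i).natDegree) → (∀ i, 0 < (F i).leadingCoeff) → 1 ≤ G.natDegree → 0 < G.leadingCoeff → (∑ i, (F i).natDegree) + G.natDegree ≤ D →
    ∀ U : ℕ, ∃ M0 : ℕ, ∀ M : ℕ, M0 ≤ M →
    (((Icc 1 M).filter (fun N : ℕ => ¬ (NoFix F G N 0 →
      c * (X1 G N : ℝ) * VV (ZF F G N 0) 0 (X1 G N) ≤ ((Args0 t F G N).ncard : ℝ)))).card : ℝ)
      ≤ M / Real.log M ^ U := by
  obtain ⟨t, ht, c, hc, hcombo⟩ := combo0 D
  refine ⟨t * (D + 1), Nat.mul_pos ht (by omega), c, hc, ?_⟩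
  intro g F G hF hFl hG hGl hD U
  obtain ⟨B, κ, k1, hB, hκ, hκ1, hblock⟩ := block_x G hG hGl
  obtain ⟨x1, h1⟩ := hcombo g F G hF hFl hG hGl hD B (U + 2) κ hB hκ
  obtain ⟨x2, h2⟩ := rough_of' F D t ht (by omega)
  have hb := blocks (fun N : ℕ => (NoFix F G N 0 → c * (X1 G N : ℝ) * VV (ZF F G N 0) 0 (X1 G N) ≤
    ((Args0 (t * (D + 1)) F G N).ncard : ℝ))) U
  suffices hs : ∃ k0 : ℕ, ∀ k : ℕ, k0 ≤ k → (((Ico (2 ^ k) (2 ^ (k + 1))).filter (fun N : ℕ => ¬ (NoFix F G N 0 →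
      c * (X1 G N : ℝ) * VV (ZF F G N 0) 0 (X1 G N) ≤ ((Args0 (t * (D + 1)) F G N).ncard : ℝ)))).card : ℝ) ≤
      2 ^ k / (k : ℝ) ^ (U + 1) by
    have hb2 := hb (by
      obtain ⟨k0, hk0⟩ := hs
      refine ⟨k0, fun k hk => ?_⟩
      convert hk0 k hk)
    obtain ⟨M0, hM0⟩ := hb2
    refine ⟨M0, fun M hM => ?_⟩
    convert hM0 M hM
  set d := G.natDegree with hd
  refine ⟨max (max k1 (2 * d * (x1 + x2 + 2))) (max (2 * (2 * d) ^ (U + 2)) 3), fun k hk => ?_⟩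
  obtain ⟨x, b1, b2, b3, b4, b5, b6⟩ := hblock k (by omega)
  have hd0 : 0 < d := hG
  have hdr : (1 : ℝ) ≤ d := by exact_mod_cast hG
  have hk0 : (3 : ℝ) ≤ k := by exact_mod_cast (by omega : 3 ≤ k)
  set L := Real.log x with hL
  have hkL : (k : ℝ) / (2 * d) ≤ L := by
    rw [div_le_iff₀ (by positivity)]
    linarith
  have hL0 : 0 < L := lt_of_lt_of_le (by positivity) hkL
  have hx1 : (1 : ℝ) < x := by
    by_contra hcon
    push Not at hcon
    have := Real.log_nonpos (Nat.cast_nonneg x) hcon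
    linarith
  have hxL : L ≤ x := (Real.log_le_sub_one_of_pos (by linarith)).trans (by linarith)
  have hxx : x1 + x2 + 2 ≤ x := by
    have e1 : 2 * d * (x1 + x2 + 2) ≤ k := by omega
    have e2 : ((2 * d * (x1 + x2 + 2) : ℕ) : ℝ) ≤ k := by exact_mod_cast e1
    push_cast at e2
    have e3 : ((x1 : ℝ) + x2 + 2) ≤ (k : ℝ) / (2 * d) := by
      rw [le_div_iff₀ (by positivity)]
      linarith
    have e4 : ((x1 + x2 + 2 : ℕ) : ℝ) ≤ x := by
      push_cast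
      linarith
    exact_mod_cast e4
  have g1 := h1 x (by omega) (2 ^ (k + 1)) b1 b2 b3
  have hsub : (Ico (2 ^ k) (2 ^ (k + 1))).filter (fun N : ℕ => ¬ (NoFix F G N 0 →
      c * (X1 G N : ℝ) * VV (ZF F G N 0) 0 (X1 G N) ≤ ((Args0 (t * (D + 1)) F G N).ncard : ℝ))) ⊆
      (Icc 1 (2 ^ (k + 1))).filter (fun N => ¬ (κ * x ≤ (X1 G N : ℝ) →
      NoFix F G N 0 → X1 G N ≤ x ∧ c * (X1 G N : ℝ) * VV (ZF F G N 0) 0 (X1 G N) ≤
      (((Icc 1 x).filter (fun n => Arg0 t x F n ∧ ((N : ℤ) - G.eval (n : ℤ)).toNat.Prime)).card : ℝ))) := by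
    intro N hN
    rw [mem_filter] at hN ⊢
    obtain ⟨hNk, hcon⟩ := hN
    have hNk' := mem_Ico.1 hNk
    have hN1 : 1 ≤ N := le_trans (Nat.one_le_two_pow) hNk'.1
    refine ⟨mem_Icc.2 ⟨hN1, hNk'.2.le⟩, fun hgood => hcon ?_⟩
    intro hfix
    obtain ⟨hXx, hlow⟩ := hgood (b4 N hNk'.1) hfix
    refine hlow.trans ?_
    have hfin : (Args0 (t * (D + 1)) F G N).Finite := by
      apply Set.Finite.subset (Finset.finite_toSet (Icc 1 x))
      rintro p ⟨hp, hq, -⟩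
      rw [mem_coe, mem_Icc]
      refine ⟨hp.one_lt.le, ?_⟩
      by_contra hc
      push Not at hc
      have b7 := b3 p hc
      have b8 : (N : ℤ) ≤ ((2 ^ (k + 1) : ℕ) : ℤ) := by exact_mod_cast hNk'.2.le
      rw [Int.toNat_of_nonpos (by omega)] at hq
      exact Nat.not_prime_zero hq
    have hset : (((Icc 1 x).filter (fun n => Arg0 t x F n ∧ ((N : ℤ) - G.eval (n : ℤ)).toNat.Prime) : Finset ℕ) : Set ℕ) ⊆
        Args0 (t * (D + 1)) F G N := by
      intro n hn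
      rw [mem_coe, mem_filter, mem_Icc] at hn
      obtain ⟨⟨-, hnx⟩, ha, hpr⟩ := hn
      exact ⟨ha.1, hpr, h2 x (by omega) (X1 G N) hXx n hnx ha.2⟩
    have := Set.ncard_le_ncard hset hfin
    rw [Set.ncard_coe_finset] at this
    exact_mod_cast this
  refine (Nat.cast_le.2 (card_le_card hsub)).trans (g1.trans ?_)
  -- the numbers
  push_cast
  have e1 : (2 * (2 * (d : ℝ)) ^ (U + 2)) ≤ k := by
    have : ((2 * (2 * d) ^ (U + 2) : ℕ) : ℝ) ≤ k := by exact_mod_cast (by omega : 2 * (2 * d) ^ (U + 2) ≤ k)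
    push_cast at this
    exact this
  have hkpos : (0 : ℝ) < k := by linarith
  calc (2 : ℝ) ^ (k + 1) / L ^ (U + 2) ≤ (2 : ℝ) ^ (k + 1) / ((k : ℝ) / (2 * d)) ^ (U + 2) := by gcongr
    _ = (2 * (2 * (d : ℝ)) ^ (U + 2)) * (2 ^ k / (k : ℝ) ^ (U + 1)) / k := by
        rw [div_pow, pow_succ (k : ℝ) (U + 1), pow_succ (2 : ℝ) k]
        field_simp
    _ ≤ k * (2 ^ k / (k : ℝ) ^ (U + 1)) / k := by gcongr
    _ = _ := by field_simp

end Pool.Agent.K4H18.CH
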