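import Pool.Agent.K4H18.CH.H13

set_option autoImplicit false

/-! Narrow progressions of arguments, for every `N`. -/

namespace Pool.Agent.K4H18.CH

open Finset Polynomial Filter
open Pool.Agent.Y843.HS (Pr VV Pr_mem Pr_prime VV_split)
open Pool.Agent.Y843.HG (V1 V1_bounds)
open Pool.Agent.Y840.CT (Rough rho VF VF_low)
open Pool.Agent.H373R2.T7 (Vz Vz_pos)
open Pool.Agent.H373R2.T7.SHN (X1)

/-- the sum over the large primes -/
theorem tail_bound' (κ : ℝ) (hκ : 0 < κ) (hκ1 : κ ≤ 1) : ∃ C : ℝ, 0 < C ∧ ∃ x0 : ℕ, ∀ x : ℕ, x0 ≤ x →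
    ∑ q ∈ Pr ⌊(x : ℝ) ^ κ⌋₊ x, 1 / (q : ℝ) ≤ C := by
  obtain ⟨c, C, hc, hC, hV⟩ := V1_bounds
  have hev : ∀ᶠ x : ℕ in atTop, (2 : ℝ) ≤ (x : ℝ) ^ (κ / 2) :=
    ((tendsto_rpow_atTop (show (0 : ℝ) < κ / 2 by positivity)).comp
      tendsto_natCast_atTop_atTop).eventually (eventually_ge_atTop 2)
  obtain ⟨x1, hx1⟩ := eventually_atTop.1 hev
  refine ⟨max 1 (Real.log (2 * C / (c * κ))), lt_of_lt_of_le one_pos (le_max_left _ _), max x1 3, fun x hx => ?_⟩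
  refine le_trans ?_ (le_max_right _ _)
  have h10 := hx1 x (by omega)
  have hx3 : (3 : ℝ) ≤ x := by exact_mod_cast (by omega : 3 ≤ x)
  have hx0 : (0 : ℝ) < x := by positivity
  have hx1' : (1 : ℝ) ≤ x := by linarith
  set Y := ⌊(x : ℝ) ^ κ⌋₊ with hY
  have hsq : (x : ℝ) ^ κ = (x : ℝ) ^ (κ / 2) * (x : ℝ) ^ (κ / 2) := by
    rw [← Real.rpow_add hx0]; ring_nf
  have hYlow : (x : ℝ) ^ (κ / 2) ≤ Y := by
    have := Nat.lt_floor_add_one ((x : ℝ) ^ κ)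
    rw [← hY] at this
    nlinarith
  have hY2 : 2 ≤ Y := by
    have : (2 : ℝ) ≤ Y := by linarith
    exact_mod_cast this
  have hYx : Y ≤ x := by
    have h1 : (x : ℝ) ^ κ ≤ x := by
      have := Real.rpow_le_rpow_of_exponent_le hx1' hκ1
      rwa [Real.rpow_one] at this
    have := Nat.floor_le_floor h1
    rwa [Nat.floor_natCast] at this
  have hlY : κ * Real.log x / 2 ≤ Real.log Y := by
    have := Real.log_le_log (by positivity) hYlow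
    rw [Real.log_rpow hx0] at this
    linarith
  have hlx : 0 < Real.log x := Real.log_pos (by linarith)
  have h1 := (hV x (by omega)).1
  have h2 := (hV Y hY2).2
  have hVY : 0 < V1 Y := by rw [V1_Vz]; exact Vz_pos Y
  have h3 : c * κ / (2 * C) ≤ ∏ q ∈ Pr Y x, (1 - 1 / (q : ℝ)) := by
    have h4 : ∏ q ∈ Pr Y x, (1 - 1 / (q : ℝ)) = V1 x / V1 Y := by
      rw [← V1_split hYx]
      field_simp
    rw [h4, le_div_iff₀ hVY]
    calc c * κ / (2 * C) * V1 Y ≤ c * κ / (2 * C) * (C / Real.log Y) := by gcongr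
      _ ≤ c * κ / (2 * C) * (C / (κ * Real.log x / 2)) := by gcongr
      _ = c / Real.log x := by field_simp
      _ ≤ _ := h1
  have h5 : ∏ q ∈ Pr Y x, (1 - 1 / (q : ℝ)) ≤ Real.exp (-∑ q ∈ Pr Y x, 1 / (q : ℝ)) := by
    rw [← sum_neg_distrib, Real.exp_sum]
    apply Finset.prod_le_prod
    · intro q hq
      have : (1 : ℝ) ≤ q := by exact_mod_cast (Pr_prime hq).one_lt.le
      rw [sub_nonneg, div_le_one (by linarith)]
      exact this
    · intro q _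
      have := Real.add_one_le_exp (-(1 / (q : ℝ)))
      linarith
  have h6 := Real.log_le_log (by positivity) (h3.trans h5)
  rw [Real.log_exp] at h6
  have h7 : Real.log (c * κ / (2 * C)) = -Real.log (2 * C / (c * κ)) := by
    rw [← Real.log_inv, inv_div]
  linarith

lemma VV_tail_low (m : ℕ) (Z : ℕ → Finset ℕ) (Y X : ℕ) (hY : 2 * (m + 1) ≤ Y) (hZ : ∀ q ∈ Pr Y X, (Z q).card ≤ m) (C : ℝ)
    (hC : ∑ q ∈ Pr Y X, 1 / (q : ℝ) ≤ C) : Real.exp (-(m * C) - m) ≤ VV Z Y X := by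
  have hY0 : (0 : ℝ) < Y := by exact_mod_cast (by omega : 0 < Y)
  have hm0 : (0 : ℝ) ≤ m := Nat.cast_nonneg _
  have hYr : 2 * ((m : ℝ) + 1) ≤ Y := by exact_mod_cast hY
  have h1 : ∀ q ∈ Pr Y X, Real.exp (-(m / (q : ℝ)) - 2 * (m / (q : ℝ)) ^ 2) ≤ 1 - ((Z q).card : ℝ) / q := by
    intro q hq
    have hq0 : (0 : ℝ) < q := by exact_mod_cast (Pr_prime hq).pos
    have hqY : (Y : ℝ) ≤ q := by exact_mod_cast (Pr_mem.1 hq).1.1.le
    have h2 := exp_le_one_sub (show 0 ≤ (m : ℝ) / q by positivity) (by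
      rw [div_le_iff₀ hq0]
      linarith)
    refine h2.trans ?_
    have h3 : ((Z q).card : ℝ) / q ≤ m / q := by
      have : ((Z q).card : ℝ) ≤ m := by exact_mod_cast hZ q hq
      gcongr
    linarith
  unfold VV
  refine le_trans ?_ (Finset.prod_le_prod (fun q _ => (Real.exp_pos _).le) h1)
  rw [← Real.exp_sum]
  apply Real.exp_le_exp.2
  rw [sum_sub_distrib]
  have h2 : ∑ q ∈ Pr Y X, -((m : ℝ) / q) = -(m * ∑ q ∈ Pr Y X, 1 / (q : ℝ)) := by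
    rw [sum_neg_distrib, mul_sum]
    congr 1
    apply sum_congr rfl
    intro q _
    ring
  have h3 : ∑ q ∈ Pr Y X, 2 * ((m : ℝ) / q) ^ 2 = 2 * m ^ 2 * ∑ q ∈ Pr Y X, ((q : ℝ) ^ 2)⁻¹ := by
    rw [mul_sum]
    apply sum_congr rfl
    intro q _
    rw [div_pow]
    ring
  rw [h2, h3]
  have h4 : 2 * (m : ℝ) ^ 2 * ∑ q ∈ Pr Y X, ((q : ℝ) ^ 2)⁻¹ ≤ m := by
    calc 2 * (m : ℝ) ^ 2 * ∑ q ∈ Pr Y X, ((q : ℝ) ^ 2)⁻¹ ≤ 2 * (m : ℝ) ^ 2 * (Y : ℝ)⁻¹ :=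
          mul_le_mul_of_nonneg_left (sum_inv_sq Y X (by omega)) (by positivity)
      _ ≤ m := by
          rw [← div_eq_mul_inv, div_le_iff₀ hY0]
          nlinarith
  have h5 : (m : ℝ) * ∑ q ∈ Pr Y X, 1 / (q : ℝ) ≤ m * C := mul_le_mul_of_nonneg_left hC hm0
  linarith

lemma fin_args (G : ℤ[X]) (hG : 1 ≤ G.natDegree) (hGl : 0 < G.leadingCoeff) (N : ℕ) :
    {n : ℕ | 1 ≤ n ∧ 0 < (N : ℤ) - G.eval (n : ℤ)}.Finite := by
  obtain ⟨n1, hn1, hg⟩ := growth G hG hGl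
  apply Set.Finite.subset (Set.finite_Iic (n1 + 2 * N))
  rintro n ⟨h1, h2⟩
  rw [Set.mem_Iic]
  by_contra hcon
  push Not at hcon
  have h3 := (hg n (by omega)).1
  have h4 : (n : ℝ) ≤ (n : ℝ) ^ G.natDegree := le_self_pow₀ (by exact_mod_cast h1) (by omega)
  have h5 : ((G.eval (n : ℤ) : ℤ) : ℝ) < N := by
    have : G.eval (n : ℤ) < (N : ℤ) := by linarith
    exact_mod_cast this
  have h6 : (n1 : ℝ) + 2 * N < n := by exact_mod_cast hcon
  have h7 : (0 : ℝ) ≤ n1 := Nat.cast_nonneg _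
  linarith

lemma args_le (G : ℤ[X]) (hG : 1 ≤ G.natDegree) (hGl : 0 < G.leadingCoeff) : ∃ n0 : ℕ, 1 ≤ n0 ∧ ∀ N : ℕ, 1 ≤ N → ∀ n : ℕ,
    0 < (N : ℤ) - G.eval (n : ℤ) → n ≤ X1 G N + n0 := by
  obtain ⟨n0, hn0, hseg⟩ := Pool.Agent.H373R2.T7.TB.seg_one G hG hGl
  refine ⟨n0, hn0, fun N hN n hn => ?_⟩
  rcases Nat.lt_or_ge n n0 with h | h
  · omega
  obtain ⟨X', hX', hiff⟩ := hseg N hN n
  have h1 : n ≤ X' := (hiff n (mem_Icc.2 ⟨h, le_rfl⟩)).1 hn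
  have hsub : ((Icc n0 n : Finset ℕ) : Set ℕ) ⊆ {n : ℕ | 1 ≤ n ∧ 0 < (N : ℤ) - G.eval (n : ℤ)} := by
    intro m hm
    rw [mem_coe, mem_Icc] at hm
    refine ⟨by omega, ?_⟩
    exact (hiff m (mem_Icc.2 hm)).2 (by omega)
  have h2 := Set.ncard_le_ncard hsub (fin_args G hG hGl N)
  rw [Set.ncard_coe_finset, Nat.card_Icc] at h2
  unfold X1
  omega

lemma level_card (G : ℤ[X]) (hG : 1 ≤ G.natDegree) (a : ℤ) (S : Finset ℕ) :
    (S.filter (fun n : ℕ => G.eval (n : ℤ) = a)).card ≤ G.natDegree := by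
  classical
  have hne : G - C a ≠ 0 := by
    intro h
    have h1 : (G - C a).natDegree = G.natDegree := natDegree_sub_C
    rw [h, natDegree_zero] at h1
    omega
  have h1 : (S.filter (fun n : ℕ => G.eval (n : ℤ) = a)).card ≤ (G - C a).roots.toFinset.card := by
    apply card_le_card_of_injOn (fun n : ℕ => (n : ℤ))
    · intro n hn
      rw [mem_coe, mem_filter] at hn
      rw [mem_coe, Multiset.mem_toFinset, mem_roots hne, IsRoot.def]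
      simp [hn.2]
    · intro n _ m _ h
      simpa using h
  refine h1.trans ((Multiset.toFinset_card_le _).trans ((card_roots' _).trans ?_))
  rw [natDegree_sub_C]

lemma small_values (G : ℤ[X]) (hG : 1 ≤ G.natDegree) (N T : ℕ) (S : Finset ℕ) :
    (S.filter (fun n : ℕ => 0 < (N : ℤ) - G.eval (n : ℤ) ∧ (N : ℤ) - G.eval (n : ℤ) ≤ T)).card ≤ G.natDegree * T := by
  classical
  have h1 : S.filter (fun n : ℕ => 0 < (N : ℤ) - G.eval (n : ℤ) ∧ (N : ℤ) - G.eval (n : ℤ) ≤ T) ⊆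
      (Icc 1 T).biUnion (fun v : ℕ => S.filter (fun n : ℕ => G.eval (n : ℤ) = (N : ℤ) - v)) := by
    intro n hn
    rw [mem_filter] at hn
    rw [mem_biUnion]
    refine ⟨((N : ℤ) - G.eval (n : ℤ)).toNat, ?_, mem_filter.2 ⟨hn.1, ?_⟩⟩
    · rw [mem_Icc]
      omega
    · rw [Int.toNat_of_nonneg (by omega)]
      ring
  refine (card_le_card h1).trans (card_biUnion_le.trans ?_)
  refine (sum_le_card_nsmul _ _ _ (fun v _ => level_card G hG _ S)).trans ?_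
  rw [Nat.card_Icc, smul_eq_mul, Nat.add_sub_cancel, mul_comm]

/-- `n` is an admissible argument -/
def ArgG (t : ℕ) {g : ℕ} (F : Fin g → ℤ[X]) (G : ℤ[X]) (N : ℕ) (h : ℤ) (n : ℕ) : Prop :=
  n.Prime ∧ ((N : ℤ) - G.eval (n : ℤ)).toNat.Prime ∧ (h = 0 ∨ Rough 2 ((X1 G N : ℝ) ^ (1 / 9 : ℝ)) (n + h)) ∧
    ∀ i, Rough t ((X1 G N : ℝ) ^ (1 / (t : ℝ))) ((F i).eval (n : ℤ))

lemma ZF_lt {g : ℕ} (F : Fin g → ℤ[X]) (G : ℤ[X]) (N : ℕ) (h : ℤ) (hN : NoFix F G N h) {q : ℕ} (hq : q.Prime) :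
    (ZF F G N h q).card < q := by
  rw [← Zz_small F G N h hq (le_refl q)]
  exact om_lt F G N h q hN hq

lemma ZF_card {g : ℕ} (F : Fin g → ℤ[X]) (G : ℤ[X]) (N : ℕ) (h : ℤ) (hN : NoFix F G N h) (D : ℕ)
    (hD : (∑ i, (F i).natDegree) + G.natDegree ≤ D) {q : ℕ} (hq : q.Prime) : (ZF F G N h q).card ≤ D + 2 := by
  have h1 := Cl_card F G N h q hN hq
  have h2 := rho_Cl F G N h q hq
  have h3 : (Zz F G N h q q).card = om F G N h q q := rfl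
  rw [Zz_small F G N h hq (le_refl q)] at h3
  rw [h3, ← h2]
  unfold rho
  refine card_image_le.trans ((card_insert_le _ _).trans ?_)
  omega

lemma VV_ZF (r : ℕ) : ∃ c : ℝ, 0 < c ∧ ∀ (g : ℕ) (F : Fin g → ℤ[X]) (G : ℤ[X]) (N : ℕ) (h : ℤ), NoFix F G N h →
    (∑ i, (F i).natDegree) + G.natDegree ≤ r → ∀ X : ℕ, 2 ≤ X → c / Real.log X ^ (r + 2) ≤ VV (ZF F G N h) 0 X := by
  obtain ⟨c, hc, h⟩ := VF_low (r + 1)
  refine ⟨c, hc, fun g F G N h0 hN hD X hX => ?_⟩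
  have h1 := h X hX (Cl F G N h0 X) (fun q hq => (Cl_card F G N h0 X hN hq).trans (by omega))
    (fun q hq => by rw [rho_Cl F G N h0 X hq]; exact om_lt F G N h0 X hN hq)
  rw [VF_Zz] at h1
  have h2 : VV (Zz F G N h0 X) 0 X = VV (ZF F G N h0) 0 X := by
    unfold VV
    apply prod_congr rfl
    intro q hq
    rw [Zz_small F G N h0 (Pr_prime hq) (Pr_mem.1 hq).1.2]
  rwa [h2] at h1

end Pool.Agent.K4H18.CH
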