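import Pool.Agent.K4H18.CH.H14
import Pool.Agent.Y843.HS.Top

set_option autoImplicit false

/-! Narrow progressions of arguments, for every `N`. -/

namespace Pool.Agent.K4H18.CH

open Finset Polynomial Filter
open Pool.Agent.Y843.HS (Pr VV Pr_mem Pr_prime VV_split)
open Pool.Agent.Y840.CT (Rough)
open Pool.Agent.H373R2.T7.SHN (X1)

theorem apAll (k D t : ℕ) (ht : 1 ≤ t) (δ : ℝ) (hδ : 0 < δ) : ∃ B : ℕ, ∀ (g : ℕ) (F : Fin g → ℤ[X]) (G : ℤ[X]),
    1 ≤ G.natDegree → 0 < G.leadingCoeff → (∑ i, (F i).natDegree) + G.natDegree ≤ D → ∃ X₀ : ℕ,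
    ∀ (N : ℕ) (h : ℤ), 1 ≤ N → X₀ ≤ X1 G N → NoFix F G N h → ∀ S : Finset ℕ, (∀ n ∈ S, ArgG t F G N h n) →
    δ * (X1 G N : ℝ) * VV (ZF F G N h) 0 (X1 G N) ≤ S.card →
    ∃ a d : ℕ, 1 ≤ d ∧ (d : ℝ) ≤ Real.log (X1 G N) ^ B ∧ ∀ j < k, a + j * d ∈ S := by
  classical
  set κ : ℝ := 1 / (2 * (t + 9)) with hκ
  have htr : (1 : ℝ) ≤ t := by exact_mod_cast ht
  have hκ0 : 0 < κ := by positivity
  have hκ1 : κ ≤ 1 / 20 := by
    rw [hκ]
    apply one_div_le_one_div_of_le (by norm_num)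
    linarith
  obtain ⟨C1, hC1, x1, htail⟩ := tail_bound' κ hκ0 (by linarith)
  set cv : ℝ := Real.exp (-(((D + 2 : ℕ) : ℝ) * C1) - ((D + 2 : ℕ) : ℝ)) with hcv
  have hcv0 : 0 < cv := Real.exp_pos _
  have hcv1 : cv ≤ 1 := by
    rw [hcv, Real.exp_le_one_iff]
    have : (0 : ℝ) ≤ ((D + 2 : ℕ) : ℝ) := Nat.cast_nonneg _
    have : 0 ≤ ((D + 2 : ℕ) : ℝ) * C1 := by positivity
    linarith
  obtain ⟨cz, hcz, hVlow⟩ := VV_ZF D
  obtain ⟨B, x2, hfin⟩ := Pool.Agent.Y843.HS.fin k (D + 2) κ (δ * cv / 4) hκ0 (by positivity)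
  refine ⟨B + 1, fun g F G hG hGl hD => ?_⟩
  obtain ⟨n0, hn0, hle⟩ := args_le G hG hGl
  obtain ⟨x3, h3⟩ := ev_nat (D + 2) ((G.natDegree + 1) * 4 / (δ * cv * cz)) (1 / 2) (by norm_num)
  obtain ⟨x4, h4⟩ := ev_lg (2 ^ B + 1)
  have hev : ∀ᶠ x : ℕ in atTop, (2 * (D + 3) + 1 : ℝ) ≤ (x : ℝ) ^ κ :=
    ((tendsto_rpow_atTop hκ0).comp tendsto_natCast_atTop_atTop).eventually (eventually_ge_atTop _)
  obtain ⟨x5, h5⟩ := eventually_atTop.1 hev
  refine ⟨max (max x1 x2) (max (max x3 x4) (max x5 (n0 + 3))), ?_⟩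
  intro N h hN1 hX0 hfix S hS hcard
  set X := X1 G N with hX
  set W := X + n0 with hW
  have hXW : X ≤ W := by omega
  have hW2X : W ≤ 2 * X := by omega
  have b1 := htail W (by omega)
  have b3 := h3 W (by omega)
  have b4 := h4 X (by omega)
  have b5 := h5 W (by omega)
  have hXr : (3 : ℝ) ≤ X := by exact_mod_cast (by omega : 3 ≤ X)
  have hX0' : (0 : ℝ) < X := by linarith
  have hXWr : (X : ℝ) ≤ W := by exact_mod_cast hXW
  have hW2Xr : (W : ℝ) ≤ 2 * X := by exact_mod_cast hW2X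
  have hW0 : (0 : ℝ) < W := by linarith
  have hW1 : (1 : ℝ) ≤ W := by linarith
  set Y := ⌊(W : ℝ) ^ κ⌋₊ with hY
  have hYle : (Y : ℝ) ≤ (W : ℝ) ^ κ := Nat.floor_le (by positivity)
  have hYlow : 2 * (D + 2 + 1) ≤ Y := by
    have e1 := Nat.lt_floor_add_one ((W : ℝ) ^ κ)
    rw [← hY] at e1
    have e2 : (2 * (D + 3) : ℝ) < Y + 0 := by linarith
    have e3 : ((2 * (D + 3) : ℕ) : ℝ) < Y := by push_cast; linarith
    have e4 : 2 * (D + 3) < Y := by exact_mod_cast e3
    omega
  have hYW : Y ≤ W := by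
    have e1 : (W : ℝ) ^ κ ≤ W := by
      have := Real.rpow_le_rpow_of_exponent_le hW1 (show κ ≤ 1 by linarith)
      rwa [Real.rpow_one] at this
    have := Nat.floor_le_floor e1
    rwa [Nat.floor_natCast] at this
  -- scales
  have hscale : ∀ s : ℝ, 2 * κ ≤ s → (W : ℝ) ^ κ ≤ (X : ℝ) ^ s := by
    intro s hs
    calc (W : ℝ) ^ κ ≤ ((X : ℝ) ^ (2 : ℝ)) ^ κ := by
          apply Real.rpow_le_rpow hW0.le _ hκ0.le
          rw [Real.rpow_two]
          nlinarith
      _ = (X : ℝ) ^ (2 * κ) := by rw [← Real.rpow_mul hX0'.le]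
      _ ≤ (X : ℝ) ^ s := Real.rpow_le_rpow_of_exponent_le (by linarith) hs
  have hs9 : (W : ℝ) ^ κ ≤ (X : ℝ) ^ (1 / 9 : ℝ) := hscale _ (by linarith)
  have hst : (W : ℝ) ^ κ ≤ (X : ℝ) ^ (1 / (t : ℝ)) := by
    apply hscale
    rw [hκ]
    have : 2 * (1 / (2 * ((t : ℝ) + 9))) = 1 / (t + 9) := by field_simp
    rw [this]
    apply one_div_le_one_div_of_le (by linarith)
    linarith
  -- the set without the small elements
  set S' := S.filter (fun n : ℕ => (Y < n) ∧ ((Y : ℤ) < (N : ℤ) - G.eval (n : ℤ))) with hS'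
  have hpos : ∀ n ∈ S, 0 < (N : ℤ) - G.eval (n : ℤ) := by
    intro n hn
    by_contra hneg
    push Not at hneg
    have := (hS n hn).2.1
    rw [Int.toNat_of_nonpos hneg] at this
    exact Nat.not_prime_zero this
  have hsmall : (S.card : ℝ) ≤ S'.card + (G.natDegree + 1) * (Y : ℝ) := by
    have e1 : S ⊆ S' ∪ (S.filter (fun n : ℕ => 0 < (N : ℤ) - G.eval (n : ℤ) ∧ (N : ℤ) - G.eval (n : ℤ) ≤ Y) ∪ Icc 1 Y) := by
      intro n hn
      rw [mem_union, mem_union, hS', mem_filter, mem_filter, mem_Icc]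
      have e2 := hpos n hn
      have e3 := (hS n hn).1.one_lt
      by_cases e4 : Y < n
      · by_cases e5 : (Y : ℤ) < (N : ℤ) - G.eval (n : ℤ)
        · exact Or.inl ⟨hn, e4, e5⟩
        · exact Or.inr (Or.inl ⟨hn, e2, by omega⟩)
      · exact Or.inr (Or.inr ⟨by omega, by omega⟩)
    have e2 := (card_le_card e1).trans ((card_union_le _ _).trans (Nat.add_le_add_left (card_union_le _ _) _))
    have e3 := small_values G hG N Y S
    rw [Nat.card_Icc, Nat.add_sub_cancel] at e2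
    have e4 : S.card ≤ S'.card + (G.natDegree * Y + Y) := by omega
    have e5 : (S.card : ℝ) ≤ S'.card + (G.natDegree * Y + Y) := by exact_mod_cast e4
    linarith
  have hres := hfin W 0 (by omega) (ZF F G N h) (fun p hp _ => ⟨ZF_card F G N h hfix D hD hp, ZF_lt F G N h hfix hp, fun c hc => by
    unfold ZF at hc
    rw [mem_filter, mem_range] at hc
    exact hc.1⟩) S' (by
      intro n hn
      rw [hS', mem_filter] at hn
      rw [mem_Ioc]
      have e1 := hle N hN1 n (hpos n hn.1)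
      omega) (by
      intro n hn p hp hpW hcon
      rw [hS', mem_filter] at hn
      obtain ⟨hnS, hnY, hnY2⟩ := hn
      obtain ⟨q1, q2, q3, q4⟩ := hS n hnS
      have hpY : p ≤ Y := Nat.le_floor hpW
      have hpp : Prime (p : ℤ) := Nat.prime_iff_prime_int.1 hp
      unfold ZF at hcon
      rw [mem_filter] at hcon
      have hd := hcon.2
      -- transfer to `n`
      have hmod : (p : ℤ) ∣ (n : ℤ) - ((n % p : ℕ) : ℤ) := by
        rw [Int.natCast_mod]
        exact Int.dvd_self_sub_emod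
      have hd2 : (p : ℤ) ∣ (n : ℤ) * (n + h) * (∏ i, (F i).eval (n : ℤ)) * ((N : ℤ) - G.eval (n : ℤ)) := by
        have e1 : ∀ m : ℤ, m * (m + h) * (∏ i, (F i).eval m) * ((N : ℤ) - G.eval m) =
            (Polynomial.X * (Polynomial.X + C h) * (∏ i, F i) * (C (N : ℤ) - G)).eval m := by
          intro m
          rw [prod_eval]
          simp
        rw [e1] at hd ⊢
        exact (eval_mod _ _ _ _ hmod).2 hd
      rcases hpp.dvd_or_dvd hd2 with d1 | d1
      · rcases hpp.dvd_or_dvd d1 with d2 | d2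
        · rcases hpp.dvd_or_dvd d2 with d3 | d3
          · have e1 := (Nat.prime_dvd_prime_iff_eq hp q1).1 (Int.natCast_dvd_natCast.1 d3)
            omega
          · rcases q3 with q3 | q3
            · rw [q3, add_zero] at d3
              have e1 := (Nat.prime_dvd_prime_iff_eq hp q1).1 (Int.natCast_dvd_natCast.1 d3)
              omega
            · have e1 := q3.2.2 p hp d3
              linarith
        · obtain ⟨i, -, hi⟩ := (hpp.dvd_finset_prod_iff _).1 d2
          have e1 := (q4 i).2.2 p hp hi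
          linarith
      · have e0 := hpos n hnS
        have e1 : (p : ℤ) ∣ ((((N : ℤ) - G.eval (n : ℤ)).toNat : ℕ) : ℤ) := by
          rw [Int.toNat_of_nonneg e0.le]
          exact d1
        have e2 := (Nat.prime_dvd_prime_iff_eq hp q2).1 (Int.natCast_dvd_natCast.1 e1)
        omega) (by
      -- the size
      have hVYW : cv ≤ VV (ZF F G N h) Y W :=
        VV_tail_low (D + 2) (ZF F G N h) Y W (by omega) (fun q hq => ZF_card F G N h hfix D hD (Pr_prime hq)) C1 b1
      have hnn : ∀ a b, 0 ≤ VV (ZF F G N h) a b := VV_nonneg' (ZF_card_le F G N h)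
      have hle1 : ∀ a b, VV (ZF F G N h) a b ≤ 1 := by
        intro a b
        unfold VV
        apply prod_le_one
        · intro q hq
          have hq0 : (0 : ℝ) < q := by exact_mod_cast (Pr_prime hq).pos
          rw [sub_nonneg, div_le_one hq0]
          exact_mod_cast ZF_card_le F G N h q
        · intro q _
          have : (0 : ℝ) ≤ ((ZF F G N h q).card : ℝ) / q := by positivity
          linarith
      have e1 : cv * VV (ZF F G N h) 0 Y ≤ VV (ZF F G N h) 0 W := by
        rw [← VV_split (ZF F G N h) (Nat.zero_le Y) hYW, mul_comm]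
        exact mul_le_mul_of_nonneg_left hVYW (hnn _ _)
      have e2 : VV (ZF F G N h) 0 W ≤ VV (ZF F G N h) 0 X := by
        rw [← VV_split (ZF F G N h) (Nat.zero_le X) hXW]
        exact mul_le_of_le_one_right (hnn _ _) (hle1 _ _)
      have e3 := hVlow g F G N h hfix hD W (by omega)
      have hLW : 0 < Real.log W := Real.log_pos (by linarith)
      -- the small elements are negligible
      have e4 : (G.natDegree + 1) * (Y : ℝ) ≤ δ * cv / 4 * W * VV (ZF F G N h) 0 Y := by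
        have f1 : (Y : ℝ) ≤ (W : ℝ) ^ (1 / 2 : ℝ) :=
          hYle.trans (Real.rpow_le_rpow_of_exponent_le hW1 (by linarith))
        have f2 : (W : ℝ) = (W : ℝ) ^ (1 / 2 : ℝ) * (W : ℝ) ^ (1 / 2 : ℝ) := by
          rw [← Real.rpow_add hW0]; norm_num
        have f3 : VV (ZF F G N h) 0 W ≤ VV (ZF F G N h) 0 Y := by
          rw [← VV_split (ZF F G N h) (Nat.zero_le Y) hYW]
          exact mul_le_of_le_one_right (hnn _ _) (hle1 _ _)
        have f4 : (G.natDegree + 1) ≤ δ * cv / 4 * (W : ℝ) ^ (1 / 2 : ℝ) * (cz / Real.log W ^ (D + 2)) := by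
          have f5 : δ * cv / 4 * (((G.natDegree + 1) * 4 / (δ * cv * cz)) * Real.log W ^ (D + 2)) * (cz / Real.log W ^ (D + 2)) =
              G.natDegree + 1 := by
            field_simp
          rw [← f5]
          gcongr
        calc (G.natDegree + 1) * (Y : ℝ) ≤ (δ * cv / 4 * (W : ℝ) ^ (1 / 2 : ℝ) * (cz / Real.log W ^ (D + 2))) * (W : ℝ) ^ (1 / 2 : ℝ) := by
              gcongr
          _ = δ * cv / 4 * ((W : ℝ) ^ (1 / 2 : ℝ) * (W : ℝ) ^ (1 / 2 : ℝ)) * (cz / Real.log W ^ (D + 2)) := by ring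
          _ = δ * cv / 4 * W * (cz / Real.log W ^ (D + 2)) := by rw [← f2]
          _ ≤ δ * cv / 4 * W * VV (ZF F G N h) 0 Y := by
              apply mul_le_mul_of_nonneg_left (e3.trans f3) (by positivity)
      have e5 : δ * cv / 2 * W * VV (ZF F G N h) 0 Y ≤ S.card := by
        refine le_trans ?_ hcard
        calc δ * cv / 2 * W * VV (ZF F G N h) 0 Y = δ * (W / 2) * (cv * VV (ZF F G N h) 0 Y) := by ring
          _ ≤ δ * X * VV (ZF F G N h) 0 X := by
              have := hnn 0 Y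
              apply mul_le_mul
              · apply mul_le_mul_of_nonneg_left _ hδ.le
                linarith
              · exact e1.trans e2
              · positivity
              · positivity
      have e6 : δ * cv / 2 * W * VV (ZF F G N h) 0 Y = 2 * (δ * cv / 4 * W * VV (ZF F G N h) 0 Y) := by ring
      linarith)
  obtain ⟨a, d, hd1, hd2, hd3⟩ := hres
  refine ⟨a, d, hd1, hd2.trans ?_, fun j hj => (mem_filter.1 (hd3 j hj)).1⟩
  have hlogW : Real.log W ≤ 2 * Real.log X := by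
    have e1 : (W : ℝ) ≤ (X : ℝ) ^ 2 := by nlinarith
    have e2 := Real.log_le_log hW0 e1
    rw [Real.log_pow] at e2
    push_cast at e2
    exact e2
  have hlX : 0 < Real.log X := Real.log_pos (by linarith)
  calc Real.log W ^ B ≤ (2 * Real.log X) ^ B := pow_le_pow_left₀ (Real.log_nonneg hW1) hlogW _
    _ = 2 ^ B * Real.log X ^ B := by rw [mul_pow]
    _ ≤ Real.log X * Real.log X ^ B := by
        apply mul_le_mul_of_nonneg_right _ (by positivity)
        linarith
    _ = _ := by rw [pow_succ']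

end Pool.Agent.K4H18.CH
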