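import Pool.Agent.K4H18.CH.H15

set_option autoImplicit false

/-! Narrow progressions of arguments, for almost all `N`. -/

namespace Pool.Agent.K4H18.CH

open Finset Polynomial Filter
open Pool.Agent.Y843.HS (Pr VV Pr_mem Pr_prime VV_split)
open Pool.Agent.Y840.CT (Rough)
open Pool.Agent.H373R2.T7.SHN (X1)

lemma X_large (G : ℤ[X]) (hG : 1 ≤ G.natDegree) (hGl : 0 < G.leadingCoeff) (K : ℕ) : ∃ N0 : ℕ, ∀ N : ℕ, N0 ≤ N →
    K ≤ X1 G N := by
  refine ⟨(∑ n ∈ Icc 1 K, (G.eval (n : ℤ)).natAbs) + 1, fun N hN => ?_⟩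
  have hsub : ((Icc 1 K : Finset ℕ) : Set ℕ) ⊆ {n : ℕ | 1 ≤ n ∧ 0 < (N : ℤ) - G.eval (n : ℤ)} := by
    intro n hn
    rw [mem_coe] at hn
    refine ⟨(mem_Icc.1 hn).1, ?_⟩
    have h1 := single_le_sum (f := fun n : ℕ => (G.eval (n : ℤ)).natAbs) (fun m _ => Nat.zero_le _) hn
    have h2 : G.eval (n : ℤ) ≤ (G.eval (n : ℤ)).natAbs := Int.le_natAbs
    have h3 : (((G.eval (n : ℤ)).natAbs + 1 : ℕ) : ℤ) ≤ (N : ℤ) := by exact_mod_cast (by omega)
    push_cast at h3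
    omega
  have h2 := Set.ncard_le_ncard hsub (fin_args G hG hGl N)
  rw [Set.ncard_coe_finset, Nat.card_Icc] at h2
  unfold X1
  omega

lemma Rough_mono {t t' : ℕ} (ht : 1 ≤ t) (htt : t ≤ t') {X : ℕ} {k : ℤ} (h : Rough t ((X : ℝ) ^ (1 / (t : ℝ))) k) :
    Rough t' ((X : ℝ) ^ (1 / (t' : ℝ))) k := by
  obtain ⟨h1, h2, h3⟩ := h
  refine ⟨h1, h2.trans htt, fun q hq hd => lt_of_le_of_lt ?_ (h3 q hq hd)⟩
  have ht0 : (0 : ℝ) < t := by exact_mod_cast ht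
  have ht0' : (0 : ℝ) < t' := by exact_mod_cast (ht.trans htt)
  rcases Nat.eq_zero_or_pos X with hX | hX
  · rw [hX, Nat.cast_zero, Real.zero_rpow (by positivity), Real.zero_rpow (by positivity)]
  · apply Real.rpow_le_rpow_of_exponent_le (by exact_mod_cast hX)
    apply one_div_le_one_div_of_le ht0
    exact_mod_cast htt

open Classical in
theorem final (D : ℕ) : ∃ t : ℕ, 1 ≤ t ∧ ∀ (k : ℕ) (δ : ℝ), 0 < δ → ∃ B : ℕ, ∀ (g : ℕ) (F : Fin g → ℤ[X]) (G : ℤ[X]),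
    (∀ i, 1 ≤ (F i).natDegree) → (∀ i, 0 < (F i).leadingCoeff) →
    1 ≤ G.natDegree → 0 < G.leadingCoeff → (∑ i, (F i).natDegree) + G.natDegree ≤ D →
    ∀ A U : ℕ, ∃ M0 : ℕ, ∀ M : ℕ, M0 ≤ M →
    (((Icc 1 M).filter (fun N : ℕ => ¬ (∀ h : ℤ, (|h| : ℝ) ≤ Real.log N ^ A → NoFix F G N h →
      ∀ S : Finset ℕ, (∀ n ∈ S, ArgG t F G N h n) → δ * ({n : ℕ | ArgG t F G N h n}.ncard : ℝ) ≤ S.card →
      ∃ a d : ℕ, 1 ≤ d ∧ (d : ℝ) ≤ Real.log (X1 G N) ^ B ∧ ∀ j < k, a + j * d ∈ S))).card : ℝ)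
      ≤ M / Real.log M ^ U := by
  obtain ⟨t1, ht1, c1, hc1, hal1⟩ := almost D
  obtain ⟨t0, ht0, c0, hc0, hal0⟩ := almost0 D
  refine ⟨max t1 t0, ht1.trans (le_max_left _ _), fun k δ hδ => ?_⟩
  obtain ⟨B, hB⟩ := apAll k D (max t1 t0) (ht1.trans (le_max_left _ _)) (δ * min c1 c0) (by positivity)
  refine ⟨B, fun g F G hF hFl hG hGl hD A U => ?_⟩
  obtain ⟨X₀, hap⟩ := hB g F G hG hGl hD
  obtain ⟨m1, h1⟩ := hal1 g F G hG hGl hD A (U + 1)
  obtain ⟨m0, h0⟩ := hal0 g F G hF hFl hG hGl hD (U + 1)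
  obtain ⟨N0, hN0⟩ := X_large G hG hGl X₀
  obtain ⟨m2, h2⟩ := ev_nat (U + 1) (N0 + 1) 1 one_pos
  obtain ⟨m3, h3⟩ := ev_lg 3
  refine ⟨max (max m1 m0) (max m2 (max m3 1)), fun M hM => ?_⟩
  have a1 := h1 M (by omega)
  have a0 := h0 M (by omega)
  have a2 := h2 M (by omega)
  have a3 := h3 M (by omega)
  rw [Real.rpow_one] at a2
  have hM0 : (0 : ℝ) < M := by exact_mod_cast (by omega : 0 < M)
  have hL0 : 0 < Real.log M := by linarith
  have hsub : (Icc 1 M).filter (fun N : ℕ => ¬ (∀ h : ℤ, (|h| : ℝ) ≤ Real.log N ^ A → NoFix F G N h →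
      ∀ S : Finset ℕ, (∀ n ∈ S, ArgG (max t1 t0) F G N h n) → δ * ({n : ℕ | ArgG (max t1 t0) F G N h n}.ncard : ℝ) ≤ S.card →
      ∃ a d : ℕ, 1 ≤ d ∧ (d : ℝ) ≤ Real.log (X1 G N) ^ B ∧ ∀ j < k, a + j * d ∈ S)) ⊆
      ((Icc 1 M).filter (fun N : ℕ => ¬ (∀ h : ℤ, h ≠ 0 → (|h| : ℝ) ≤ Real.log N ^ A → NoFix F G N h →
      c1 * (X1 G N : ℝ) * VV (ZF F G N h) 0 (X1 G N) ≤ ((Args t1 F G N h).ncard : ℝ))) ∪
      (Icc 1 M).filter (fun N : ℕ => ¬ (NoFix F G N 0 →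
      c0 * (X1 G N : ℝ) * VV (ZF F G N 0) 0 (X1 G N) ≤ ((Args0 t0 F G N).ncard : ℝ)))) ∪ range N0 := by
    intro N hN
    rw [mem_filter] at hN
    obtain ⟨hNM, hcon⟩ := hN
    rw [mem_union, mem_union, mem_range]
    by_contra hno
    rw [not_or, not_or, not_lt] at hno
    obtain ⟨⟨n1, n2⟩, n3⟩ := hno
    have g1 : ∀ h : ℤ, h ≠ 0 → (|h| : ℝ) ≤ Real.log N ^ A → NoFix F G N h →
      c1 * (X1 G N : ℝ) * VV (ZF F G N h) 0 (X1 G N) ≤ ((Args t1 F G N h).ncard : ℝ) := by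
      by_contra hh
      exact n1 (mem_filter.2 ⟨hNM, hh⟩)
    have g2 : NoFix F G N 0 →
      c0 * (X1 G N : ℝ) * VV (ZF F G N 0) 0 (X1 G N) ≤ ((Args0 t0 F G N).ncard : ℝ) := by
      by_contra hh
      exact n2 (mem_filter.2 ⟨hNM, hh⟩)
    apply hcon
    intro h hhA hfix S hS hcard
    apply hap N h (mem_Icc.1 hNM).1 (hN0 N n3) hfix S hS
    refine le_trans ?_ hcard
    have hfin : {n : ℕ | ArgG (max t1 t0) F G N h n}.Finite := by
      apply Set.Finite.subset (fin_args G hG hGl N)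
      rintro n ⟨e1, e2, -⟩
      refine ⟨e1.one_lt.le, ?_⟩
      by_contra hneg
      push Not at hneg
      rw [Int.toNat_of_nonpos hneg] at e2
      exact Nat.not_prime_zero e2
    have hVnn := VV_nonneg' (ZF_card_le F G N h) 0 (X1 G N)
    have hkey : min c1 c0 * (X1 G N : ℝ) * VV (ZF F G N h) 0 (X1 G N) ≤ ({n : ℕ | ArgG (max t1 t0) F G N h n}.ncard : ℝ) := by
      by_cases hh : h = 0
      · subst hh
        have e1 : (Args0 t0 F G N).ncard ≤ {n : ℕ | ArgG (max t1 t0) F G N 0 n}.ncard := by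
          apply Set.ncard_le_ncard _ hfin
          rintro n ⟨f1, f2, f3⟩
          exact ⟨f1, f2, Or.inl rfl, fun i => Rough_mono ht0 (le_max_right _ _) (f3 i)⟩
        calc min c1 c0 * (X1 G N : ℝ) * VV (ZF F G N 0) 0 (X1 G N) ≤ c0 * (X1 G N : ℝ) * VV (ZF F G N 0) 0 (X1 G N) := by
              gcongr
              exact min_le_right _ _
          _ ≤ _ := (g2 hfix).trans (by exact_mod_cast e1)
      · have e1 : (Args t1 F G N h).ncard ≤ {n : ℕ | ArgG (max t1 t0) F G N h n}.ncard := by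
          apply Set.ncard_le_ncard _ hfin
          rintro n ⟨f1, f2, f3, f4⟩
          exact ⟨f1, f2, Or.inr f3, fun i => Rough_mono ht1 (le_max_left _ _) (f4 i)⟩
        calc min c1 c0 * (X1 G N : ℝ) * VV (ZF F G N h) 0 (X1 G N) ≤ c1 * (X1 G N : ℝ) * VV (ZF F G N h) 0 (X1 G N) := by
              gcongr
              exact min_le_left _ _
          _ ≤ _ := (g1 h hh hhA hfix).trans (by exact_mod_cast e1)
    calc δ * min c1 c0 * (X1 G N : ℝ) * VV (ZF F G N h) 0 (X1 G N) =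
          δ * (min c1 c0 * (X1 G N : ℝ) * VV (ZF F G N h) 0 (X1 G N)) := by ring
      _ ≤ _ := mul_le_mul_of_nonneg_left hkey hδ.le
  have hc := (card_le_card hsub).trans ((card_union_le _ _).trans (Nat.add_le_add_right (card_union_le _ _) _))
  rw [card_range] at hc
  have hc' := (Nat.cast_le (α := ℝ)).2 hc
  refine hc'.trans ?_
  push_cast
  have e1 : (N0 : ℝ) ≤ M / Real.log M ^ (U + 1) := by
    rw [le_div_iff₀ (by positivity)]
    refine le_trans ?_ a2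
    apply mul_le_mul_of_nonneg_right _ (by positivity)
    linarith
  have e2 : (M : ℝ) / Real.log M ^ (U + 1) ≤ M / Real.log M ^ U / 3 := by
    rw [pow_succ, ← div_div]
    exact div_le_div_of_nonneg_left (by positivity) (by norm_num) a3
  linarith [a1, a0]

end Pool.Agent.K4H18.CH
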