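import Pool.Agent.K4H18.CH.H1
import Pool.Agent.H373R2.T7.SHN2

set_option autoImplicit false

/-! The range of the arguments for the `N` of a block. -/

namespace Pool.Agent.K4H18.CH

open Finset Polynomial
open Pool.Agent.H373R2.T7.SHN (X1)

lemma growth (G : ℤ[X]) (hG : 1 ≤ G.natDegree) (hGl : 0 < G.leadingCoeff) : ∃ n1 : ℕ, 1 ≤ n1 ∧ ∀ n : ℕ, n1 ≤ n →
    (1 / 2 : ℝ) * (n : ℝ) ^ G.natDegree ≤ ((G.eval (n : ℤ) : ℤ) : ℝ) ∧
    ((G.eval (n : ℤ) : ℤ) : ℝ) ≤ 2 * (G.leadingCoeff : ℝ) * (n : ℝ) ^ G.natDegree := by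
  set P : ℝ[X] := G.map (Int.castRingHom ℝ) with hP
  have hinj : Function.Injective (Int.castRingHom ℝ) := (Int.castRingHom ℝ).injective_int
  have hd : P.natDegree = G.natDegree := natDegree_map_eq_of_injective hinj G
  have hl : P.leadingCoeff = (G.leadingCoeff : ℝ) := by
    rw [hP, leadingCoeff_map_of_injective hinj]
    simp
  have h1 := (Polynomial.isEquivalent_atTop_lead P).isLittleO.bound (show (0 : ℝ) < 1 / 2 by norm_num)
  have h2 := (tendsto_natCast_atTop_atTop (R := ℝ)).eventually h1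
  obtain ⟨n0, h3⟩ := Filter.eventually_atTop.1 h2
  refine ⟨max n0 1, le_max_right _ _, fun n hn => ?_⟩
  have h4 := h3 n ((le_max_left _ _).trans hn)
  have he : eval (n : ℝ) P = ((G.eval (n : ℤ) : ℤ) : ℝ) := by
    have := eval_intCast_map (Int.castRingHom ℝ) G (n : ℤ)
    rw [hP]
    simpa using this
  simp only [Pi.sub_apply] at h4
  rw [he, hd, hl, Real.norm_eq_abs, Real.norm_eq_abs] at h4
  have hlr : (1 : ℝ) ≤ (G.leadingCoeff : ℝ) := by exact_mod_cast hGl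
  have hp : 0 ≤ (n : ℝ) ^ G.natDegree := by positivity
  rw [abs_of_nonneg (show 0 ≤ (G.leadingCoeff : ℝ) * (n : ℝ) ^ G.natDegree by positivity)] at h4
  obtain ⟨h5, h6⟩ := abs_le.1 h4
  constructor <;> nlinarith

theorem block_x (G : ℤ[X]) (hG : 1 ≤ G.natDegree) (hGl : 0 < G.leadingCoeff) :
    ∃ (B : ℕ) (κ : ℝ) (k0 : ℕ), 1 ≤ B ∧ 0 < κ ∧ κ ≤ 1 ∧ ∀ k : ℕ, k0 ≤ k → ∃ x : ℕ,
      2 ^ (k + 1) ≤ B * x ^ G.natDegree ∧ x ^ G.natDegree ≤ B * 2 ^ (k + 1) ∧
      (∀ n : ℕ, x < n → ((2 ^ (k + 1) : ℕ) : ℤ) ≤ G.eval (n : ℤ)) ∧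
      (∀ N : ℕ, 2 ^ k ≤ N → κ * x ≤ (X1 G N : ℝ)) ∧
      Real.log x ≤ k ∧ (k : ℝ) ≤ 2 * G.natDegree * Real.log x := by
  classical
  obtain ⟨n1, hn1, hg⟩ := growth G hG hGl
  set d := G.natDegree with hd
  set l : ℝ := (G.leadingCoeff : ℝ) with hl
  have hl1 : 1 ≤ l := by
    rw [hl]
    exact_mod_cast hGl
  have hd0 : (0 : ℝ) < d := by exact_mod_cast (by omega : 0 < d)
  have hd1 : (1 : ℝ) ≤ d := by exact_mod_cast hG
  set C0 : ℕ := ⌈16 * l⌉₊ * (2 * n1 + 2) with hC0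
  have hC0r : 16 * l * (2 * n1 + 2) ≤ (C0 : ℝ) := by
    rw [hC0]
    push_cast
    exact mul_le_mul_of_nonneg_right (Nat.le_ceil _) (by positivity)
  have hn1r : (1 : ℝ) ≤ n1 := by exact_mod_cast hn1
  refine ⟨2 ^ (d + 1), 1 / (64 * l), C0 ^ d + 7, Nat.one_le_two_pow, by positivity, ?_, fun k hk => ?_⟩
  · rw [div_le_one (by positivity)]
    linarith
  set T : ℝ := 4 * 2 ^ k with hT
  have hT0 : 0 < T := by positivity
  have hT1 : 1 ≤ T := by
    have : (1 : ℝ) ≤ 2 ^ k := one_le_pow₀ (by norm_num)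
    rw [hT]; linarith
  set u : ℝ := T ^ (1 / (d : ℝ)) with hu
  have hud : u ^ d = T := by
    rw [hu, ← Real.rpow_natCast, ← Real.rpow_mul hT0.le, one_div_mul_cancel hd0.ne', Real.rpow_one]
  have hu0 : 0 < u := by positivity
  have huC : (C0 : ℝ) ≤ u := by
    have h1 : (C0 : ℝ) ^ d ≤ T := by
      have h2 : C0 ^ d ≤ 2 ^ k := (by omega : C0 ^ d ≤ k).trans (Nat.lt_two_pow_self).le
      have h3 : ((C0 ^ d : ℕ) : ℝ) ≤ ((2 ^ k : ℕ) : ℝ) := by exact_mod_cast h2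
      push_cast at h3
      rw [hT]
      have : (0 : ℝ) ≤ 2 ^ k := by positivity
      linarith
    rw [← hud] at h1
    exact le_of_pow_le_pow_left₀ (by omega) hu0.le h1
  have hC01 : (32 : ℝ) ≤ C0 := by nlinarith
  have hu1 : 1 ≤ u := by linarith
  set x := ⌈u⌉₊ with hx
  have hxu : u ≤ x := Nat.le_ceil _
  have hxu2 : (x : ℝ) ≤ 2 * u := by
    have := Nat.ceil_lt_add_one hu0.le
    linarith
  have hx0 : (0 : ℝ) < x := by linarith
  refine ⟨x, ?_, ?_, ?_, ?_, ?_, ?_⟩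
  · have h1 : ((2 : ℝ)) ^ (k + 1) ≤ (x : ℝ) ^ d := by
      have h2 : u ^ d ≤ (x : ℝ) ^ d := pow_le_pow_left₀ hu0.le hxu d
      rw [hud, hT] at h2
      have : (0 : ℝ) ≤ 2 ^ k := by positivity
      rw [pow_succ]
      linarith
    have h3 : 2 ^ (k + 1) ≤ x ^ d := by exact_mod_cast h1
    calc 2 ^ (k + 1) ≤ x ^ d := h3
      _ ≤ 2 ^ (d + 1) * x ^ d := Nat.le_mul_of_pos_left _ (by positivity)
  · have h1 : (x : ℝ) ^ d ≤ 2 ^ (d + 1) * 2 ^ (k + 1) := by
      calc (x : ℝ) ^ d ≤ (2 * u) ^ d := pow_le_pow_left₀ hx0.le hxu2 d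
        _ = 2 ^ d * T := by rw [mul_pow, hud]
        _ = 2 ^ (d + 1) * 2 ^ (k + 1) := by rw [hT, pow_succ, pow_succ]; ring
    exact_mod_cast h1
  · intro n hn
    have hnr : (x : ℝ) ≤ n := by exact_mod_cast hn.le
    have hnn1 : n1 ≤ n := by
      have : (n1 : ℝ) ≤ n := by nlinarith
      exact_mod_cast this
    have h1 := (hg n hnn1).1
    have h2 : u ^ d ≤ (n : ℝ) ^ d := pow_le_pow_left₀ hu0.le (hxu.trans hnr) d
    rw [hud, hT] at h2
    have h3 : ((2 ^ (k + 1) : ℕ) : ℝ) ≤ ((G.eval (n : ℤ) : ℤ) : ℝ) := by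
      push_cast
      rw [pow_succ]
      linarith
    exact_mod_cast h3
  · intro N hN
    have hNr : (2 : ℝ) ^ k ≤ N := by exact_mod_cast hN
    set y : ℝ := u / (16 * l) with hy
    have hy0 : 0 < y := by positivity
    have hyd : y ^ d ≤ 2 ^ k / (4 * l) := by
      have h1 : 16 * l ≤ (16 * l) ^ d := le_self_pow₀ (by linarith) (by omega)
      calc y ^ d = T / (16 * l) ^ d := by rw [hy, div_pow, hud]
        _ ≤ T / (16 * l) := div_le_div_of_nonneg_left hT0.le (by positivity) h1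
        _ = _ := by rw [hT]; field_simp; norm_num
    have hyn : 2 * (n1 : ℝ) + 2 ≤ y := by
      rw [hy, le_div_iff₀ (by positivity)]
      calc (2 * (n1 : ℝ) + 2) * (16 * l) = 16 * l * (2 * n1 + 2) := by ring
        _ ≤ C0 := hC0r
        _ ≤ u := huC
    -- the arguments in `[n1, y]`
    have hsub : ((Icc n1 ⌊y⌋₊ : Finset ℕ) : Set ℕ) ⊆ {n : ℕ | 1 ≤ n ∧ 0 < (N : ℤ) - G.eval (n : ℤ)} := by
      intro n hn
      rw [mem_coe, mem_Icc] at hn
      refine ⟨hn1.trans hn.1, ?_⟩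
      have h1 := (hg n hn.1).2
      have h2 : (n : ℝ) ≤ y := (Nat.le_floor_iff hy0.le).1 hn.2
      have h3 : (n : ℝ) ^ d ≤ y ^ d := pow_le_pow_left₀ (Nat.cast_nonneg _) h2 d
      have h4 : 2 * l * (n : ℝ) ^ d ≤ 2 ^ k / 2 := by
        calc 2 * l * (n : ℝ) ^ d ≤ 2 * l * (2 ^ k / (4 * l)) := mul_le_mul_of_nonneg_left (h3.trans hyd) (by positivity)
          _ = _ := by field_simp; norm_num
      have h5 : (0 : ℝ) < 2 ^ k := by positivity
      have h6 : ((G.eval (n : ℤ) : ℤ) : ℝ) < N := by linarith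
      have h7 : G.eval (n : ℤ) < (N : ℤ) := by exact_mod_cast h6
      linarith
    have hfin : {n : ℕ | 1 ≤ n ∧ 0 < (N : ℤ) - G.eval (n : ℤ)}.Finite := by
      apply Set.Finite.subset (Set.finite_Iic (n1 + 2 * N))
      rintro n ⟨h1, h2⟩
      rw [Set.mem_Iic]
      by_contra hcon
      push Not at hcon
      have h3 := (hg n (by omega)).1
      have h4 : (n : ℝ) ≤ (n : ℝ) ^ d := le_self_pow₀ (by exact_mod_cast h1) (by omega)
      have h5 : ((G.eval (n : ℤ) : ℤ) : ℝ) < N := by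
        have : G.eval (n : ℤ) < (N : ℤ) := by linarith
        exact_mod_cast this
      have h6 : (n1 : ℝ) + 2 * N < n := by exact_mod_cast hcon
      have h7 : (0 : ℝ) ≤ n1 := Nat.cast_nonneg _
      linarith
    have h1 := Set.ncard_le_ncard hsub hfin
    rw [Set.ncard_coe_finset, Nat.card_Icc] at h1
    have h2 : (y : ℝ) < ⌊y⌋₊ + 1 := Nat.lt_floor_add_one y
    have h3 : ((⌊y⌋₊ + 1 : ℕ) : ℝ) ≤ (X1 G N : ℝ) + n1 := by
      have : ⌊y⌋₊ + 1 ≤ X1 G N + n1 := by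
        unfold X1
        omega
      exact_mod_cast this
    push_cast at h3
    have h4 : (1 / (64 * l)) * x ≤ y / 2 := by
      rw [hy]
      calc (1 / (64 * l)) * x ≤ (1 / (64 * l)) * (2 * u) := mul_le_mul_of_nonneg_left hxu2 (by positivity)
        _ = _ := by field_simp; norm_num
    linarith
  · have h1 : (x : ℝ) ≤ 2 ^ (k + 3) := by
      have h2 : u ≤ T := by
        rw [hu]
        calc T ^ (1 / (d : ℝ)) ≤ T ^ (1 : ℝ) := by
              apply Real.rpow_le_rpow_of_exponent_le hT1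
              rw [div_le_one hd0]
              exact hd1
          _ = T := Real.rpow_one _
      have h3 : (2 : ℝ) ^ (k + 3) = 8 * 2 ^ k := by rw [pow_add]; ring
      rw [h3]
      rw [hT] at h2
      linarith
    have h2 := Real.log_le_log hx0 h1
    rw [Real.log_pow] at h2
    push_cast at h2
    have h3 := Real.log_two_lt_d9
    have h4 : (7 : ℝ) ≤ k := by exact_mod_cast (by omega : 7 ≤ k)
    nlinarith
  · have h1 : Real.log T ≤ d * Real.log x := by
      have h2 : Real.log u ≤ Real.log x := Real.log_le_log hu0 hxu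
      rw [← hud, Real.log_pow]
      exact mul_le_mul_of_nonneg_left h2 hd0.le
    have h2 : (k : ℝ) * Real.log 2 ≤ Real.log T := by
      rw [← Real.log_pow]
      apply Real.log_le_log (by positivity)
      rw [hT]
      have : (0 : ℝ) ≤ 2 ^ k := by positivity
      linarith
    have h3 := Real.log_two_gt_d9
    have h4 : (0 : ℝ) ≤ k := Nat.cast_nonneg _
    nlinarith

end Pool.Agent.K4H18.CH
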