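import Pool.Agent.K4H18.CH.H2
import Pool.Agent.Y840.CT.LowF
import Pool.Agent.H373R2.T7.PB2

set_option autoImplicit false

/-! The forbidden classes of the arguments. -/

namespace Pool.Agent.K4H18.CH

open Finset Polynomial
open Pool.Agent.Y840.CT (rho SysF GoodF VF VF_low VF_mono genF)
open Pool.Agent.H373R2.T7 (lamP lamzI lamz pz mem_pz Vz Vz_pos Vz_le_one lamP_nonneg lamzI_nonneg markov)

/-- the residues `r` modulo `q` with `F(r) ≡ 0`, and, for `q ≤ z`, those with `G(r) ≡ N` -/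
noncomputable def Rs {g : ℕ} (F : Fin g → ℤ[X]) (G : ℤ[X]) (N z q : ℕ) : Finset ℕ :=
  (range q).filter (fun r : ℕ => (q : ℤ) ∣ ∏ i, (F i).eval (r : ℤ) ∨ (q ≤ z ∧ (q : ℤ) ∣ (N : ℤ) - G.eval (r : ℤ)))

/-- the forbidden classes of the arguments modulo `q` -/
noncomputable def Cl {g : ℕ} (F : Fin g → ℤ[X]) (G : ℤ[X]) (N : ℕ) (h : ℤ) (z q : ℕ) : Finset ℤ :=
  insert (-h) ((Rs F G N z q).image (fun r : ℕ => (r : ℤ)))

/-- the number of residues `r` modulo `q` with `r (r + h) F(r) ≡ 0`, or, if `q ≤ z`, with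
`G(r) ≡ N` -/
noncomputable def om {g : ℕ} (F : Fin g → ℤ[X]) (G : ℤ[X]) (N : ℕ) (h : ℤ) (z q : ℕ) : ℕ :=
  ((range q).filter (fun r : ℕ => (q : ℤ) ∣ (r : ℤ) * (r + h) * ∏ i, (F i).eval (r : ℤ) ∨
    (q ≤ z ∧ (q : ℤ) ∣ (N : ℤ) - G.eval (r : ℤ)))).card

/-- no fixed prime divisor -/
def NoFix {g : ℕ} (F : Fin g → ℤ[X]) (G : ℤ[X]) (N : ℕ) (h : ℤ) : Prop :=
  ∀ q : ℕ, q.Prime → ∃ n : ℤ, ¬ (q : ℤ) ∣ n * (n + h) * (∏ i, (F i).eval n) * ((N : ℤ) - G.eval n)

lemma eval_mod (P : ℤ[X]) (a b m : ℤ) (h : m ∣ a - b) : m ∣ P.eval a ↔ m ∣ P.eval b := by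
  have h1 : m ∣ P.eval a - P.eval b := h.trans (Polynomial.sub_dvd_eval_sub a b P)
  constructor
  · intro h2
    have := dvd_sub h2 h1
    simpa using this
  · intro h2
    have := dvd_add h1 h2
    simpa using this

lemma prod_eval {g : ℕ} (F : Fin g → ℤ[X]) (n : ℤ) : ∏ i, (F i).eval n = (∏ i, F i).eval n := by
  rw [Polynomial.eval_prod]

lemma NG_eval (G : ℤ[X]) (N : ℕ) (n : ℤ) : (N : ℤ) - G.eval n = (C (N : ℤ) - G).eval n := by
  simp

lemma Rs_iff {g : ℕ} (F : Fin g → ℤ[X]) (G : ℤ[X]) (N z : ℕ) {q : ℕ} (hq : 0 < q) (n : ℕ) :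
    ((q : ℤ) ∣ ∏ i, (F i).eval (n : ℤ) ∨ (q ≤ z ∧ (q : ℤ) ∣ (N : ℤ) - G.eval (n : ℤ))) ↔ n % q ∈ Rs F G N z q := by
  unfold Rs
  rw [mem_filter, mem_range]
  have h1 : (q : ℤ) ∣ (n : ℤ) - ((n % q : ℕ) : ℤ) := by
    rw [Int.natCast_mod]
    exact Int.dvd_self_sub_emod
  rw [prod_eval, prod_eval, NG_eval, NG_eval, eval_mod _ _ _ _ h1, eval_mod (C (N : ℤ) - G) _ _ _ h1]
  exact ⟨fun h => ⟨Nat.mod_lt _ hq, h⟩, fun h => h.2⟩

lemma nat_of_int {q : ℕ} (hq : 0 < q) (n : ℤ) : ∃ r : ℕ, r < q ∧ (q : ℤ) ∣ n - r := by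
  have hq0 : (q : ℤ) ≠ 0 := by exact_mod_cast hq.ne'
  have h1 : 0 ≤ n % q := Int.emod_nonneg _ hq0
  have h2 : n % q < q := Int.emod_lt_of_pos _ (by exact_mod_cast hq)
  refine ⟨(n % q).toNat, by omega, ?_⟩
  rw [Int.toNat_of_nonneg h1]
  exact Int.dvd_self_sub_emod

lemma Rs_card {g : ℕ} (F : Fin g → ℤ[X]) (G : ℤ[X]) (N : ℕ) (h : ℤ) (z : ℕ) (hN : NoFix F G N h) {q : ℕ}
    (hq : q.Prime) : (Rs F G N z q).card ≤ (∑ i, (F i).natDegree) + G.natDegree := by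
  obtain ⟨n, hn⟩ := hN q hq
  have hF : ∃ n : ℤ, ¬ (q : ℤ) ∣ (∏ i, F i).eval n := by
    refine ⟨n, fun hd => hn ?_⟩
    rw [← prod_eval] at hd
    exact dvd_mul_of_dvd_left (dvd_mul_of_dvd_right hd _) _
  have hG : ∃ n : ℤ, ¬ (q : ℤ) ∣ (C (N : ℤ) - G).eval n := by
    refine ⟨n, fun hd => hn ?_⟩
    rw [← NG_eval] at hd
    exact dvd_mul_of_dvd_right hd _
  have h1 := Pool.Agent.H373R2.T7.PB.roots_nz (∏ i, F i) q hq hF
  have h2 := Pool.Agent.H373R2.T7.PB.roots_nz (C (N : ℤ) - G) q hq hG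
  have h3 : (∏ i, F i).natDegree ≤ ∑ i, (F i).natDegree := Polynomial.natDegree_prod_le _ _
  have h4 : (C (N : ℤ) - G).natDegree ≤ G.natDegree := by
    refine (Polynomial.natDegree_sub_le _ _).trans ?_
    rw [natDegree_C]
    simp
  have hsub : Rs F G N z q ⊆ ((range q).filter (fun r : ℕ => (q : ℤ) ∣ (∏ i, F i).eval (r : ℤ))) ∪
      ((range q).filter (fun r : ℕ => (q : ℤ) ∣ (C (N : ℤ) - G).eval (r : ℤ))) := by
    intro r hr
    unfold Rs at hr
    rw [mem_filter] at hr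
    rw [mem_union, mem_filter, mem_filter]
    rcases hr.2 with h5 | h5
    · left
      rw [← prod_eval]
      exact ⟨hr.1, h5⟩
    · right
      rw [← NG_eval]
      exact ⟨hr.1, h5.2⟩
  refine (card_le_card hsub).trans ((card_union_le _ _).trans ?_)
  exact Nat.add_le_add (h1.trans h3) (h2.trans h4)

lemma Cl_card {g : ℕ} (F : Fin g → ℤ[X]) (G : ℤ[X]) (N : ℕ) (h : ℤ) (z : ℕ) (hN : NoFix F G N h) {q : ℕ}
    (hq : q.Prime) : (Cl F G N h z q).card ≤ (∑ i, (F i).natDegree) + G.natDegree + 1 := by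
  unfold Cl
  refine (card_insert_le _ _).trans (Nat.add_le_add_right ?_ 1)
  exact card_image_le.trans (Rs_card F G N h z hN hq)

lemma Cl_image {g : ℕ} (F : Fin g → ℤ[X]) (G : ℤ[X]) (N : ℕ) (h : ℤ) (z : ℕ) {q : ℕ} (hq : q.Prime) :
    (insert 0 (Cl F G N h z q)).image (fun a => a % (q : ℤ)) =
      ((range q).filter (fun r : ℕ => (q : ℤ) ∣ (r : ℤ) * (r + h) * ∏ i, (F i).eval (r : ℤ) ∨
        (q ≤ z ∧ (q : ℤ) ∣ (N : ℤ) - G.eval (r : ℤ)))).image (fun r : ℕ => (r : ℤ)) := by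
  have hq0 : (q : ℤ) ≠ 0 := by exact_mod_cast hq.pos.ne'
  have hqp : Prime (q : ℤ) := Nat.prime_iff_prime_int.1 hq
  ext a
  rw [mem_image, mem_image]
  constructor
  · rintro ⟨b, hb, rfl⟩
    have h1 : 0 ≤ b % q := Int.emod_nonneg _ hq0
    have h2 : b % q < q := Int.emod_lt_of_pos _ (by exact_mod_cast hq.pos)
    have h4 : (q : ℤ) ∣ b - b % q := Int.dvd_self_sub_emod
    refine ⟨(b % q).toNat, ?_, Int.toNat_of_nonneg h1⟩
    rw [mem_filter, mem_range, Int.toNat_of_nonneg h1]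
    refine ⟨by omega, ?_⟩
    rw [mem_insert] at hb
    unfold Cl at hb
    rw [mem_insert, mem_image] at hb
    rcases hb with rfl | rfl | ⟨r, hr, rfl⟩
    · left
      simp
    · left
      apply dvd_mul_of_dvd_left
      apply dvd_mul_of_dvd_right
      have h3 : (-h) % (q : ℤ) + h = -(-h - -h % (q : ℤ)) := by ring
      rw [h3, dvd_neg]
      exact h4
    · unfold Rs at hr
      rw [mem_filter, mem_range] at hr
      have h3 : (r : ℤ) % q = r := by
        apply Int.emod_eq_of_lt (by positivity)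
        exact_mod_cast hr.1
      rw [h3]
      rcases hr.2 with h5 | h5
      · left
        exact dvd_mul_of_dvd_right h5 _
      · exact Or.inr h5
  · rintro ⟨r, hr, rfl⟩
    rw [mem_filter, mem_range] at hr
    have h3 : (r : ℤ) % q = r := by
      apply Int.emod_eq_of_lt (by positivity)
      exact_mod_cast hr.1
    rcases hr.2 with h5 | h5
    · rcases hqp.dvd_or_dvd h5 with h6 | h6
      · rcases hqp.dvd_or_dvd h6 with h7 | h7
        · refine ⟨0, mem_insert_self _ _, ?_⟩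
          have h8 : (r : ℤ) % q = 0 := Int.emod_eq_zero_of_dvd h7
          rw [h3] at h8
          simp [h8]
        · refine ⟨-h, mem_insert_of_mem (mem_insert_self _ _), ?_⟩
          have h8 : (-h) % (q : ℤ) = (r : ℤ) % q := by
            have h9 : (-h) ≡ (r : ℤ) [ZMOD (q : ℤ)] := by
              rw [Int.modEq_iff_dvd, sub_neg_eq_add]
              exact h7
            exact h9
          simpa [h3] using h8
      · refine ⟨r, mem_insert_of_mem ?_, h3⟩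
        unfold Cl
        apply mem_insert_of_mem
        apply mem_image_of_mem
        unfold Rs
        rw [mem_filter, mem_range]
        exact ⟨hr.1, Or.inl h6⟩
    · refine ⟨r, mem_insert_of_mem ?_, h3⟩
      unfold Cl
      apply mem_insert_of_mem
      apply mem_image_of_mem
      unfold Rs
      rw [mem_filter, mem_range]
      exact ⟨hr.1, Or.inr h5⟩

lemma rho_Cl {g : ℕ} (F : Fin g → ℤ[X]) (G : ℤ[X]) (N : ℕ) (h : ℤ) (z : ℕ) {q : ℕ} (hq : q.Prime) :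
    rho (Cl F G N h z q) q = om F G N h z q := by
  unfold rho om
  rw [Cl_image F G N h z hq, card_image_of_injective]
  intro a b hab
  simpa using hab

lemma om_lt {g : ℕ} (F : Fin g → ℤ[X]) (G : ℤ[X]) (N : ℕ) (h : ℤ) (z : ℕ) (hN : NoFix F G N h) {q : ℕ}
    (hq : q.Prime) : om F G N h z q < q := by
  have hqp : Prime (q : ℤ) := Nat.prime_iff_prime_int.1 hq
  obtain ⟨n, hn⟩ := hN q hq
  obtain ⟨r, hr, hd⟩ := nat_of_int hq.pos n
  unfold om
  have h1 : (range q).filter (fun r : ℕ => (q : ℤ) ∣ (r : ℤ) * (r + h) * ∏ i, (F i).eval (r : ℤ) ∨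
    (q ≤ z ∧ (q : ℤ) ∣ (N : ℤ) - G.eval (r : ℤ))) ⊆ (range q).erase r := by
    intro s hs
    rw [mem_filter] at hs
    rw [mem_erase]
    refine ⟨?_, hs.1⟩
    rintro rfl
    apply hn
    rw [prod_eval, NG_eval]
    have e1 : ((s : ℤ) * (s + h) * ∏ i, (F i).eval (s : ℤ)) = (X * (X + C h) * ∏ i, F i).eval (s : ℤ) := by
      rw [prod_eval]
      simp
    have e2 : (n * (n + h) * (∏ i, F i).eval n) = (X * (X + C h) * ∏ i, F i).eval n := by
      simp
    rcases hs.2 with h5 | h5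
    · apply dvd_mul_of_dvd_left
      rw [e2, eval_mod _ _ _ _ hd, ← e1]
      exact h5
    · apply dvd_mul_of_dvd_right
      rw [eval_mod _ _ _ _ hd, ← NG_eval]
      exact h5.2
  have h2 := card_le_card h1
  rw [card_erase_of_mem (mem_range.2 hr), card_range] at h2
  have := hq.pos
  omega

lemma sys_Cl {g : ℕ} (F : Fin g → ℤ[X]) (G : ℤ[X]) (N : ℕ) (h : ℤ) (z : ℕ) (hN : NoFix F G N h) (hh : h ≠ 0)
    (x D : ℕ) (hx : |h| ≤ x) (hD : (∑ i, (F i).natDegree) + G.natDegree ≤ D) : SysF (D + 1) x (Cl F G N h z) (-h) where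
  card q hq := (Cl_card F G N h z hN hq).trans (by omega)
  ne := by simpa using hh
  size := by rwa [abs_neg]
  mem q hq := by unfold Cl; exact mem_insert_self _ _
  loc q hq := by rw [rho_Cl F G N h z hq]; exact om_lt F G N h z hN hq

end Pool.Agent.K4H18.CH
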