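import Pool.Agent.K4H18.CH.H3

set_option autoImplicit false

/-! Chen's theorem along the arguments `n` with `N - G(n)` prime. -/

namespace Pool.Agent.K4H18.CH

open Finset Polynomial
open Pool.Agent.Y840.CT (rho SysF GoodF VF VF_low VF_mono genF)
open Pool.Agent.Y840.CT (Rough)
open Pool.Agent.H373R2.T7 (lamP lamzI lamz pz mem_pz Vz Vz_pos Vz_le_one lamP_nonneg lamzI_nonneg markov)
open Pool.Agent.H373R2.T7.SHN (X1)

/-- `n` is a prime, `n + h` has at most two prime factors, all `> x ^ (1/9)`, and `F(n)` is free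
of the primes `≤ x ^ (1/t)` -/
def Arg (t x : ℕ) {g : ℕ} (F : Fin g → ℤ[X]) (h : ℤ) (n : ℕ) : Prop :=
  n.Prime ∧ Rough 2 ((x : ℝ) ^ (1 / 9 : ℝ)) (-h - n) ∧
    ∀ q : ℕ, q.Prime → (q : ℝ) ≤ (x : ℝ) ^ (1 / (t : ℝ)) → ¬ (q : ℤ) ∣ ∏ i, (F i).eval (n : ℤ)

lemma ev_rpow (k : ℕ) (a : ℝ) (ha : 0 < a) : ∃ N0 : ℕ, ∀ N : ℕ, N0 ≤ N → Real.log N ^ k ≤ (N : ℝ) ^ a := by
  obtain ⟨N0, h⟩ := ev_nat k 1 a ha
  exact ⟨N0, fun N hN => by simpa using h N hN⟩

lemma eval_bound (G : ℤ[X]) : ∃ C : ℕ, ∀ x : ℕ, 1 ≤ x → ∀ n : ℕ, n ≤ x → |G.eval (n : ℤ)| ≤ C * (x : ℤ) ^ G.natDegree := by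
  refine ⟨∑ i ∈ range (G.natDegree + 1), (G.coeff i).natAbs, fun x hx n hn => ?_⟩
  rw [Polynomial.eval_eq_sum_range]
  refine (abs_sum_le_sum_abs _ _).trans ?_
  push_cast
  rw [sum_mul]
  apply sum_le_sum
  intro i hi
  rw [mem_range] at hi
  rw [abs_mul, abs_pow, Nat.abs_cast]
  apply mul_le_mul_of_nonneg_left _ (abs_nonneg _)
  calc (n : ℤ) ^ i ≤ (x : ℤ) ^ i := pow_le_pow_left₀ (by positivity) (by exact_mod_cast hn) _
    _ ≤ (x : ℤ) ^ G.natDegree := pow_le_pow_right₀ (by exact_mod_cast hx) (by omega)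

open Classical in
theorem core (D : ℕ) : ∃ t : ℕ, 1 ≤ t ∧ ∃ c : ℝ, 0 < c ∧ ∀ (g : ℕ) (F : Fin g → ℤ[X]) (G : ℤ[X]),
    1 ≤ G.natDegree → 0 < G.leadingCoeff → (∑ i, (F i).natDegree) + G.natDegree ≤ D →
    ∀ (A B U : ℕ) (κ : ℝ), 1 ≤ B → 0 < κ → ∃ B0 : ℕ, ∀ E : ℕ, ∃ x0 : ℕ, ∀ x : ℕ, x0 ≤ x →
    ∀ M : ℕ, M ≤ B * x ^ G.natDegree → x ^ G.natDegree ≤ B * M → (∀ n : ℕ, x < n → (M : ℤ) ≤ G.eval (n : ℤ)) →
    ∀ z : ℕ, Real.log x ^ B0 ≤ z → (z : ℝ) ≤ Real.log x ^ E →
    (((Icc 1 M).filter (fun N => ¬ (κ * x ≤ (X1 G N : ℝ) → ∀ h : ℤ, h ≠ 0 → (|h| : ℝ) ≤ Real.log x ^ A →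
      NoFix F G N h → c * ((X1 G N : ℝ) / Real.log x) * (Vz z)⁻¹ * VF (Cl F G N h z) x ≤
      (((Icc 1 x).filter (fun n => Arg t x F h n ∧ ((N : ℤ) - G.eval (n : ℤ)).toNat.Prime)).card : ℝ)))).card : ℝ)
      ≤ M / Real.log x ^ U := by
  obtain ⟨t, ht, c1, hc1, hgen, -⟩ := genF (D + 1)
  obtain ⟨c2, hc2, hlow⟩ := VF_low (D + 1)
  have ht0 : (0 : ℝ) < t := by exact_mod_cast ht
  refine ⟨t, ht, c1 / (4 * (D + 1)), by positivity, ?_⟩
  intro g F G hG hGl hD A B U κ hB hκ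
  obtain ⟨n0, hn0, hseg⟩ := Pool.Agent.H373R2.T7.TB.seg_one G hG hGl
  set W := U + A + 1 with hW
  obtain ⟨B0, hl1⟩ := Pool.Agent.H373R2.T7.TB.l1_one G hG hGl B hB (D + 3 + W)
  refine ⟨B0, fun E => ?_⟩
  obtain ⟨x1, h1⟩ := hl1 E
  obtain ⟨x2, h2⟩ := hgen (κ / 2) (by positivity)
  obtain ⟨x3, h3⟩ := ev_rpow E (1 / (t : ℝ)) (by positivity)
  obtain ⟨x4, h4⟩ := ev_rpow A 1 one_pos
  obtain ⟨x5, h5⟩ := ev_lg (4 / (c1 * κ * c2) + 3)
  obtain ⟨CG, hCG⟩ := eval_bound G
  refine ⟨max (max (max x1 x2) (max x3 x4)) (max (max x5 (CG + B + 2)) ⌈4 * n0 / κ⌉₊), ?_⟩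
  intro x hx M hM1 hM2 hMn z hz1 hz2
  have a1 := h1 x (by omega) M hM1 hM2 z hz1 hz2
  have a2 := h2 x (by omega)
  have a3 := h3 x (by omega)
  have a4 := h4 x (by omega)
  have a5 := h5 x (by omega)
  have a6 : CG + B + 2 ≤ x := by omega
  have a7 : ⌈4 * n0 / κ⌉₊ ≤ x := by omega
  set L := Real.log x with hL
  have hL3 : 3 ≤ L := by
    have : 0 < 4 / (c1 * κ * c2) := by positivity
    linarith
  have hL0 : 0 < L := by linarith
  have hx0 : (0 : ℝ) < x := by exact_mod_cast (by omega : 0 < x)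
  have hn0x : 4 * (n0 : ℝ) ≤ κ * x := by
    have := (Nat.le_ceil (4 * (n0 : ℝ) / κ)).trans (by exact_mod_cast a7 : ((⌈4 * n0 / κ⌉₊ : ℕ) : ℝ) ≤ x)
    rwa [div_le_iff₀ hκ, mul_comm (x : ℝ)] at this
  rw [Real.rpow_one] at a4
  have hzt : (z : ℝ) ≤ (x : ℝ) ^ (1 / (t : ℝ)) := hz2.trans a3
  -- the deviation
  set w : ℤ → ℕ → ℝ := fun h n => if Arg t x F h n then 1 else 0 with hw
  set dev : ℤ → ℕ → ℝ := fun h N => |∑ n ∈ Icc 1 x, w h n *
    (lamP ((N : ℤ) - G.eval (n : ℤ)) - lamzI z ((N : ℤ) - G.eval (n : ℤ)))| with hdev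
  have hdevsum : ∀ h : ℤ, ∑ N ∈ Icc 1 M, dev h N ≤ (x / L ^ (D + 3)) * (M / L ^ W) := by
    intro h
    have := a1 (w h) (fun n _ => by
      rw [hw]
      dsimp only
      split_ifs
      · rw [abs_one]; linarith
      · rw [abs_zero]; linarith)
    refine this.trans (le_of_eq ?_)
    rw [pow_add L (D + 3) W]
    field_simp
  have hbad : ∀ h : ℤ, (((Icc 1 M).filter (fun N => x / L ^ (D + 3) < dev h N)).card : ℝ) ≤ M / L ^ W := fun h =>
    markov (Icc 1 M) (dev h) (fun N _ => abs_nonneg _) _ _ (by positivity) (hdevsum h)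
  set H := ⌊L ^ A⌋ with hH
  have hH0 : 0 ≤ H := Int.floor_nonneg.2 (by positivity)
  have hcover : (Icc 1 M).filter (fun N => ¬ (κ * x ≤ (X1 G N : ℝ) → ∀ h : ℤ, h ≠ 0 → (|h| : ℝ) ≤ Real.log x ^ A →
      NoFix F G N h → c1 / (4 * (D + 1)) * ((X1 G N : ℝ) / Real.log x) * (Vz z)⁻¹ * VF (Cl F G N h z) x ≤
      (((Icc 1 x).filter (fun n => Arg t x F h n ∧ ((N : ℤ) - G.eval (n : ℤ)).toNat.Prime)).card : ℝ))) ⊆
      (Icc (-H) H).biUnion (fun h => (Icc 1 M).filter (fun N => x / L ^ (D + 3) < dev h N)) := by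
    intro N hN
    rw [mem_filter] at hN
    obtain ⟨hNM, hcon⟩ := hN
    rw [mem_biUnion]
    by_contra hno
    apply hcon
    intro hX1 h hh0 hhA hfix
    have hhH : h ∈ Icc (-H) H := by
      have e1 : |h| ≤ H := by
        rw [hH, Int.le_floor]
        push_cast
        exact hhA
      rw [mem_Icc]
      exact abs_le.1 e1
    have hdN : dev h N ≤ x / L ^ (D + 3) := by
      by_contra hlt
      push Not at hlt
      exact hno ⟨h, hhH, mem_filter.2 ⟨hNM, hlt⟩⟩
    rw [mem_Icc] at hNM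
    -- the segment
    obtain ⟨X', hX'x, hX'⟩ := hseg N hNM.1 x
    have hX1X' : X1 G N ≤ n0 + X' := by
      have hsub : {n : ℕ | 1 ≤ n ∧ 0 < (N : ℤ) - G.eval (n : ℤ)} ⊆ ((Icc 1 (n0 + X') : Finset ℕ) : Set ℕ) := by
        rintro n ⟨b1, b2⟩
        rw [mem_coe, mem_Icc]
        refine ⟨b1, ?_⟩
        have b3 : n ≤ x := by
          by_contra hc
          push Not at hc
          have b4 := hMn n hc
          have b5 : (N : ℤ) ≤ M := by exact_mod_cast hNM.2
          omega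
        rcases Nat.lt_or_ge n n0 with b4 | b4
        · omega
        · have := (hX' n (mem_Icc.2 ⟨b4, b3⟩)).1 (by omega)
          omega
      have b1 := Set.ncard_le_ncard hsub (Finset.finite_toSet _)
      rw [Set.ncard_coe_finset, Nat.card_Icc] at b1
      unfold X1
      omega
    have hX1r : (X1 G N : ℝ) ≤ n0 + X' := by exact_mod_cast hX1X'
    have hhalf : (X1 G N : ℝ) / 2 ≤ (X' : ℝ) - n0 := by linarith
    have hhx : |h| ≤ (x : ℤ) := by
      have : ((|h| : ℤ) : ℝ) ≤ x := by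
        push_cast
        exact hhA.trans a4
      exact_mod_cast this
    have hsys := sys_Cl F G N h z hfix hh0 x D hhx hD
    have hloc := hsys.loc
    have hgood := a2 (Cl F G N h z) (-h) hsys n0 X' hX'x (by linarith)
    have hVF := hlow x (by omega) (Cl F G N h z) hsys.card hloc
    have hVF0 : 0 < VF (Cl F G N h z) x := lt_of_lt_of_le (by positivity) hVF
    have hVz := Vz_pos z
    have hVzi : 1 ≤ (Vz z)⁻¹ := by
      rw [one_le_inv₀ hVz]
      exact Vz_le_one z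
    -- the main term
    set MT := c1 * ((X1 G N : ℝ) / 4) * (Vz z)⁻¹ * VF (Cl F G N h z) x with hMT
    have hX10 : 0 < (X1 G N : ℝ) := lt_of_lt_of_le (by positivity) hX1
    have hthr : x / L ^ (D + 3) ≤ MT := by
      have b1 : c1 * (κ * x / 4) * 1 * (c2 / L ^ (D + 2)) ≤ MT := by
        rw [hMT]
        gcongr
      refine le_trans ?_ b1
      have b2 : 4 / (c1 * κ * c2) ≤ L := by linarith
      rw [div_le_iff₀ (by positivity)] at b2
      rw [pow_succ L (D + 2), div_le_iff₀ (by positivity)]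
      have b3 : c1 * (κ * x / 4) * 1 * (c2 / L ^ (D + 2)) * (L ^ (D + 2) * L) = (L * (c1 * κ * c2)) * (x / 4) := by
        field_simp
      rw [b3]
      nlinarith
    have hlower : 2 * MT ≤ ∑ n ∈ Icc 1 x, w h n * lamzI z ((N : ℤ) - G.eval (n : ℤ)) := by
      have b1 : ∑ n ∈ GoodF t x n0 X' (Cl F G N h z) (-h), (Vz z)⁻¹ ≤
          ∑ n ∈ Icc 1 x, w h n * lamzI z ((N : ℤ) - G.eval (n : ℤ)) := by
        have hsub : GoodF t x n0 X' (Cl F G N h z) (-h) ⊆ Icc 1 x := by
          intro n hn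
          unfold GoodF at hn
          rw [mem_filter, mem_Ioc] at hn
          rw [mem_Icc]
          omega
        refine le_trans ?_ (sum_le_sum_of_subset_of_nonneg hsub fun n _ _ => ?_)
        · apply sum_le_sum
          intro n hn
          unfold GoodF at hn
          rw [mem_filter, mem_Ioc] at hn
          obtain ⟨⟨b1, b2⟩, b3, b4, b5, b6⟩ := hn
          have hres : ∀ q : ℕ, q.Prime → (q : ℝ) ≤ (x : ℝ) ^ (1 / (t : ℝ)) → n % q ∉ Rs F G N z q := by
            intro q hq hqx hmem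
            apply b6 q hq hqx ((n % q : ℕ) : ℤ)
            · unfold Cl
              apply mem_insert_of_mem
              exact mem_image_of_mem _ hmem
            · rw [Int.natCast_mod, ← dvd_neg, neg_sub]
              exact Int.dvd_self_sub_emod
          have hw1 : w h n = 1 := by
            rw [hw]
            dsimp only
            rw [if_pos]
            refine ⟨b3, b5, fun q hq hqx hd => ?_⟩
            exact hres q hq hqx ((Rs_iff F G N z hq.pos n).1 (Or.inl hd))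
          have hpos : 1 ≤ (N : ℤ) - G.eval (n : ℤ) := (hX' n (mem_Icc.2 ⟨b1.le, b2.trans hX'x⟩)).2 b2
          have hlz : lamzI z ((N : ℤ) - G.eval (n : ℤ)) = (Vz z)⁻¹ := by
            unfold lamzI
            rw [if_pos hpos]
            unfold lamz
            rw [if_pos]
            intro q hq hd
            obtain ⟨hqz, hqp⟩ := mem_pz.1 hq
            have hd' : (q : ℤ) ∣ (N : ℤ) - G.eval (n : ℤ) := by
              have := Int.natCast_dvd_natCast.2 hd
              rwa [Int.toNat_of_nonneg (by omega)] at this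
            have hqx : (q : ℝ) ≤ (x : ℝ) ^ (1 / (t : ℝ)) := by
              refine le_trans ?_ hzt
              exact_mod_cast hqz
            exact hres q hqp hqx ((Rs_iff F G N z hqp.pos n).1 (Or.inr ⟨hqz, hd'⟩))
          rw [hw1, hlz, one_mul]
        · apply mul_nonneg
          · rw [hw]
            dsimp only
            split_ifs <;> norm_num
          · exact lamzI_nonneg _ _
      refine le_trans ?_ b1
      rw [sum_const, nsmul_eq_mul]
      calc 2 * MT = c1 * ((X1 G N : ℝ) / 2) * VF (Cl F G N h z) x * (Vz z)⁻¹ := by rw [hMT]; ring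
        _ ≤ c1 * ((X' : ℝ) - n0) * VF (Cl F G N h z) x * (Vz z)⁻¹ := by gcongr
        _ ≤ _ := mul_le_mul_of_nonneg_right hgood (by positivity)
    have hlamP : MT ≤ ∑ n ∈ Icc 1 x, w h n * lamP ((N : ℤ) - G.eval (n : ℤ)) := by
      have b1 : dev h N = |(∑ n ∈ Icc 1 x, w h n * lamP ((N : ℤ) - G.eval (n : ℤ))) -
          ∑ n ∈ Icc 1 x, w h n * lamzI z ((N : ℤ) - G.eval (n : ℤ))| := by
        rw [hdev]
        dsimp only
        rw [← sum_sub_distrib]
        congr 1
        apply sum_congr rfl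
        intro n _
        ring
      rw [b1] at hdN
      have b2 := (abs_le.1 hdN).1
      linarith
    have hupper : ∑ n ∈ Icc 1 x, w h n * lamP ((N : ℤ) - G.eval (n : ℤ)) ≤
        (((Icc 1 x).filter (fun n => Arg t x F h n ∧ ((N : ℤ) - G.eval (n : ℤ)).toNat.Prime)).card : ℝ) * ((D + 1) * L) := by
      have b1 : ∑ n ∈ Icc 1 x, w h n * lamP ((N : ℤ) - G.eval (n : ℤ)) =
          ∑ n ∈ (Icc 1 x).filter (fun n => Arg t x F h n ∧ ((N : ℤ) - G.eval (n : ℤ)).toNat.Prime),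
            Real.log (((N : ℤ) - G.eval (n : ℤ)).toNat : ℝ) := by
        rw [sum_filter]
        apply sum_congr rfl
        intro n _
        rw [hw]
        dsimp only
        unfold lamP
        by_cases e1 : Arg t x F h n
        · by_cases e2 : ((N : ℤ) - G.eval (n : ℤ)).toNat.Prime
          · simp only [e1, e2, and_self, if_true, one_mul]
          · simp only [e1, e2, and_false, if_true, if_false, one_mul]
        · simp only [e1, false_and, if_false, zero_mul]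
      rw [b1, ← nsmul_eq_mul, ← sum_const]
      apply sum_le_sum
      intro n hn
      rw [mem_filter, mem_Icc] at hn
      obtain ⟨⟨e1, e2⟩, -, e3⟩ := hn
      have e4 : (N : ℤ) - G.eval (n : ℤ) ≤ (x : ℤ) ^ (D + 1) := by
        have f1 := (abs_le.1 (hCG x (by omega) n e2)).1
        have f2 : (N : ℤ) ≤ B * (x : ℤ) ^ G.natDegree := by exact_mod_cast hNM.2.trans hM1
        have f3 : ((CG : ℤ) + B) * (x : ℤ) ^ G.natDegree ≤ (x : ℤ) * (x : ℤ) ^ G.natDegree := by
          apply mul_le_mul_of_nonneg_right _ (by positivity)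
          have : CG + B ≤ x := by omega
          exact_mod_cast this
        have f4 : (x : ℤ) * (x : ℤ) ^ G.natDegree ≤ (x : ℤ) ^ (D + 1) := by
          rw [← pow_succ']
          apply pow_le_pow_right₀
          · exact_mod_cast (by omega : 1 ≤ x)
          · omega
        linarith
      have e5 : (((N : ℤ) - G.eval (n : ℤ)).toNat : ℝ) ≤ (x : ℝ) ^ (D + 1) := by
        have f1 : ((((N : ℤ) - G.eval (n : ℤ)).toNat : ℕ) : ℤ) ≤ (x : ℤ) ^ (D + 1) := by
          rw [Int.toNat_of_nonneg]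
          · exact e4
          · by_contra hneg
            push Not at hneg
            rw [Int.toNat_of_nonpos hneg.le] at e3
            exact Nat.not_prime_zero e3
        exact_mod_cast f1
      have e6 := Real.log_le_log (by exact_mod_cast e3.pos) e5
      rw [Real.log_pow] at e6
      push_cast at e6
      exact e6
    have hfin := hlamP.trans hupper
    have hDL : (0 : ℝ) < (D + 1) * L := by positivity
    rw [← div_le_iff₀ hDL] at hfin
    refine le_trans (le_of_eq ?_) hfin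
    rw [hMT, ← hL]
    field_simp
  have hcard := card_le_card hcover
  have hcard2 : (((Icc 1 M).filter (fun N => ¬ (κ * x ≤ (X1 G N : ℝ) → ∀ h : ℤ, h ≠ 0 → (|h| : ℝ) ≤ Real.log x ^ A →
      NoFix F G N h → c1 / (4 * (D + 1)) * ((X1 G N : ℝ) / Real.log x) * (Vz z)⁻¹ * VF (Cl F G N h z) x ≤
      (((Icc 1 x).filter (fun n => Arg t x F h n ∧ ((N : ℤ) - G.eval (n : ℤ)).toNat.Prime)).card : ℝ)))).card : ℝ) ≤
      ∑ h ∈ Icc (-H) H, (((Icc 1 M).filter (fun N => x / L ^ (D + 3) < dev h N)).card : ℝ) := by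
    exact_mod_cast hcard.trans card_biUnion_le
  refine hcard2.trans ?_
  calc ∑ h ∈ Icc (-H) H, (((Icc 1 M).filter (fun N => x / L ^ (D + 3) < dev h N)).card : ℝ)
      ≤ ∑ h ∈ Icc (-H) H, (M : ℝ) / L ^ W := sum_le_sum fun h _ => hbad h
    _ = (2 * H + 1) * (M / L ^ W) := by
        rw [sum_const, nsmul_eq_mul, Int.card_Icc]
        congr 1
        have : ((H + 1 - -H).toNat : ℤ) = 2 * H + 1 := by omega
        have h8 : (((H + 1 - -H).toNat : ℤ) : ℝ) = 2 * H + 1 := by rw [this]; push_cast; ring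
        exact_mod_cast h8
    _ ≤ (3 * L ^ A) * (M / L ^ W) := by
        apply mul_le_mul_of_nonneg_right _ (by positivity)
        have e1 : (H : ℝ) ≤ L ^ A := Int.floor_le _
        have e2 : 1 ≤ L ^ A := one_le_pow₀ (by linarith)
        linarith
    _ ≤ (L * L ^ A) * (M / L ^ W) := by
        apply mul_le_mul_of_nonneg_right _ (by positivity)
        apply mul_le_mul_of_nonneg_right hL3 (by positivity)
    _ = M / L ^ U := by
        have e1 : L ^ W = L ^ U * (L * L ^ A) := by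
          rw [hW, pow_add, pow_add, pow_one]
          ring
        rw [e1]
        field_simp

end Pool.Agent.K4H18.CH
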