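import Pool.Agent.K4H18.CH.H4
import Pool.Agent.K4H18.EK.A1

set_option autoImplicit false

/-! The number of the residues `r` with `G(r) ≡ N` on average over `N`. -/

namespace Pool.Agent.K4H18.CH

open Finset Polynomial
open Pool.Agent.Y843.HS (Pr VV Pr_mem Pr_prime VV_split)
open Pool.Agent.K4H18.EK (crt_sum)

/-- the number of residues `r` modulo `q` with `G(r) ≡ N` -/
noncomputable def nu (G : ℤ[X]) (q N : ℕ) : ℕ :=
  ((range q).filter (fun r : ℕ => (q : ℤ) ∣ (N : ℤ) - G.eval (r : ℤ))).card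

lemma dvd_mod_iff (q N : ℕ) (a : ℤ) : (q : ℤ) ∣ ((N % q : ℕ) : ℤ) - a ↔ (q : ℤ) ∣ (N : ℤ) - a := by
  have h1 : (q : ℤ) ∣ (N : ℤ) - ((N % q : ℕ) : ℤ) := by
    rw [Int.natCast_mod]
    exact Int.dvd_self_sub_emod
  constructor
  · intro h
    have := dvd_add h1 h
    simpa using this
  · intro h
    have := dvd_sub h h1
    simpa using this

lemma nu_mod (G : ℤ[X]) (q N : ℕ) : nu G q (N % q) = nu G q N := by
  unfold nu
  congr 1
  apply filter_congr
  intro r _
  exact dvd_mod_iff q N _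

lemma nu_sum (G : ℤ[X]) (q : ℕ) (hq : 0 < q) : ∑ b ∈ range q, nu G q b = q := by
  unfold nu
  simp_rw [card_filter]
  rw [sum_comm]
  have h1 : ∀ r ∈ range q, ∑ b ∈ range q, (if (q : ℤ) ∣ (b : ℤ) - G.eval (r : ℤ) then 1 else 0) = 1 := by
    intro r _
    obtain ⟨b, hb, hd⟩ := nat_of_int hq (G.eval (r : ℤ))
    rw [sum_eq_single b]
    · rw [if_pos]
      rw [← dvd_neg, neg_sub]
      exact hd
    · intro b' hb' hne
      rw [if_neg]
      intro hd'
      apply hne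
      have h2 := dvd_add hd hd'
      rw [sub_add_sub_comm, add_comm, add_sub_add_right_eq_sub] at h2
      rw [mem_range] at hb'
      have h3 : (b' : ℤ) ≡ b [ZMOD q] := by
        rw [Int.modEq_iff_dvd, ← dvd_neg, neg_sub]
        exact h2
      have h4 : b' ≡ b [MOD q] := (Int.natCast_modEq_iff).1 h3
      exact Nat.ModEq.eq_of_lt_of_lt h4 hb' hb
    · intro hb'
      exact absurd (mem_range.2 hb) hb'
  rw [sum_congr rfl h1, sum_const, card_range]
  simp

lemma nu_le (G : ℤ[X]) (hG : 1 ≤ G.natDegree) (q N : ℕ) (hq : q.Prime) (hl : G.leadingCoeff.natAbs < q)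
    (hl0 : G.leadingCoeff ≠ 0) : nu G q N ≤ G.natDegree := by
  classical
  have := Fact.mk hq
  unfold nu
  set P : ℤ[X] := C (N : ℤ) - G with hP
  set Q : (ZMod q)[X] := P.map (Int.castRingHom (ZMod q)) with hQ
  have hev : ∀ m : ℤ, eval (m : ZMod q) Q = ((P.eval m : ℤ) : ZMod q) := by
    intro m
    rw [hQ]
    simp
  have hQ0 : Q ≠ 0 := by
    intro h0
    have h1 : Q.coeff G.natDegree = 0 := by rw [h0, coeff_zero]
    rw [hQ, coeff_map, hP, coeff_sub, coeff_C_ne_zero (by omega), zero_sub, coeff_natDegree] at h1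
    simp only [eq_intCast, Int.cast_neg, neg_eq_zero] at h1
    rw [ZMod.intCast_zmod_eq_zero_iff_dvd] at h1
    have h2 := Int.natAbs_dvd_natAbs.2 h1
    rw [Int.natAbs_natCast] at h2
    have h3 := Nat.le_of_dvd (Int.natAbs_pos.2 hl0) h2
    omega
  have h1 : ((range q).filter (fun r : ℕ => (q : ℤ) ∣ (N : ℤ) - G.eval (r : ℤ))).card ≤ Q.roots.toFinset.card := by
    apply card_le_card_of_injOn (fun r : ℕ => (r : ZMod q))
    · intro r hr
      rw [mem_coe, mem_filter] at hr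
      rw [mem_coe, Multiset.mem_toFinset, mem_roots hQ0, IsRoot.def]
      have h2 := hev (r : ℤ)
      rw [Int.cast_natCast] at h2
      rw [h2]
      refine (ZMod.intCast_zmod_eq_zero_iff_dvd _ _).2 ?_
      rw [hP, ← NG_eval]
      exact hr.2
    · intro r hr s hs hrs
      rw [mem_coe, mem_filter, mem_range] at hr hs
      have := (ZMod.natCast_eq_natCast_iff' r s q).1 hrs
      rwa [Nat.mod_eq_of_lt hr.1, Nat.mod_eq_of_lt hs.1] at this
  refine h1.trans ((Multiset.toFinset_card_le _).trans ((card_roots' Q).trans ?_))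
  refine natDegree_map_le.trans ?_
  rw [hP]
  refine (Polynomial.natDegree_sub_le _ _).trans ?_
  rw [natDegree_C]
  simp

lemma per_range (m : ℕ) (f : ℕ → ℝ) (hper : ∀ n, f (n % m) = f n) (h0 : ∑ b ∈ range m, f b = 0)
    (hm : 0 < m) : ∀ M : ℕ, ∑ N ∈ range M, f N = ∑ N ∈ range (M % m), f N := by
  intro M
  induction M using Nat.strong_induction_on with
  | _ M ih =>
    rcases Nat.lt_or_ge M m with h | h
    · rw [Nat.mod_eq_of_lt h]
    · obtain ⟨M', rfl⟩ := Nat.exists_eq_add_of_le h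
      rw [sum_range_add, h0, zero_add, Nat.add_mod_left, ← ih M' (by omega)]
      apply sum_congr rfl
      intro n _
      rw [← hper (m + n), Nat.add_mod_left, hper]

lemma per_zero (m : ℕ) (hm : 0 < m) (f : ℕ → ℝ) (hper : ∀ n, f (n % m) = f n) (h0 : ∑ b ∈ range m, f b = 0)
    (K : ℝ) (hK : ∀ n, |f n| ≤ K) (M : ℕ) : |∑ N ∈ Icc 1 M, f N| ≤ 2 * K * m := by
  have hK0 : 0 ≤ K := (abs_nonneg _).trans (hK 0)
  have hm1 : (1 : ℝ) ≤ m := by exact_mod_cast hm
  have h1 : ∑ N ∈ Icc 1 M, f N = ∑ N ∈ range (M + 1), f N - f 0 := by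
    rw [range_eq_Ico, sum_eq_sum_Ico_succ_bot (by omega : 0 < M + 1)]
    have : Ico (0 + 1) (M + 1) = Icc 1 M := by
      ext a
      rw [mem_Ico, mem_Icc]
      omega
    rw [this]
    ring
  rw [h1, per_range m f hper h0 hm]
  have h2 : |∑ N ∈ range ((M + 1) % m), f N| ≤ K * m := by
    refine (abs_sum_le_sum_abs _ _).trans ?_
    refine (sum_le_card_nsmul _ _ K fun n _ => hK n).trans ?_
    rw [card_range, nsmul_eq_mul, mul_comm]
    apply mul_le_mul_of_nonneg_left _ hK0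
    exact_mod_cast (Nat.mod_lt _ hm).le
  calc |∑ N ∈ range ((M + 1) % m), f N - f 0| ≤ |∑ N ∈ range ((M + 1) % m), f N| + |f 0| := abs_sub _ _
    _ ≤ K * m + K := add_le_add h2 (hK 0)
    _ ≤ 2 * K * m := by nlinarith

lemma cov (G : ℤ[X]) (K : ℝ) (hK : 1 ≤ K) (q q' : ℕ) (hq : q.Prime) (hq' : q'.Prime) (hne : q ≠ q')
    (h1 : ∀ N, |(nu G q N : ℝ) - 1| ≤ K) (h2 : ∀ N, |(nu G q' N : ℝ) - 1| ≤ K) (M : ℕ) :
    |∑ N ∈ Icc 1 M, ((nu G q N : ℝ) - 1) * ((nu G q' N : ℝ) - 1)| ≤ 2 * K ^ 2 * (q * q') := by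
  have h3 := per_zero (q * q') (Nat.mul_pos hq.pos hq'.pos) (fun N => ((nu G q N : ℝ) - 1) * ((nu G q' N : ℝ) - 1))
    (fun n => by
      rw [← nu_mod G q (n % (q * q')), ← nu_mod G q' (n % (q * q')), Nat.mod_mul_right_mod, Nat.mod_mul_left_mod,
        nu_mod, nu_mod])
    (by
      have h4 := crt_sum (fun p b => (nu G p b : ℝ) - 1) {q, q'} (by
        intro p hp
        rw [mem_insert, mem_singleton] at hp
        rcases hp with rfl | rfl
        · exact hq
        · exact hq')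
      rw [prod_pair hne, prod_pair hne] at h4
      have h5 : ∑ b ∈ range q, ((nu G q b : ℝ) - 1) = 0 := by
        rw [sum_sub_distrib, sum_const, card_range, nsmul_eq_mul, mul_one]
        have := nu_sum G q hq.pos
        have h6 : ((∑ b ∈ range q, nu G q b : ℕ) : ℝ) = q := by rw [this]
        push_cast at h6
        linarith
      rw [h5, zero_mul] at h4
      rw [← h4]
      apply sum_congr rfl
      intro b _
      rw [prod_pair hne, nu_mod, nu_mod])
    (K ^ 2) (fun n => by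
      rw [abs_mul, sq]
      exact mul_le_mul (h1 n) (h2 n) (abs_nonneg _) (by linarith)) M
  push_cast at h3
  exact h3

/-- the variance -/
lemma variance (G : ℤ[X]) (K : ℝ) (hK : 1 ≤ K) (z Y : ℕ) (hz : 1 ≤ z)
    (h : ∀ q : ℕ, q.Prime → z < q → ∀ N, |(nu G q N : ℝ) - 1| ≤ K) (M : ℕ) :
    ∑ N ∈ Icc 1 M, (∑ q ∈ Pr z Y, ((nu G q N : ℝ) - 1) / q) ^ 2 ≤ K ^ 2 * M / z + 2 * K ^ 2 * (Y : ℝ) ^ 2 := by
  classical
  have h1 : ∀ N, (∑ q ∈ Pr z Y, ((nu G q N : ℝ) - 1) / q) ^ 2 =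
      ∑ q ∈ Pr z Y, ∑ q' ∈ Pr z Y, (((nu G q N : ℝ) - 1) * ((nu G q' N : ℝ) - 1)) / (q * q') := by
    intro N
    rw [sq, sum_mul_sum]
    apply sum_congr rfl
    intro q _
    apply sum_congr rfl
    intro q' _
    rw [div_mul_div_comm]
  simp_rw [h1]
  rw [sum_comm]
  have h2 : ∀ q ∈ Pr z Y, ∑ N ∈ Icc 1 M, ∑ q' ∈ Pr z Y, (((nu G q N : ℝ) - 1) * ((nu G q' N : ℝ) - 1)) / (q * q') ≤
      K ^ 2 * M * ((q : ℝ) ^ 2)⁻¹ + ∑ q' ∈ Pr z Y, 2 * K ^ 2 := by
    intro q hq
    rw [sum_comm]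
    have hqp := Pr_prime hq
    have hq0 : (0 : ℝ) < q := by exact_mod_cast hqp.pos
    have h3 : ∀ q' ∈ Pr z Y, ∑ N ∈ Icc 1 M, (((nu G q N : ℝ) - 1) * ((nu G q' N : ℝ) - 1)) / (q * q') ≤
        (if q' = q then K ^ 2 * M * ((q : ℝ) ^ 2)⁻¹ else 0) + 2 * K ^ 2 := by
      intro q' hq'
      have hqp' := Pr_prime hq'
      have hq0' : (0 : ℝ) < q' := by exact_mod_cast hqp'.pos
      rw [← sum_div]
      split_ifs with hqq
      · subst hqq
        have h4 : ∑ N ∈ Icc 1 M, ((nu G q' N : ℝ) - 1) * ((nu G q' N : ℝ) - 1) ≤ ∑ N ∈ Icc 1 M, K ^ 2 := by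
          apply sum_le_sum
          intro N _
          have := h q' hqp' (Pr_mem.1 hq').1.1 N
          rw [← abs_mul_abs_self, sq]
          exact mul_le_mul this this (abs_nonneg _) (by linarith)
        rw [sum_const, Nat.card_Icc, nsmul_eq_mul, Nat.add_sub_cancel] at h4
        calc (∑ N ∈ Icc 1 M, ((nu G q' N : ℝ) - 1) * ((nu G q' N : ℝ) - 1)) / (q' * q') ≤ (M * K ^ 2) / (q' * q') := by
              gcongr
          _ = K ^ 2 * M * ((q' : ℝ) ^ 2)⁻¹ := by field_simp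
          _ ≤ _ := by
              have : 0 ≤ 2 * K ^ 2 := by positivity
              linarith
      · rw [zero_add, div_le_iff₀ (by positivity)]
        exact (le_abs_self _).trans (cov G K hK q q' hqp hqp' (fun h => hqq h.symm) (h q hqp (Pr_mem.1 hq).1.1)
          (h q' hqp' (Pr_mem.1 hq').1.1) M)
    refine (sum_le_sum h3).trans ?_
    rw [sum_add_distrib, sum_ite_eq' (Pr z Y) q, if_pos hq]
  refine (sum_le_sum h2).trans ?_
  rw [sum_add_distrib, ← mul_sum]
  have hcard : ((Pr z Y).card : ℝ) ≤ Y := by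
    have : Pr z Y ⊆ Icc 1 Y := by
      intro p hp
      rw [Pr_mem] at hp
      rw [mem_Icc]
      omega
    have h3 := card_le_card this
    rw [Nat.card_Icc] at h3
    exact_mod_cast (by omega : (Pr z Y).card ≤ Y)
  have h5 : ∑ q ∈ Pr z Y, ((q : ℝ) ^ 2)⁻¹ ≤ (z : ℝ)⁻¹ := by
    rcases Nat.lt_or_ge Y z with hXz | hXz
    · rw [sum_eq_zero]
      · positivity
      · intro p hp
        rw [Pr_mem] at hp
        omega
    · calc ∑ p ∈ Pr z Y, ((p : ℝ) ^ 2)⁻¹ ≤ ∑ p ∈ Ioc z Y, ((p : ℝ) ^ 2)⁻¹ := by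
            apply sum_le_sum_of_subset_of_nonneg
            · intro p hp
              rw [Pr_mem] at hp
              rw [mem_Ioc]
              exact hp.1
            · intro p _ _
              positivity
        _ ≤ (z : ℝ)⁻¹ - (Y : ℝ)⁻¹ := sum_Ioc_inv_sq_le_sub (by omega) hXz
        _ ≤ _ := by
            have : (0 : ℝ) ≤ (Y : ℝ)⁻¹ := by positivity
            linarith
  rw [sum_const, sum_const, nsmul_eq_mul, nsmul_eq_mul]
  apply add_le_add
  · rw [div_eq_mul_inv]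
    exact mul_le_mul_of_nonneg_left h5 (by positivity)
  · have hY0 : (0 : ℝ) ≤ Y := Nat.cast_nonneg _
    have hc0 : (0 : ℝ) ≤ ((Pr z Y).card : ℝ) := Nat.cast_nonneg _
    calc ((Pr z Y).card : ℝ) * (((Pr z Y).card : ℝ) * (2 * K ^ 2)) = (((Pr z Y).card : ℝ) * ((Pr z Y).card : ℝ)) * (2 * K ^ 2) := by ring
      _ ≤ (Y * Y) * (2 * K ^ 2) := by gcongr
      _ = _ := by ring

end Pool.Agent.K4H18.CH
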