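import Pool.Agent.K4H18.CH.H5

set_option autoImplicit false

/-! The common roots on average over `N`, and the comparison of the sieve products. -/

namespace Pool.Agent.K4H18.CH

open Finset Polynomial
open Pool.Agent.Y843.HS (Pr VV Pr_mem Pr_prime VV_split)
open Pool.Agent.Y843.HG (V1 V1_bounds)
open Pool.Agent.Y840.CT (rho VF prod_one_sub_ge)
open Pool.Agent.H373R2.T7 (Vz pz mem_pz)

variable {g : ℕ}

/-- the number of the residues with `r (r + h) F(r) ≡ 0` -/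
noncomputable def aa (F : Fin g → ℤ[X]) (h : ℤ) (q : ℕ) : ℕ :=
  ((range q).filter (fun r : ℕ => (q : ℤ) ∣ (r : ℤ) * (r + h) * ∏ i, (F i).eval (r : ℤ))).card

/-- the number of the residues with `r (r + h) F(r) ≡ 0` and `G(r) ≡ N` -/
noncomputable def ol (F : Fin g → ℤ[X]) (G : ℤ[X]) (h : ℤ) (q N : ℕ) : ℕ :=
  ((range q).filter (fun r : ℕ => (q : ℤ) ∣ (r : ℤ) * (r + h) * ∏ i, (F i).eval (r : ℤ) ∧
    (q : ℤ) ∣ (N : ℤ) - G.eval (r : ℤ))).card

/-- the residues with `r (r + h) F(r) (N - G(r)) ≡ 0` -/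
noncomputable def ZF (F : Fin g → ℤ[X]) (G : ℤ[X]) (N : ℕ) (h : ℤ) (q : ℕ) : Finset ℕ :=
  (range q).filter (fun r : ℕ => (q : ℤ) ∣ (r : ℤ) * (r + h) * (∏ i, (F i).eval (r : ℤ)) * ((N : ℤ) - G.eval (r : ℤ)))

/-- the residues of `om` -/
noncomputable def Zz (F : Fin g → ℤ[X]) (G : ℤ[X]) (N : ℕ) (h : ℤ) (z q : ℕ) : Finset ℕ :=
  (range q).filter (fun r : ℕ => (q : ℤ) ∣ (r : ℤ) * (r + h) * ∏ i, (F i).eval (r : ℤ) ∨
    (q ≤ z ∧ (q : ℤ) ∣ (N : ℤ) - G.eval (r : ℤ)))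

/-- the shifts are admissible for the factors without `N` -/
def Ad (F : Fin g → ℤ[X]) (h : ℤ) : Prop :=
  ∀ q : ℕ, q.Prime → ∃ n : ℤ, ¬ (q : ℤ) ∣ n * (n + h) * (∏ i, (F i).eval n)

lemma NoFix.ad {F : Fin g → ℤ[X]} {G : ℤ[X]} {N : ℕ} {h : ℤ} (H : NoFix F G N h) : Ad F h := by
  intro q hq
  obtain ⟨n, hn⟩ := H q hq
  exact ⟨n, fun hd => hn (dvd_mul_of_dvd_left hd _)⟩

lemma ZF_union (F : Fin g → ℤ[X]) (G : ℤ[X]) (N : ℕ) (h : ℤ) {q : ℕ} (hq : q.Prime) :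
    (ZF F G N h q).card + ol F G h q N = aa F h q + nu G q N := by
  have hqp : Prime (q : ℤ) := Nat.prime_iff_prime_int.1 hq
  have h1 : ZF F G N h q = ((range q).filter (fun r : ℕ => (q : ℤ) ∣ (r : ℤ) * (r + h) * ∏ i, (F i).eval (r : ℤ))) ∪
      ((range q).filter (fun r : ℕ => (q : ℤ) ∣ (N : ℤ) - G.eval (r : ℤ))) := by
    unfold ZF
    rw [← filter_or]
    apply filter_congr
    intro r _
    exact hqp.dvd_mul
  have h2 : (range q).filter (fun r : ℕ => (q : ℤ) ∣ (r : ℤ) * (r + h) * ∏ i, (F i).eval (r : ℤ) ∧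
      (q : ℤ) ∣ (N : ℤ) - G.eval (r : ℤ)) = ((range q).filter (fun r : ℕ => (q : ℤ) ∣ (r : ℤ) * (r + h) * ∏ i, (F i).eval (r : ℤ))) ∩
      ((range q).filter (fun r : ℕ => (q : ℤ) ∣ (N : ℤ) - G.eval (r : ℤ))) := by
    rw [← filter_and]
  unfold ol aa nu
  rw [h1, h2, card_union_add_card_inter]

lemma Zz_small (F : Fin g → ℤ[X]) (G : ℤ[X]) (N : ℕ) (h : ℤ) {z q : ℕ} (hq : q.Prime) (hqz : q ≤ z) :
    Zz F G N h z q = ZF F G N h q := by
  have hqp : Prime (q : ℤ) := Nat.prime_iff_prime_int.1 hq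
  unfold Zz ZF
  apply filter_congr
  intro r _
  rw [hqp.dvd_mul (a := (r : ℤ) * (r + h) * ∏ i, (F i).eval (r : ℤ))]
  constructor
  · rintro (h1 | h1)
    · exact Or.inl h1
    · exact Or.inr h1.2
  · rintro (h1 | h1)
    · exact Or.inl h1
    · exact Or.inr ⟨hqz, h1⟩

lemma Zz_large (F : Fin g → ℤ[X]) (G : ℤ[X]) (N : ℕ) (h : ℤ) {z q : ℕ} (hqz : z < q) :
    (Zz F G N h z q).card = aa F h q := by
  unfold Zz aa
  congr 1
  apply filter_congr
  intro r _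
  constructor
  · rintro (h1 | h1)
    · exact h1
    · omega
  · exact Or.inl

lemma VF_Zz (F : Fin g → ℤ[X]) (G : ℤ[X]) (N : ℕ) (h : ℤ) (z x : ℕ) : VF (Cl F G N h z) x = VV (Zz F G N h z) 0 x := by
  unfold VF VV
  apply prod_congr
  · ext q
    rw [Pr_mem, mem_filter, mem_Icc]
    constructor
    · rintro ⟨⟨a, b⟩, c⟩
      exact ⟨⟨c.pos, b⟩, c⟩
    · rintro ⟨⟨a, b⟩, c⟩
      exact ⟨⟨c.pos, b⟩, c⟩
  · intro q hq
    rw [rho_Cl F G N h z (Pr_prime hq)]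
    rfl

lemma V1_Vz (z : ℕ) : V1 z = Vz z := by
  unfold V1 Vz
  apply prod_congr _ (fun _ _ => rfl)
  ext q
  rw [Pr_mem, mem_pz]
  constructor
  · rintro ⟨⟨a, b⟩, c⟩
    exact ⟨b, c⟩
  · rintro ⟨b, c⟩
    exact ⟨⟨c.pos, b⟩, c⟩

lemma aa_le (F : Fin g → ℤ[X]) (h : ℤ) (hA : Ad F h) {q : ℕ} (hq : q.Prime) (D : ℕ) (hD : ∑ i, (F i).natDegree ≤ D) :
    aa F h q ≤ D + 2 := by
  set P : ℤ[X] := X * (X + C h) * ∏ i, F i with hP
  have he : ∀ n : ℤ, P.eval n = n * (n + h) * ∏ i, (F i).eval n := by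
    intro n
    rw [hP, prod_eval]
    simp
  obtain ⟨n, hn⟩ := hA q hq
  have h1 := Pool.Agent.H373R2.T7.PB.roots_nz P q hq ⟨n, by rwa [he]⟩
  have h2 : P.natDegree ≤ D + 2 := by
    rw [hP]
    refine natDegree_mul_le.trans ?_
    have h3 : (X * (X + C h) : ℤ[X]).natDegree ≤ 2 := by
      refine natDegree_mul_le.trans ?_
      rw [natDegree_X, natDegree_X_add_C]
    have h4 : (∏ i, F i).natDegree ≤ ∑ i, (F i).natDegree := Polynomial.natDegree_prod_le _ _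
    omega
  refine le_trans (le_of_eq ?_) (h1.trans h2)
  unfold aa
  congr 1
  apply filter_congr
  intro r _
  rw [he]

lemma card_class (q M : ℕ) (hq : 0 < q) (a : ℤ) : ((Icc 1 M).filter (fun N : ℕ => (q : ℤ) ∣ (N : ℤ) - a)).card ≤ M / q + 1 := by
  have h1 : ((Icc 1 M).filter (fun N : ℕ => (q : ℤ) ∣ (N : ℤ) - a)).card ≤ (range (M / q + 1)).card := by
    apply card_le_card_of_injOn (fun N => N / q)
    · intro N hN
      rw [mem_coe, mem_filter, mem_Icc] at hN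
      rw [mem_coe, mem_range]
      have := Nat.div_le_div_right (c := q) hN.1.2
      dsimp only
      omega
    · intro N hN N' hN' hNN
      rw [mem_coe, mem_filter, mem_Icc] at hN hN'
      have h2 := dvd_sub hN.2 hN'.2
      rw [sub_sub_sub_cancel_right] at h2
      have h3 : N' ≡ N [MOD q] := by
        apply (Int.natCast_modEq_iff).1
        rw [Int.modEq_iff_dvd]
        exact h2
      dsimp only at hNN
      have h4 := Nat.div_add_mod N q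
      have h5 := Nat.div_add_mod N' q
      have h6 : N' % q = N % q := h3
      rw [hNN] at h4
      rw [h6] at h5
      omega
  rwa [card_range] at h1

lemma ol_sum (F : Fin g → ℤ[X]) (G : ℤ[X]) (h : ℤ) (q M : ℕ) (hq : 0 < q) :
    ∑ N ∈ Icc 1 M, ol F G h q N ≤ aa F h q * (M / q + 1) := by
  have h1 : ∀ N, ol F G h q N = ∑ r ∈ (range q).filter (fun r : ℕ => (q : ℤ) ∣ (r : ℤ) * (r + h) * ∏ i, (F i).eval (r : ℤ)),
      if (q : ℤ) ∣ (N : ℤ) - G.eval (r : ℤ) then 1 else 0 := by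
    intro N
    unfold ol
    rw [← card_filter, filter_filter]
  simp_rw [h1]
  rw [sum_comm]
  unfold aa
  rw [← smul_eq_mul, ← sum_const]
  apply sum_le_sum
  intro r _
  rw [← card_filter]
  exact card_class q M hq _

lemma sum_inv_sq (z Y : ℕ) (hz : 1 ≤ z) : ∑ q ∈ Pr z Y, ((q : ℝ) ^ 2)⁻¹ ≤ (z : ℝ)⁻¹ := by
  rcases Nat.lt_or_ge Y z with hXz | hXz
  · rw [sum_eq_zero]
    · positivity
    · intro p hp
      rw [Pr_mem] at hp
      omega
  · calc ∑ p ∈ Pr z Y, ((p : ℝ) ^ 2)⁻¹ ≤ ∑ p ∈ Ioc z Y, ((p : ℝ) ^ 2)⁻¹ := by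
          apply sum_le_sum_of_subset_of_nonneg
          · intro p hp
            rw [Pr_mem] at hp
            rw [mem_Ioc]
            exact hp.1
          · intro p _ _
            positivity
      _ ≤ (z : ℝ)⁻¹ - (Y : ℝ)⁻¹ := sum_Ioc_inv_sq_le_sub (by omega) hXz
      _ ≤ _ := by
          have : (0 : ℝ) ≤ (Y : ℝ)⁻¹ := by positivity
          linarith

/-- the common roots on average -/
lemma overlap (F : Fin g → ℤ[X]) (G : ℤ[X]) (h : ℤ) (hA : Ad F h) (D B : ℕ) (hD : ∑ i, (F i).natDegree ≤ D)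
    (z x M : ℕ) (hz : 1 ≤ z) (hx : x ≤ B * M) :
    ∑ N ∈ Icc 1 M, ∑ q ∈ Pr z x, (ol F G h q N : ℝ) / q ≤ (D + 2) * (1 + B) * M / z := by
  rw [sum_comm]
  have h1 : ∀ q ∈ Pr z x, ∑ N ∈ Icc 1 M, (ol F G h q N : ℝ) / q ≤ (D + 2) * (1 + B) * M * ((q : ℝ) ^ 2)⁻¹ := by
    intro q hq
    have hqp := Pr_prime hq
    have hq0 : (0 : ℝ) < q := by exact_mod_cast hqp.pos
    rw [← sum_div]
    have h2 : (∑ N ∈ Icc 1 M, (ol F G h q N : ℝ)) ≤ (D + 2) * ((M : ℝ) / q + 1) := by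
      have h3 := (ol_sum F G h q M hqp.pos).trans (Nat.mul_le_mul_right (M / q + 1) (aa_le F h hA hqp D hD))
      have h4 : ((∑ N ∈ Icc 1 M, ol F G h q N : ℕ) : ℝ) ≤ (((D + 2) * (M / q + 1) : ℕ) : ℝ) := by exact_mod_cast h3
      push_cast at h4
      refine h4.trans ?_
      apply mul_le_mul_of_nonneg_left _ (by positivity)
      have : ((M / q : ℕ) : ℝ) ≤ (M : ℝ) / q := Nat.cast_div_le
      linarith
    have h5 : (1 : ℝ) ≤ B * M / q := by
      rw [le_div_iff₀ hq0, one_mul]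
      have : q ≤ B * M := ((Pr_mem.1 hq).1.2).trans hx
      exact_mod_cast this
    calc (∑ N ∈ Icc 1 M, (ol F G h q N : ℝ)) / q ≤ ((D + 2) * ((M : ℝ) / q + 1)) / q := by gcongr
      _ ≤ ((D + 2) * ((M : ℝ) / q + B * M / q)) / q := by gcongr
      _ = _ := by field_simp
  refine (sum_le_sum h1).trans ?_
  rw [← mul_sum, div_eq_mul_inv]
  exact mul_le_mul_of_nonneg_left (sum_inv_sq z x hz) (by positivity)

lemma exp_le_one_sub {t : ℝ} (h0 : 0 ≤ t) (h1 : t ≤ 1 / 2) : Real.exp (-t - 2 * t ^ 2) ≤ 1 - t := by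
  have h2 : 0 < 1 - t := by linarith
  rw [← Real.le_log_iff_exp_le h2]
  have h3 := Real.one_sub_inv_le_log_of_pos h2
  have h4 : -t - 2 * t ^ 2 ≤ 1 - (1 - t)⁻¹ := by
    have h5 : (1 - t)⁻¹ ≤ 1 + t + 2 * t ^ 2 := by
      rw [inv_le_iff_one_le_mul₀ h2]
      nlinarith [mul_nonneg (sq_nonneg t) (by linarith : 0 ≤ 1 - 2 * t)]
    linarith
  linarith

end Pool.Agent.K4H18.CH
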