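import Pool.Agent.K4H18.CH.H6

set_option autoImplicit false

/-! The sieve product with and without the factor of `N`, for almost all `N`. -/

namespace Pool.Agent.K4H18.CH

open Finset Polynomial
open Pool.Agent.Y843.HS (Pr VV Pr_mem Pr_prime VV_split)
open Pool.Agent.Y843.HG (V1 V1_bounds)
open Pool.Agent.Y840.CT (rho VF prod_one_sub_ge)
open Pool.Agent.H373R2.T7 (Vz Vz_pos pz mem_pz markov)

variable {g : ℕ}

lemma V1_VV (y : ℕ) : V1 y = VV (fun _ => {0}) 0 y := by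
  unfold V1 VV
  simp

lemma V1_split {z X : ℕ} (h : z ≤ X) : V1 z * ∏ q ∈ Pr z X, (1 - 1 / (q : ℝ)) = V1 X := by
  rw [V1_VV, V1_VV, ← VV_split (fun _ => {0}) (Nat.zero_le z) h]
  congr 1
  unfold VV
  simp

/-- the factors beyond `z` -/
lemma prod_cmp (F : Fin g → ℤ[X]) (G : ℤ[X]) (N : ℕ) (h : ℤ) (D z X : ℕ) (hz : 2 * (D + 2) ≤ z) (hfix : NoFix F G N h)
    (hD : ∑ i, (F i).natDegree ≤ D) (S1 : ℝ) (hS : -S1 ≤ ∑ q ∈ Pr z X, ((nu G q N : ℝ) - 1) / q)
    (ho : ∑ q ∈ Pr z X, (ol F G h q N : ℝ) / q ≤ 1) :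
    VV (ZF F G N h) z X ≤ Real.exp (S1 + D + 4) * (VV (Zz F G N h z) z X * ∏ q ∈ Pr z X, (1 - 1 / (q : ℝ))) := by
  have hz0 : (0 : ℝ) < z := by exact_mod_cast (by omega : 0 < z)
  have hzr : 2 * ((D : ℝ) + 2) ≤ z := by exact_mod_cast hz
  have hpt : ∀ q ∈ Pr z X, 0 ≤ 1 - ((ZF F G N h q).card : ℝ) / q ∧ 1 - ((ZF F G N h q).card : ℝ) / q ≤
      (1 - ((Zz F G N h z q).card : ℝ) / q) * (1 - 1 / (q : ℝ)) *
      Real.exp (2 * ((D + 2) ^ 2 + 1) * ((q : ℝ) ^ 2)⁻¹ - ((nu G q N : ℝ) - 1) / q + (ol F G h q N : ℝ) / q) := by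
    intro q hq
    have hqp := Pr_prime hq
    have hq0 : (0 : ℝ) < q := by exact_mod_cast hqp.pos
    have hqz := (Pr_mem.1 hq).1.1
    have hqzr : (z : ℝ) < q := by exact_mod_cast hqz
    have hcard : (ZF F G N h q).card ≤ q := by
      unfold ZF
      exact (card_filter_le _ _).trans (by rw [card_range])
    have hun := ZF_union F G N h hqp
    have hunr : ((ZF F G N h q).card : ℝ) + ol F G h q N = aa F h q + nu G q N := by exact_mod_cast hun
    rw [Zz_large F G N h hqz]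
    have haa := aa_le F h hfix.ad hqp D hD
    have haar : (aa F h q : ℝ) ≤ D + 2 := by exact_mod_cast haa
    set a : ℝ := (aa F h q : ℝ) / q with ha
    have ha0 : 0 ≤ a := by positivity
    have ha1 : a ≤ 1 / 2 := by
      rw [ha, div_le_iff₀ hq0]
      linarith
    have hb0 : 0 ≤ 1 / (q : ℝ) := by positivity
    have hb1 : 1 / (q : ℝ) ≤ 1 / 2 := by
      apply one_div_le_one_div_of_le (by norm_num)
      have : (0 : ℝ) ≤ D := Nat.cast_nonneg _
      linarith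
    refine ⟨?_, ?_⟩
    · rw [sub_nonneg, div_le_one hq0]
      exact_mod_cast hcard
    have h1 : 1 - ((ZF F G N h q).card : ℝ) / q ≤ Real.exp (-(((ZF F G N h q).card : ℝ) / q)) := by
      have := Real.add_one_le_exp (-(((ZF F G N h q).card : ℝ) / q))
      linarith
    have h2 := exp_le_one_sub ha0 ha1
    have h3 := exp_le_one_sub hb0 hb1
    have h4 : 0 ≤ 1 - a := by linarith
    have h5 : 0 ≤ 1 - 1 / (q : ℝ) := by linarith
    have ha2 : a ^ 2 ≤ (D + 2) ^ 2 * ((q : ℝ) ^ 2)⁻¹ := by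
      rw [ha, div_pow, div_eq_mul_inv]
      apply mul_le_mul_of_nonneg_right _ (by positivity)
      exact pow_le_pow_left₀ (by positivity) haar 2
    calc 1 - ((ZF F G N h q).card : ℝ) / q ≤ Real.exp (-(((ZF F G N h q).card : ℝ) / q)) := h1
      _ = Real.exp (-a - 2 * a ^ 2) * Real.exp (-(1 / (q : ℝ)) - 2 * (1 / (q : ℝ)) ^ 2) *
          Real.exp (2 * a ^ 2 + 2 * (1 / (q : ℝ)) ^ 2 - ((nu G q N : ℝ) - 1) / q + (ol F G h q N : ℝ) / q) := by
          rw [← Real.exp_add, ← Real.exp_add]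
          congr 1
          have : ((ZF F G N h q).card : ℝ) = aa F h q + nu G q N - ol F G h q N := by linarith
          rw [this, ha]
          ring
      _ ≤ (1 - a) * (1 - 1 / (q : ℝ)) *
          Real.exp (2 * ((D + 2) ^ 2 + 1) * ((q : ℝ) ^ 2)⁻¹ - ((nu G q N : ℝ) - 1) / q + (ol F G h q N : ℝ) / q) := by
          apply mul_le_mul
          · exact mul_le_mul h2 h3 (Real.exp_pos _).le h4
          · apply Real.exp_le_exp.2
            have h6 : (1 / (q : ℝ)) ^ 2 = ((q : ℝ) ^ 2)⁻¹ := by rw [one_div, inv_pow]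
            rw [h6]
            linarith
          · exact (Real.exp_pos _).le
          · exact mul_nonneg h4 h5
  have h1 := prod_le_prod (fun q hq => (hpt q hq).1) (fun q hq => (hpt q hq).2)
  rw [prod_mul_distrib, prod_mul_distrib, ← Real.exp_sum] at h1
  unfold VV
  refine h1.trans ?_
  rw [mul_comm]
  apply mul_le_mul_of_nonneg_right
  · apply Real.exp_le_exp.2
    rw [sum_add_distrib, sum_sub_distrib, ← mul_sum]
    have h2 : 2 * (((D : ℝ) + 2) ^ 2 + 1) * ∑ q ∈ Pr z X, ((q : ℝ) ^ 2)⁻¹ ≤ D + 3 := by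
      calc 2 * (((D : ℝ) + 2) ^ 2 + 1) * ∑ q ∈ Pr z X, ((q : ℝ) ^ 2)⁻¹ ≤ 2 * (((D : ℝ) + 2) ^ 2 + 1) * (z : ℝ)⁻¹ :=
            mul_le_mul_of_nonneg_left (sum_inv_sq z X (by omega)) (by positivity)
        _ ≤ D + 3 := by
            rw [← div_eq_mul_inv, div_le_iff₀ hz0]
            have hD0 : (0 : ℝ) ≤ D := Nat.cast_nonneg _
            nlinarith
    linarith
  · rw [← prod_mul_distrib]
    apply prod_nonneg
    intro q hq
    have h2 := hpt q hq
    have h3 := h2.1.trans h2.2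
    exact nonneg_of_mul_nonneg_left h3 (Real.exp_pos _)

/-- the full product -/
theorem full_le : ∃ C : ℝ, 0 < C ∧ ∀ (g : ℕ) (F : Fin g → ℤ[X]) (G : ℤ[X]) (N : ℕ) (h : ℤ) (D z X : ℕ), 2 * (D + 2) ≤ z → z ≤ X →
    NoFix F G N h → ∑ i, (F i).natDegree ≤ D → ∀ S1 : ℝ, -S1 ≤ ∑ q ∈ Pr z X, ((nu G q N : ℝ) - 1) / q →
    ∑ q ∈ Pr z X, (ol F G h q N : ℝ) / q ≤ 1 →
    VV (ZF F G N h) 0 X ≤ C * Real.exp (S1 + D + 4) * ((Real.log X)⁻¹ * (Vz z)⁻¹ * VF (Cl F G N h z) X) := by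
  obtain ⟨c, C, hc, hC, hV⟩ := V1_bounds
  refine ⟨C, hC, ?_⟩
  intro g F G N h D z X hz hzX hfix hD S1 hS ho
  have h1 := prod_cmp F G N h D z X hz hfix hD S1 hS ho
  have hX2 : 2 ≤ X := by omega
  have h2 := (hV X hX2).2
  have hVz := Vz_pos z
  have hnn : ∀ (a b : ℕ), 0 ≤ VV (Zz F G N h z) a b := by
    intro a b
    unfold VV
    apply prod_nonneg
    intro q hq
    have hq0 : (0 : ℝ) < q := by exact_mod_cast (Pr_prime hq).pos
    rw [sub_nonneg, div_le_one hq0]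
    have : (Zz F G N h z q).card ≤ q := by
      unfold Zz
      exact (card_filter_le _ _).trans (by rw [card_range])
    exact_mod_cast this
  have h3 : VV (ZF F G N h) 0 z = VV (Zz F G N h z) 0 z := by
    unfold VV
    apply prod_congr rfl
    intro q hq
    rw [Zz_small F G N h (Pr_prime hq) (Pr_mem.1 hq).1.2]
  have h4 : ∏ q ∈ Pr z X, (1 - 1 / (q : ℝ)) = V1 X * (Vz z)⁻¹ := by
    rw [← V1_split hzX, ← V1_Vz]
    have : V1 z ≠ 0 := by rw [V1_Vz]; exact hVz.ne'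
    field_simp
  rw [h4] at h1
  rw [← VV_split (ZF F G N h) (Nat.zero_le z) hzX, h3, VF_Zz, ← VV_split (Zz F G N h z) (Nat.zero_le z) hzX]
  calc VV (Zz F G N h z) 0 z * VV (ZF F G N h) z X
      ≤ VV (Zz F G N h z) 0 z * (Real.exp (S1 + D + 4) * (VV (Zz F G N h z) z X * (V1 X * (Vz z)⁻¹))) :=
        mul_le_mul_of_nonneg_left h1 (hnn _ _)
    _ ≤ VV (Zz F G N h z) 0 z * (Real.exp (S1 + D + 4) * (VV (Zz F G N h z) z X * ((C / Real.log X) * (Vz z)⁻¹))) := by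
        have := hnn 0 z
        have := hnn z X
        gcongr
    _ = _ := by ring

/-- the sum over the large primes -/
theorem tail_bound : ∃ C : ℝ, 0 < C ∧ ∃ x0 : ℕ, ∀ x : ℕ, x0 ≤ x → ∑ q ∈ Pr ⌊(x : ℝ) ^ (1 / 4 : ℝ)⌋₊ x, 1 / (q : ℝ) ≤ C := by
  obtain ⟨c, C, hc, hC, hV⟩ := V1_bounds
  refine ⟨max 1 (Real.log (8 * C / c)), lt_of_lt_of_le one_pos (le_max_left _ _), 10 ^ 8, fun x hx => ?_⟩
  refine le_trans ?_ (le_max_right _ _)
  have hx8 : ((10 : ℝ) ^ 8) ≤ x := by exact_mod_cast hx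
  have hx0 : (0 : ℝ) < x := by positivity
  have hx1 : (1 : ℝ) ≤ x := by linarith
  set Y := ⌊(x : ℝ) ^ (1 / 4 : ℝ)⌋₊ with hY
  have h10 : (10 : ℝ) ≤ (x : ℝ) ^ (1 / 8 : ℝ) := by
    have := Real.rpow_le_rpow (by positivity) hx8 (show (0 : ℝ) ≤ 1 / 8 by norm_num)
    rwa [← Real.rpow_natCast, ← Real.rpow_mul (by norm_num), show ((8 : ℕ) : ℝ) * (1 / 8) = 1 by norm_num,
      Real.rpow_one] at this
  have hsq : (x : ℝ) ^ (1 / 4 : ℝ) = (x : ℝ) ^ (1 / 8 : ℝ) * (x : ℝ) ^ (1 / 8 : ℝ) := by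
    rw [← Real.rpow_add hx0]; norm_num
  have hYlow : (x : ℝ) ^ (1 / 8 : ℝ) ≤ Y := by
    have := Nat.lt_floor_add_one ((x : ℝ) ^ (1 / 4 : ℝ))
    rw [← hY] at this
    nlinarith
  have hY2 : 2 ≤ Y := by
    have : (2 : ℝ) ≤ Y := by linarith
    exact_mod_cast this
  have hYx : Y ≤ x := by
    have h1 : (x : ℝ) ^ (1 / 4 : ℝ) ≤ x := by
      have := Real.rpow_le_rpow_of_exponent_le hx1 (show (1 / 4 : ℝ) ≤ 1 by norm_num)
      rwa [Real.rpow_one] at this
    have := Nat.floor_le_floor h1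
    rwa [Nat.floor_natCast] at this
  have hlY : Real.log x / 8 ≤ Real.log Y := by
    have := Real.log_le_log (by positivity) hYlow
    rw [Real.log_rpow hx0] at this
    linarith
  have hlx : 0 < Real.log x := Real.log_pos (by linarith)
  have h1 := (hV x (by omega)).1
  have h2 := (hV Y hY2).2
  have hVY : 0 < V1 Y := by rw [V1_Vz]; exact Vz_pos Y
  have h3 : c / (8 * C) ≤ ∏ q ∈ Pr Y x, (1 - 1 / (q : ℝ)) := by
    have h4 : ∏ q ∈ Pr Y x, (1 - 1 / (q : ℝ)) = V1 x / V1 Y := by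
      rw [← V1_split hYx]
      field_simp
    rw [h4, le_div_iff₀ hVY]
    calc c / (8 * C) * V1 Y ≤ c / (8 * C) * (C / Real.log Y) := by gcongr
      _ ≤ c / (8 * C) * (C / (Real.log x / 8)) := by gcongr
      _ = c / Real.log x := by field_simp
      _ ≤ _ := h1
  have h5 : ∏ q ∈ Pr Y x, (1 - 1 / (q : ℝ)) ≤ Real.exp (-∑ q ∈ Pr Y x, 1 / (q : ℝ)) := by
    rw [← sum_neg_distrib, Real.exp_sum]
    apply prod_le_prod
    · intro q hq
      have : (1 : ℝ) ≤ q := by exact_mod_cast (Pr_prime hq).one_lt.le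
      rw [sub_nonneg, div_le_one (by linarith)]
      exact this
    · intro q _
      have := Real.add_one_le_exp (-(1 / (q : ℝ)))
      linarith
  have h6 := Real.log_le_log (by positivity) (h3.trans h5)
  rw [Real.log_exp] at h6
  have h7 : Real.log (c / (8 * C)) = -Real.log (8 * C / c) := by
    rw [← Real.log_inv, inv_div]
  linarith

end Pool.Agent.K4H18.CH
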