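import Pool.Agent.K4H18.CH.H7

set_option autoImplicit false

/-! The comparison of the sieve products for almost all `N`. -/

namespace Pool.Agent.K4H18.CH

open Finset Polynomial
open Pool.Agent.Y843.HS (Pr VV Pr_mem Pr_prime VV_split)
open Pool.Agent.Y840.CT (rho VF)
open Pool.Agent.H373R2.T7 (Vz Vz_pos pz mem_pz markov)

lemma Pr_split {a b c : ℕ} (hab : a ≤ b) (hbc : b ≤ c) (f : ℕ → ℝ) :
    ∑ q ∈ Pr a c, f q = ∑ q ∈ Pr a b, f q + ∑ q ∈ Pr b c, f q := by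
  rw [← sum_union]
  · apply sum_congr _ (fun _ _ => rfl)
    ext p
    rw [mem_union, Pr_mem, Pr_mem, Pr_mem]
    constructor
    · rintro ⟨⟨h1, h2⟩, h3⟩
      rcases le_or_gt p b with h | h
      · exact Or.inl ⟨⟨h1, h⟩, h3⟩
      · exact Or.inr ⟨⟨h, h2⟩, h3⟩
    · rintro (⟨⟨h1, h2⟩, h3⟩ | ⟨⟨h1, h2⟩, h3⟩)
      · exact ⟨⟨h1, by omega⟩, h3⟩
      · exact ⟨⟨by omega, h2⟩, h3⟩
  · rw [disjoint_left]
    intro p hp hq
    rw [Pr_mem] at hp hq
    omega

lemma Pr_mono_sum {a b c : ℕ} (hbc : b ≤ c) (f : ℕ → ℝ) (hf : ∀ q, 0 ≤ f q) :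
    ∑ q ∈ Pr a b, f q ≤ ∑ q ∈ Pr a c, f q := by
  apply sum_le_sum_of_subset_of_nonneg
  · intro p hp
    rw [Pr_mem] at hp ⊢
    exact ⟨⟨hp.1.1, hp.1.2.trans hbc⟩, hp.2⟩
  · intro q _ _
    exact hf q

open Classical in
theorem avgood (D : ℕ) : ∃ C : ℝ, 0 < C ∧ ∀ (g : ℕ) (F : Fin g → ℤ[X]) (G : ℤ[X]),
    1 ≤ G.natDegree → 0 < G.leadingCoeff → (∑ i, (F i).natDegree) + G.natDegree ≤ D →
    ∀ (A B U E : ℕ), 1 ≤ B → ∃ x0 : ℕ, ∀ x : ℕ, x0 ≤ x → ∀ M : ℕ, M ≤ B * x ^ G.natDegree → x ^ G.natDegree ≤ B * M →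
    ∀ z : ℕ, Real.log x ^ (U + A + 3) ≤ z → (z : ℝ) ≤ Real.log x ^ E →
    (((Icc 1 M).filter (fun N => ¬ (∀ h : ℤ, (|h| : ℝ) ≤ Real.log x ^ A → NoFix F G N h →
      ∀ X : ℕ, X ≤ x → (x : ℝ) ^ (1 / 4 : ℝ) ≤ X → z ≤ X ∧
        VV (ZF F G N h) 0 X ≤ C * ((Real.log X)⁻¹ * (Vz z)⁻¹ * VF (Cl F G N h z) X)))).card : ℝ)
      ≤ M / Real.log x ^ U := by
  obtain ⟨C1, hC1, hfull⟩ := full_le
  obtain ⟨C2, hC2, x1, htail⟩ := tail_bound
  refine ⟨C1 * Real.exp ((1 + C2) + D + 4), by positivity, ?_⟩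
  intro g F G hG hGl hD A B U E hB
  obtain ⟨K, hKD⟩ : ∃ K : ℝ, K = (D : ℝ) := ⟨_, rfl⟩
  have hD1 : 1 ≤ D := by omega
  have hK : 1 ≤ K := by rw [hKD]; exact_mod_cast hD1
  obtain ⟨x2, h2⟩ := ev_nat U (8 * B * K ^ 2) (1 / 2) (by norm_num)
  obtain ⟨x3, h3⟩ := ev_rpow E (1 / 4) (by norm_num)
  obtain ⟨x5, h5⟩ := ev_lg (4 * K ^ 2 + 6 * (K + 2) * (1 + B) + G.leadingCoeff.natAbs + 1)
  refine ⟨max (max x1 x2) (max x3 (max x5 2)), ?_⟩
  intro x hx M hM1 hM2 z hz1 hz2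
  have a1 := htail x (by omega)
  have a2 := h2 x (by omega)
  have a3 := h3 x (by omega)
  have a5 := h5 x (by omega)
  set L := Real.log x with hL
  have hBr : (1 : ℝ) ≤ B := by exact_mod_cast hB
  have hlc0 : (0 : ℝ) ≤ G.leadingCoeff.natAbs := Nat.cast_nonneg _
  have hK2 : 1 ≤ K ^ 2 := one_le_pow₀ hK
  have hKB : 0 ≤ K * B := by positivity
  have hL1 : 1 ≤ L := by nlinarith
  have hL0 : 0 < L := by linarith
  have hxpos : 0 < x := by omega
  have hx0 : (0 : ℝ) < x := by exact_mod_cast hxpos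
  have hLz : L ≤ z := le_trans (le_self_pow₀ hL1 (by omega)) hz1
  have hz0 : (0 : ℝ) < z := by linarith
  have hz1' : 1 ≤ z := by exact_mod_cast (by linarith : (1 : ℝ) ≤ z)
  have hzD : 2 * (D + 2) ≤ z := by
    have : (2 : ℝ) * (D + 2) ≤ z := by
      rw [← hKD]
      nlinarith
    exact_mod_cast this
  have hzlc : G.leadingCoeff.natAbs ≤ z := by
    have : (G.leadingCoeff.natAbs : ℝ) ≤ z := by nlinarith
    exact_mod_cast this
  have hM0 : 0 < M := by
    rcases Nat.eq_zero_or_pos M with h | h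
    · rw [h, mul_zero] at hM2
      have : 0 < x ^ G.natDegree := pow_pos hxpos _
      omega
    · exact h
  have hMr : (0 : ℝ) < M := by exact_mod_cast hM0
  have hxM : x ≤ B * M := (Nat.le_self_pow (by omega) x).trans hM2
  have hxMr : (x : ℝ) ≤ B * M := by exact_mod_cast hxM
  set Y := ⌊(x : ℝ) ^ (1 / 4 : ℝ)⌋₊ with hY
  have hYle : (Y : ℝ) ≤ (x : ℝ) ^ (1 / 4 : ℝ) := Nat.floor_le (by positivity)
  have hzY : z ≤ Y := Nat.le_floor (hz2.trans a3)
  -- the deviations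
  set s1 : ℕ → ℝ := fun N => ∑ q ∈ Pr z Y, ((nu G q N : ℝ) - 1) / q with hs1
  set s2 : ℤ → ℕ → ℝ := fun h N => ∑ q ∈ Pr z x, (ol F G h q N : ℝ) / q with hs2
  have hnu : ∀ q : ℕ, q.Prime → z < q → ∀ N, |(nu G q N : ℝ) - 1| ≤ K := by
    intro q hq hzq N
    have := nu_le G hG q N hq (by omega) (by omega)
    have h6 : (nu G q N : ℝ) ≤ K := by
      rw [hKD]
      exact_mod_cast (by omega : nu G q N ≤ D)
    have h7 : (0 : ℝ) ≤ nu G q N := Nat.cast_nonneg _
    rw [abs_le]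
    constructor <;> linarith
  have hb1 : (((Icc 1 M).filter (fun N => 1 < (s1 N) ^ 2)).card : ℝ) ≤ M / L ^ U / 2 := by
    have h6 := markov (Icc 1 M) (fun N => (s1 N) ^ 2) (fun N _ => sq_nonneg _) 1 (K ^ 2 * M / z + 2 * K ^ 2 * (Y : ℝ) ^ 2)
      one_pos (by rw [one_mul]; exact variance G K hK z Y hz1' hnu M)
    refine le_trans (by convert h6 using 3) ?_
    have h7 : K ^ 2 * M / z ≤ M / L ^ U / 4 := by
      calc K ^ 2 * M / z ≤ K ^ 2 * M / L ^ (U + A + 3) := by gcongr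
        _ ≤ K ^ 2 * M / (L ^ U * (4 * K ^ 2)) := by
            apply div_le_div_of_nonneg_left (by positivity) (by positivity)
            rw [show U + A + 3 = U + (A + 3) by ring, pow_add]
            apply mul_le_mul_of_nonneg_left _ (by positivity)
            refine le_trans ?_ (le_self_pow₀ hL1 (by omega : A + 3 ≠ 0))
            nlinarith
        _ = M / L ^ U / 4 := by field_simp
    have h8 : 2 * K ^ 2 * (Y : ℝ) ^ 2 ≤ M / L ^ U / 4 := by
      have h9 : (Y : ℝ) ^ 2 ≤ (x : ℝ) ^ (1 / 2 : ℝ) := by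
        calc (Y : ℝ) ^ 2 ≤ ((x : ℝ) ^ (1 / 4 : ℝ)) ^ 2 := pow_le_pow_left₀ (by positivity) hYle 2
          _ = (x : ℝ) ^ (1 / 2 : ℝ) := by
              rw [← Real.rpow_natCast, ← Real.rpow_mul hx0.le]
              norm_num
      have h10 : (x : ℝ) ^ (1 / 2 : ℝ) * (x : ℝ) ^ (1 / 2 : ℝ) = x := by
        rw [← Real.rpow_add hx0]; norm_num
      have hsq : 0 < (x : ℝ) ^ (1 / 2 : ℝ) := by positivity
      rw [div_div, le_div_iff₀ (by positivity)]
      have h11 : B * (2 * K ^ 2 * (Y : ℝ) ^ 2 * (L ^ U * 4)) ≤ B * M := by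
        calc B * (2 * K ^ 2 * (Y : ℝ) ^ 2 * (L ^ U * 4)) = (8 * B * K ^ 2 * L ^ U) * (Y : ℝ) ^ 2 := by ring
          _ ≤ (x : ℝ) ^ (1 / 2 : ℝ) * (x : ℝ) ^ (1 / 2 : ℝ) := mul_le_mul a2 h9 (by positivity) (by positivity)
          _ = x := h10
          _ ≤ B * M := hxMr
      exact le_of_mul_le_mul_left h11 (by linarith)
    linarith
  have hb2 : ∀ h : ℤ, Ad F h → (((Icc 1 M).filter (fun N => 1 < s2 h N)).card : ℝ) ≤ (K + 2) * (1 + B) * M / z := by
    intro h hA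
    have h6 := markov (Icc 1 M) (fun N => s2 h N) (fun N _ => sum_nonneg fun q _ => by positivity) 1
      ((K + 2) * (1 + B) * M / z) one_pos (by
        rw [one_mul, hKD]
        exact overlap F G h hA D B (by omega) z x M hz1' hxM)
    exact h6
  set H := ⌊L ^ A⌋ with hH
  have hH0 : 0 ≤ H := Int.floor_nonneg.2 (by positivity)
  have hcover : (Icc 1 M).filter (fun N => ¬ (∀ h : ℤ, (|h| : ℝ) ≤ Real.log x ^ A → NoFix F G N h →
      ∀ X : ℕ, X ≤ x → (x : ℝ) ^ (1 / 4 : ℝ) ≤ X → z ≤ X ∧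
        VV (ZF F G N h) 0 X ≤ C1 * Real.exp ((1 + C2) + D + 4) * ((Real.log X)⁻¹ * (Vz z)⁻¹ * VF (Cl F G N h z) X))) ⊆
      (Icc 1 M).filter (fun N => 1 < (s1 N) ^ 2) ∪
      ((Icc (-H) H).filter (fun h => Ad F h)).biUnion (fun h => (Icc 1 M).filter (fun N => 1 < s2 h N)) := by
    intro N hN
    rw [mem_filter] at hN
    obtain ⟨hNM, hcon⟩ := hN
    rw [mem_union, mem_biUnion]
    by_contra hno
    push Not at hno
    apply hcon
    intro h hhA hfix X hXx hXx4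
    have hhH : h ∈ Icc (-H) H := by
      have e1 : |h| ≤ H := by
        rw [hH, Int.le_floor]
        push_cast
        exact hhA
      rw [mem_Icc]
      exact abs_le.1 e1
    have e1 : (s1 N) ^ 2 ≤ 1 := by
      by_contra hlt
      push Not at hlt
      exact hno.1 (mem_filter.2 ⟨hNM, hlt⟩)
    have e2 : s2 h N ≤ 1 := by
      by_contra hlt
      push Not at hlt
      exact hno.2 h (mem_filter.2 ⟨hhH, hfix.ad⟩) (mem_filter.2 ⟨hNM, hlt⟩)
    have hYX : Y ≤ X := by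
      have : (Y : ℝ) ≤ X := hYle.trans hXx4
      exact_mod_cast this
    have e3 : -1 ≤ s1 N := by
      have := (abs_le.1 ((sq_le_one_iff_abs_le_one _).1 e1)).1
      exact this
    refine ⟨hzY.trans hYX, ?_⟩
    apply hfull g F G N h D z X hzD (hzY.trans hYX) hfix (by omega) (1 + C2)
    · rw [Pr_split hzY hYX]
      have e4 : -(∑ q ∈ Pr Y X, 1 / (q : ℝ)) ≤ ∑ q ∈ Pr Y X, ((nu G q N : ℝ) - 1) / q := by
        rw [← sum_neg_distrib]
        apply sum_le_sum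
        intro q _
        rw [← neg_div]
        apply div_le_div_of_nonneg_right _ (by positivity)
        have : (0 : ℝ) ≤ nu G q N := Nat.cast_nonneg _
        linarith
      have e5 := (Pr_mono_sum (a := Y) hXx (fun q => 1 / (q : ℝ)) (fun q => by positivity)).trans a1
      have e6 : s1 N = ∑ q ∈ Pr z Y, ((nu G q N : ℝ) - 1) / q := rfl
      rw [← e6]
      linarith
    · exact (Pr_mono_sum hXx (fun q => (ol F G h q N : ℝ) / q) (fun q => by positivity)).trans e2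
  have hcard : ((((Icc 1 M).filter (fun N => ¬ (∀ h : ℤ, (|h| : ℝ) ≤ Real.log x ^ A → NoFix F G N h →
      ∀ X : ℕ, X ≤ x → (x : ℝ) ^ (1 / 4 : ℝ) ≤ X → z ≤ X ∧
        VV (ZF F G N h) 0 X ≤ C1 * Real.exp ((1 + C2) + D + 4) * ((Real.log X)⁻¹ * (Vz z)⁻¹ * VF (Cl F G N h z) X)))).card : ℕ) : ℝ) ≤
      (((Icc 1 M).filter (fun N => 1 < (s1 N) ^ 2)).card : ℝ) +
      ∑ h ∈ (Icc (-H) H).filter (fun h => Ad F h), (((Icc 1 M).filter (fun N => 1 < s2 h N)).card : ℝ) := by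
    exact_mod_cast (card_le_card hcover).trans ((card_union_le _ _).trans (Nat.add_le_add_left card_biUnion_le _))
  refine hcard.trans ?_
  have hsec : ∑ h ∈ (Icc (-H) H).filter (fun h => Ad F h), (((Icc 1 M).filter (fun N => 1 < s2 h N)).card : ℝ) ≤ M / L ^ U / 2 := by
    calc ∑ h ∈ (Icc (-H) H).filter (fun h => Ad F h), (((Icc 1 M).filter (fun N => 1 < s2 h N)).card : ℝ)
        ≤ ∑ h ∈ (Icc (-H) H).filter (fun h => Ad F h), (K + 2) * (1 + B) * M / z :=
          sum_le_sum fun h hh => hb2 h (mem_filter.1 hh).2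
      _ = (((Icc (-H) H).filter (fun h => Ad F h)).card : ℝ) * ((K + 2) * (1 + B) * M / z) := by
          rw [sum_const, nsmul_eq_mul]
      _ ≤ (3 * L ^ A) * ((K + 2) * (1 + B) * M / L ^ (U + A + 3)) := by
          have e1 : (((Icc (-H) H).filter (fun h => Ad F h)).card : ℝ) ≤ 3 * L ^ A := by
            have e2 : ((Icc (-H) H).filter (fun h => Ad F h)).card ≤ (H + 1 - -H).toNat :=
              (card_filter_le _ _).trans (by rw [Int.card_Icc])
            have e3 : ((H + 1 - -H).toNat : ℤ) = 2 * H + 1 := by omega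
            have e4 : (((H + 1 - -H).toNat : ℤ) : ℝ) = 2 * H + 1 := by rw [e3]; push_cast; ring
            have e5 : (((Icc (-H) H).filter (fun h => Ad F h)).card : ℝ) ≤ 2 * H + 1 := by
              rw [← e4]
              exact_mod_cast e2
            have e6 : (H : ℝ) ≤ L ^ A := Int.floor_le _
            have e7 : 1 ≤ L ^ A := one_le_pow₀ hL1
            linarith
          gcongr
      _ ≤ (3 * L ^ A) * ((K + 2) * (1 + B) * M / (L ^ U * L ^ A * (6 * (K + 2) * (1 + B)))) := by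
          apply mul_le_mul_of_nonneg_left _ (by positivity)
          apply div_le_div_of_nonneg_left (by positivity) (by positivity)
          rw [pow_add, pow_add]
          apply mul_le_mul_of_nonneg_left _ (by positivity)
          refine le_trans ?_ (le_self_pow₀ hL1 (by omega : 3 ≠ 0))
          nlinarith
      _ = M / L ^ U / 2 := by
          have : (0 : ℝ) < K + 2 := by linarith
          field_simp
          norm_num
  linarith

end Pool.Agent.K4H18.CH
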